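import Mathlib

/-! # Hamiltonian cycles from lists -/

namespace SimpleDraw

open SimpleGraph

theorem exists_walk_of_chain {V : Type*} {G : SimpleGraph V} : ∀ (C : List V) (a b : V),
    C.head? = some a → C.getLast? = some b → C.IsChain G.Adj → ∃ p : G.Walk a b, p.support = C
  | [], _, _, h, _, _ => by simp at h
  | [x], a, b, h1, h2, _ => by
      simp only [List.head?_cons, Option.some.injEq, List.getLast?_singleton] at h1 h2
      subst h1; subst h2
      exact ⟨Walk.nil, rfl⟩
  | x :: y :: l, a, b, h1, h2, h3 => by
      simp only [List.head?_cons, Option.some.injEq] at h1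
      subst h1
      rw [List.isChain_cons_cons] at h3
      obtain ⟨p, hp⟩ := exists_walk_of_chain (y :: l) y b rfl
        (by rw [List.getLast?_cons_cons] at h2; exact h2) h3.2
      exact ⟨Walk.cons h3.1 p, by rw [Walk.support_cons, hp]⟩

theorem ham_of_list {V : Type*} [DecidableEq V] [Fintype V] {G : SimpleGraph V} (C : List V)
    (hlen : 3 ≤ C.length) (hnd : C.Nodup) (hall : ∀ v, v ∈ C) (hchain : C.IsChain G.Adj)
    {a b : V} (ha : C.head? = some a) (hb : C.getLast? = some b) (hclose : G.Adj b a) :
    ∃ (x : V) (c : G.Walk x x), c.IsHamiltonianCycle := by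
  obtain ⟨p, hp⟩ := exists_walk_of_chain C a b ha hb hchain
  have hpath : p.IsPath := by rw [Walk.isPath_def, hp]; exact hnd
  have hlp : 2 ≤ p.length := by
    have := p.length_support
    rw [hp] at this
    omega
  have hedge : s(b, a) ∉ p.edges := by
    cases p with
    | nil => simp at hlp
    | @cons _ c _ h q =>
      rw [Walk.edges_cons, List.mem_cons, not_or]
      rw [Walk.cons_isPath_iff] at hpath
      constructor
      · intro he
        rw [Sym2.eq_iff] at he
        rcases he with ⟨h1, h2⟩ | ⟨h1, h2⟩
        · subst h1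
          exact hclose.ne rfl
        · subst h1
          have h3 := Walk.length_eq_zero_iff.2 (Walk.isPath_iff_nil.1 hpath.1)
          rw [Walk.length_cons, h3] at hlp
          omega
      · intro he
        exact hpath.2 (Walk.snd_mem_support_of_mem_edges q he)
  refine ⟨b, Walk.cons hclose p, ?_⟩
  refine ⟨(Walk.cons_isCycle_iff p hclose).2 ⟨hpath, hedge⟩, ?_⟩
  intro v
  have h1 : (Walk.cons hclose p).tail.support = C := by
    rw [Walk.support_tail_of_not_nil _ (by simp), Walk.support_cons, List.tail_cons, hp]
  rw [h1]
  exact List.count_eq_one_of_mem hnd (hall v)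

end SimpleDraw
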