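import Mathlib

/-! # The combinatorial core: laminar families of upper and lower edges -/

namespace SimpleDraw

/-- axioms of the relation `S i k j` (vertex `k` lies above the edge `ij`) (`i < k < j`) -/
structure SignAx (S : ℕ → ℕ → ℕ → Prop) (V : ℕ → Prop) : Prop where
  a1 : ∀ i j k l, V i → V j → V k → V l → i < j → j < k → k < l → S i k l → S i j k → S i j l
  a2 : ∀ i j k l, V i → V j → V k → V l → i < j → j < k → k < l → ¬ S i k l → ¬ S i j k →
    ¬ S i j l
  a3 : ∀ i j k l, V i → V j → V k → V l → i < j → j < k → k < l → S i k l → ¬ S j k l → S i j l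
  a4 : ∀ i j k l, V i → V j → V k → V l → i < j → j < k → k < l → ¬ S i k l → S j k l → ¬ S i j l
  a5 : ∀ r a k b l, V r → V a → V k → V b → V l → r < a → a < k → k < b → b < l →
    S a k b → S r a l → S r b l → S r k l
  a6 : ∀ r a k b l, V r → V a → V k → V b → V l → r < a → a < k → k < b → b < l →
    ¬ S a k b → ¬ S r a l → ¬ S r b l → ¬ S r k l

/-- the edge `ij` passes above all vertices of `L` between `i` and `j` -/
def Up (S : ℕ → ℕ → ℕ → Prop) (L : List ℕ) (i j : ℕ) : Prop :=
  ∀ k ∈ L, i < k → k < j → ¬ S i k j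

/-- the edge `ij` passes below all vertices of `L` between `i` and `j` -/
def Low (S : ℕ → ℕ → ℕ → Prop) (L : List ℕ) (i j : ℕ) : Prop :=
  ∀ k ∈ L, i < k → k < j → S i k j

/-- a family of edges on the vertices `L` which are upper or lower, no two of the same kind
interleaving, of size `2|L|-3`, containing the path -/
structure Fam (S : ℕ → ℕ → ℕ → Prop) (L : List ℕ) (F : Finset (ℕ × ℕ)) : Prop where
  mem : ∀ e ∈ F, e.1 ∈ L ∧ e.2 ∈ L ∧ e.1 < e.2
  typ : ∀ e ∈ F, Up S L e.1 e.2 ∨ Low S L e.1 e.2
  up : ∀ e ∈ F, ∀ f ∈ F, e.1 < f.1 → f.1 < e.2 → e.2 < f.2 →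
    ¬ (Up S L e.1 e.2 ∧ Up S L f.1 f.2)
  low : ∀ e ∈ F, ∀ f ∈ F, e.1 < f.1 → f.1 < e.2 → e.2 < f.2 →
    ¬ (Low S L e.1 e.2 ∧ Low S L f.1 f.2)
  card : F.card + 3 = 2 * L.length
  chain : L.IsChain (fun x y => (x, y) ∈ F)

/-- one half of the inductive step: the new edge is a lower edge -/
theorem step_low {S : ℕ → ℕ → ℕ → Prop} {V : ℕ → Prop} (hS : SignAx S V) {L : List ℕ} {j a : ℕ}
    (hLV : ∀ x ∈ L, V x) (haV : V a) (hj : j ∈ L) (hjmax : ∀ x ∈ L, x ≤ j) (hja : j < a)
    {F : Finset (ℕ × ℕ)} (hF : Fam S L F) {r : ℕ} (hr : r ∈ L) (hrj : r < j)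
    (hvis : ∀ e ∈ F, Low S L e.1 e.2 → ¬ (e.1 < r ∧ r < e.2)) (hS1 : S r j a)
    (hmax : ∀ k ∈ L, r < k → k < j → (∀ e ∈ F, Low S L e.1 e.2 → ¬ (e.1 < k ∧ k < e.2)) →
      ¬ S k j a) :
    ∀ k ∈ L, r < k → S r k a := by
  have hvisS : ∀ k ∈ L, r < k → k < j →
      (∀ e ∈ F, Low S L e.1 e.2 → ¬ (e.1 < k ∧ k < e.2)) → S r k a := by
    intro k hk hrk hkj hv
    by_contra hn
    have h1 := hmax k hk hrk hkj hv
    exact hn (hS.a3 r k j a (hLV _ hr) (hLV _ hk) (hLV _ hj) haV hrk hkj hja hS1 h1)
  intro k hk hrk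
  rcases (hjmax k hk).eq_or_lt with rfl | hkj
  · exact hS1
  by_cases hv : ∀ e ∈ F, Low S L e.1 e.2 → ¬ (e.1 < k ∧ k < e.2)
  · exact hvisS k hk hrk hkj hv
  -- `k` is covered by a lower edge; take the longest one
  push Not at hv
  classical
  set C := F.filter (fun e => Low S L e.1 e.2 ∧ e.1 < k ∧ k < e.2) with hC
  have hCne : C.Nonempty := by
    obtain ⟨e, he, h1, h2⟩ := hv
    exact ⟨e, by simp [hC, he, h1, h2]⟩
  obtain ⟨e, heC, hemax⟩ := C.exists_max_image (fun e => e.2 - e.1) hCne
  simp only [hC, Finset.mem_filter] at heC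
  obtain ⟨heF, heL, hek1, hek2⟩ := heC
  have hcov : ∀ e' ∈ F, Low S L e'.1 e'.2 → e'.1 < k → k < e'.2 → e'.2 - e'.1 ≤ e.2 - e.1 :=
    fun e' h1 h2 h3 h4 => hemax e' (by simp [hC, h1, h2, h3, h4])
  obtain ⟨hm1, hm2, hm3⟩ := hF.mem e heF
  -- the two ends are visible
  have hv1 : ∀ e' ∈ F, Low S L e'.1 e'.2 → ¬ (e'.1 < e.1 ∧ e.1 < e'.2) := by
    rintro e' he' hl ⟨h1, h2⟩
    have h3 : e.2 ≤ e'.2 := by
      by_contra h3
      push Not at h3
      exact hF.low e' he' e heF h1 h2 h3 ⟨hl, heL⟩
    have := hcov e' he' hl (by omega) (by omega)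
    omega
  have hv2 : ∀ e' ∈ F, Low S L e'.1 e'.2 → ¬ (e'.1 < e.2 ∧ e.2 < e'.2) := by
    rintro e' he' hl ⟨h1, h2⟩
    have h3 : e'.1 ≤ e.1 := by
      by_contra h3
      push Not at h3
      exact hF.low e heF e' he' h3 h1 h2 ⟨heL, hl⟩
    have := hcov e' he' hl (by omega) (by omega)
    omega
  have hre : r ≤ e.1 := by
    by_contra h
    push Not at h
    exact hvis e heF heL ⟨h, by omega⟩
  have hSb : S r e.2 a := by
    rcases (hjmax _ hm2).eq_or_lt with h | h
    · rw [h]; exact hS1
    · exact hvisS _ hm2 (by omega) h hv2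
  have hkS : S e.1 k e.2 := heL k hk hek1 hek2
  rcases hre.eq_or_lt with h | h
  · rw [← h] at hkS
    exact hS.a1 r k e.2 a (hLV _ hr) (hLV _ hk) (hLV _ hm2) haV hrk hek2
      ((hjmax _ hm2).trans_lt hja) hSb hkS
  · have hSa : S r e.1 a := hvisS _ hm1 h (by have := hjmax _ hm2; omega) hv1
    exact hS.a5 r e.1 k e.2 a (hLV _ hr) (hLV _ hm1) (hLV _ hk) (hLV _ hm2) haV h hek1 hek2
      ((hjmax _ hm2).trans_lt hja) hkS hSa hSb

/-- the axioms are invariant under exchanging above and below -/
theorem SignAx.neg {S : ℕ → ℕ → ℕ → Prop} {V : ℕ → Prop} (hS : SignAx S V) :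
    SignAx (fun i k j => ¬ S i k j) V where
  a1 := fun i j k l hi hj hk hl h1 h2 h3 h4 h5 => hS.a2 i j k l hi hj hk hl h1 h2 h3 h4 h5
  a2 := fun i j k l hi hj hk hl h1 h2 h3 h4 h5 => by
    rw [not_not] at h4 h5 ⊢
    exact hS.a1 i j k l hi hj hk hl h1 h2 h3 h4 h5
  a3 := fun i j k l hi hj hk hl h1 h2 h3 h4 h5 => by
    rw [not_not] at h5
    exact hS.a4 i j k l hi hj hk hl h1 h2 h3 h4 h5
  a4 := fun i j k l hi hj hk hl h1 h2 h3 h4 h5 => by
    rw [not_not] at h4 ⊢
    exact hS.a3 i j k l hi hj hk hl h1 h2 h3 h4 h5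
  a5 := fun r a k b l hr ha hk hb hl h1 h2 h3 h4 h5 h6 h7 =>
    hS.a6 r a k b l hr ha hk hb hl h1 h2 h3 h4 h5 h6 h7
  a6 := fun r a k b l hr ha hk hb hl h1 h2 h3 h4 h5 h6 h7 => by
    rw [not_not] at h5 h6 h7 ⊢
    exact hS.a5 r a k b l hr ha hk hb hl h1 h2 h3 h4 h5 h6 h7

theorem up_append {S : ℕ → ℕ → ℕ → Prop} {L : List ℕ} {a i j : ℕ} (h : j ≤ a) :
    Up S (L ++ [a]) i j ↔ Up S L i j := by
  constructor
  · intro hU k hk
    exact hU k (List.mem_append_left _ hk)
  · intro hU k hk h1 h2
    rcases List.mem_append.1 hk with hk | hk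
    · exact hU k hk h1 h2
    · simp only [List.mem_singleton] at hk; omega

theorem low_append {S : ℕ → ℕ → ℕ → Prop} {L : List ℕ} {a i j : ℕ} (h : j ≤ a) :
    Low S (L ++ [a]) i j ↔ Low S L i j := by
  constructor
  · intro hU k hk
    exact hU k (List.mem_append_left _ hk)
  · intro hU k hk h1 h2
    rcases List.mem_append.1 hk with hk | hk
    · exact hU k hk h1 h2
    · simp only [List.mem_singleton] at hk; omega

theorem Fam.neg {S : ℕ → ℕ → ℕ → Prop} {L : List ℕ} {F : Finset (ℕ × ℕ)} (h : Fam S L F) :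
    Fam (fun i k j => ¬ S i k j) L F := by
  have hU : ∀ i j, Up (fun i k j => ¬ S i k j) L i j ↔ Low S L i j := by
    intro i j
    simp only [Up, Low, not_not]
  have hL : ∀ i j, Low (fun i k j => ¬ S i k j) L i j ↔ Up S L i j := by
    intro i j
    simp only [Up, Low]
  refine ⟨h.mem, ?_, ?_, ?_, h.card, h.chain⟩
  · intro e he
    rw [hU, hL]
    exact (h.typ e he).symm
  · intro e he f hf h1 h2 h3
    rw [hU, hU]
    exact h.low e he f hf h1 h2 h3
  · intro e he f hf h1 h2 h3
    rw [hL, hL]
    exact h.up e he f hf h1 h2 h3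

theorem fam_extend {S : ℕ → ℕ → ℕ → Prop} {V : ℕ → Prop} (hS : SignAx S V) {L : List ℕ}
    {j a : ℕ} (hLV : ∀ x ∈ L, V x) (haV : V a) (hj : j ∈ L) (hjmax : ∀ x ∈ L, x ≤ j)
    (hlast : L.getLast? = some j)
    (hja : j < a) {F : Finset (ℕ × ℕ)} (hF : Fam S L F) {r : ℕ} (hr : r ∈ L) (hrj : r < j)
    (hvis : ∀ e ∈ F, Low S L e.1 e.2 → ¬ (e.1 < r ∧ r < e.2)) (hS1 : S r j a)
    (hmax : ∀ k ∈ L, r < k → k < j → (∀ e ∈ F, Low S L e.1 e.2 → ¬ (e.1 < k ∧ k < e.2)) →
      ¬ S k j a) :
    Fam S (L ++ [a]) (insert (j, a) (insert (r, a) F)) := by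
  classical
  have hlow := step_low hS hLV haV hj hjmax hja hF hr hrj hvis hS1 hmax
  have hle : ∀ e ∈ F, e.2 ≤ j := fun e he => hjmax _ (hF.mem e he).2.1
  have hFa : ∀ e ∈ F, (Up S (L ++ [a]) e.1 e.2 ↔ Up S L e.1 e.2) ∧
      (Low S (L ++ [a]) e.1 e.2 ↔ Low S L e.1 e.2) := fun e he =>
    ⟨up_append (by have := hle e he; omega), low_append (by have := hle e he; omega)⟩
  have hLra : Low S (L ++ [a]) r a := (low_append le_rfl).2 fun k hk h1 _ => hlow k hk h1
  have hUra : ¬ Up S (L ++ [a]) r a := fun h =>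
    h j (List.mem_append_left _ hj) hrj hja hS1
  refine ⟨?_, ?_, ?_, ?_, ?_, ?_⟩
  · intro e he
    simp only [Finset.mem_insert] at he
    rcases he with rfl | rfl | he
    · exact ⟨List.mem_append_left _ hj, by simp, hja⟩
    · exact ⟨List.mem_append_left _ hr, by simp, hrj.trans hja⟩
    · obtain ⟨h1, h2, h3⟩ := hF.mem e he
      exact ⟨List.mem_append_left _ h1, List.mem_append_left _ h2, h3⟩
  · intro e he
    simp only [Finset.mem_insert] at he
    rcases he with rfl | rfl | he
    · right
      intro k hk h1 h2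
      rcases List.mem_append.1 hk with hk | hk
      · have := hjmax k hk
        simp only at h1; omega
      · simp only [List.mem_singleton] at hk
        simp only at h2; omega
    · right; exact hLra
    · rw [(hFa e he).1, (hFa e he).2]; exact hF.typ e he
  · intro e he f hf h1 h2 h3
    simp only [Finset.mem_insert] at he hf
    rcases hf with rfl | rfl | hf
    · rcases he with rfl | rfl | he
      · simp at h1
      · simp at h3
      · have := hle e he; simp only at h2; omega
    · rintro ⟨_, h⟩; exact hUra h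
    · have hf2 := hle f hf
      rcases he with rfl | rfl | he
      · simp only at h3; omega
      · simp only at h3; omega
      · rw [(hFa e he).1, (hFa f hf).1]
        exact hF.up e he f hf h1 h2 h3
  · intro e he f hf h1 h2 h3
    simp only [Finset.mem_insert] at he hf
    rcases hf with rfl | rfl | hf
    · rcases he with rfl | rfl | he
      · simp at h1
      · simp at h3
      · have := hle e he; simp only at h2; omega
    · rcases he with rfl | rfl | he
      · simp at h3
      · simp at h1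
      · rintro ⟨h, _⟩
        exact hvis e he ((hFa e he).2.1 h) ⟨h1, h2⟩
    · have hf2 := hle f hf
      rcases he with rfl | rfl | he
      · simp only at h3; omega
      · simp only at h3; omega
      · rw [(hFa e he).2, (hFa f hf).2]
        exact hF.low e he f hf h1 h2 h3
  · have h1 : (r, a) ∉ F := fun h => by have := hle _ h; simp only at this; omega
    have h2 : (j, a) ∉ insert (r, a) F := by
      simp only [Finset.mem_insert, Prod.mk.injEq, not_or]
      refine ⟨by omega, fun h => by have := hle _ h; simp only at this; omega⟩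
    rw [Finset.card_insert_of_notMem h2, Finset.card_insert_of_notMem h1,
      List.length_append, List.length_singleton]
    have := hF.card
    omega
  · rw [List.isChain_append]
    refine ⟨hF.chain.imp fun x y h => ?_, by simp, ?_⟩
    · exact Finset.mem_insert_of_mem (Finset.mem_insert_of_mem h)
    · intro x hx y hy
      rw [hlast] at hx
      simp only [Option.mem_def, Option.some.injEq, List.head?_cons] at hx hy
      subst hx; subst hy
      exact Finset.mem_insert_self _ _

/-- the main combinatorial theorem -/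
theorem exists_fam {S : ℕ → ℕ → ℕ → Prop} {V : ℕ → Prop} (hS : SignAx S V) (L : List ℕ)
    (hsort : L.Pairwise (· < ·)) (hlen : 2 ≤ L.length) (hLV : ∀ x ∈ L, V x) :
    ∃ F, Fam S L F := by
  classical
  induction L using List.reverseRecOn with
  | nil => simp at hlen
  | append_singleton L a ih =>
    rw [List.pairwise_append] at hsort
    obtain ⟨hsL, -, hLa⟩ := hsort
    have hLa' : ∀ x ∈ L, x < a := fun x hx => hLa x hx a (by simp)
    have hLVL : ∀ x ∈ L, V x := fun x hx => hLV x (List.mem_append_left _ hx)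
    have haV : V a := hLV a (by simp)
    rcases Nat.lt_or_ge L.length 2 with hl | hl
    · -- two vertices
      have hl1 : L.length = 1 := by
        simp only [List.length_append, List.length_singleton] at hlen; omega
      obtain ⟨b, rfl⟩ := List.length_eq_one_iff.1 hl1
      have hba : b < a := hLa' b (by simp)
      refine ⟨{(b, a)}, ?_, ?_, ?_, ?_, ?_, ?_⟩
      · intro e he
        simp only [Finset.mem_singleton] at he
        subst he
        simp [hba]
      · intro e he
        simp only [Finset.mem_singleton] at he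
        subst he
        left
        intro k hk h1 h2
        simp only [List.cons_append, List.nil_append, List.mem_cons, List.not_mem_nil,
          or_false] at hk
        rcases hk with rfl | rfl <;> simp at h1 h2
      · intro e he f hf h1
        simp only [Finset.mem_singleton] at he hf
        subst he; subst hf; simp at h1
      · intro e he f hf h1
        simp only [Finset.mem_singleton] at he hf
        subst he; subst hf; simp at h1
      · simp
      · simp
    · obtain ⟨F, hF⟩ := ih hsL hl hLVL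
      have hLne : L ≠ [] := by rintro rfl; simp at hl
      obtain ⟨j, hj⟩ : ∃ j, L.getLast? = some j := by
        rw [List.getLast?_eq_some_getLast hLne]; exact ⟨_, rfl⟩
      have hjL : j ∈ L := List.mem_of_getLast? hj
      have hjmax : ∀ x ∈ L, x ≤ j := by
        obtain ⟨L1, rfl⟩ := List.getLast?_eq_some_iff.1 hj
        intro x hx
        rcases List.mem_append.1 hx with hx | hx
        · rw [List.pairwise_append] at hsL
          exact (hsL.2.2 x hx j (by simp)).le
        · simp only [List.mem_singleton] at hx; exact hx.le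
      -- the first vertex
      obtain ⟨x0, hx0⟩ : ∃ x0, L.head? = some x0 := by
        rw [List.head?_eq_some_head hLne]; exact ⟨_, rfl⟩
      have hx0L : x0 ∈ L := List.mem_of_head? hx0
      have hx0min : ∀ x ∈ L, x0 ≤ x := by
        obtain ⟨L1, rfl⟩ : ∃ L1, L = x0 :: L1 := by
          cases L with
          | nil => simp at hx0
          | cons y L1 => simp only [List.head?_cons, Option.some.injEq] at hx0; exact ⟨L1, by rw [hx0]⟩
        intro x hx
        rcases List.mem_cons.1 hx with rfl | hx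
        · exact le_rfl
        · exact (List.rel_of_pairwise_cons hsL hx).le
      have hx0j : x0 < j := by
        refine lt_of_le_of_ne (hx0min j hjL) ?_
        rintro rfl
        -- all elements equal, contradiction with length ≥ 2
        have h1 : ∀ x ∈ L, x = x0 := fun x hx => le_antisymm (hjmax x hx) (hx0min x hx)
        obtain ⟨y, z, L2, rfl⟩ : ∃ y z L2, L = y :: z :: L2 := by
          match L, hl with
          | y :: z :: L2, _ => exact ⟨y, z, L2, rfl⟩
        have h2 := h1 y (by simp)
        have h3 := h1 z (by simp)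
        have h4 : y < z := List.rel_of_pairwise_cons hsL (by simp)
        omega
      set P : ℕ → Prop := fun r =>
        ((∀ e ∈ F, Low S L e.1 e.2 → ¬ (e.1 < r ∧ r < e.2)) ∧ S r j a) ∨
        ((∀ e ∈ F, Up S L e.1 e.2 → ¬ (e.1 < r ∧ r < e.2)) ∧ ¬ S r j a) with hP
      set C := L.toFinset.filter (fun r => r < j ∧ P r) with hC
      have hCne : C.Nonempty := by
        refine ⟨x0, ?_⟩
        simp only [hC, Finset.mem_filter, List.mem_toFinset]
        refine ⟨hx0L, hx0j, ?_⟩
        have hv : ∀ e ∈ F, ¬ (e.1 < x0 ∧ x0 < e.2) := by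
          rintro e he ⟨h1, -⟩
          have := hx0min _ (hF.mem e he).1
          omega
        by_cases h : S x0 j a
        · left; exact ⟨fun e he _ => hv e he, h⟩
        · right; exact ⟨fun e he _ => hv e he, h⟩
      obtain ⟨r, hrC, hrmax⟩ := C.exists_max_image id hCne
      simp only [hC, Finset.mem_filter, List.mem_toFinset] at hrC
      obtain ⟨hrL, hrj, hPr⟩ := hrC
      have hno : ∀ k ∈ L, r < k → k < j → ¬ P k := by
        intro k hk h1 h2 h3
        have := hrmax k (by simp [hC, hk, h2, h3])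
        simp only [id] at this
        omega
      rcases hPr with ⟨h1, h2⟩ | ⟨h1, h2⟩
      · exact ⟨_, fam_extend hS hLVL haV hjL hjmax hj (hLa' j hjL) hF hrL hrj h1 h2
          fun k hk h3 h4 h5 h6 => hno k hk h3 h4 (Or.inl ⟨h5, h6⟩)⟩
      · have h3 := fam_extend hS.neg hLVL haV hjL hjmax hj (hLa' j hjL) hF.neg hrL hrj
          (fun e he hl => h1 e he hl) h2
          (fun k hk h3 h4 h5 h6 => hno k hk h3 h4 (Or.inr ⟨fun e he hl => h5 e he hl, h6⟩))
        have h4 := h3.neg
        simp only [not_not] at h4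
        exact ⟨_, h4⟩

end SimpleDraw
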