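import Mathlib

/-! # Simple drawings of complete graphs in the plane -/

open Set

namespace SimpleDraw

/-- `p` is a proper crossing of the curves `e` and `f`: some homeomorphism from a neighbourhood
of `p` onto an open set of the plane sends `p` to `0`, and `e`, `f` to the two coordinate axes -/
def ProperCrossing (e f : Set ℂ) (p : ℂ) : Prop :=
  ∃ h : OpenPartialHomeomorph ℂ ℂ, p ∈ h.source ∧ h p = 0 ∧
    (∀ z ∈ h.source, (z ∈ e ↔ (h z).im = 0)) ∧ (∀ z ∈ h.source, (z ∈ f ↔ (h z).re = 0))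

/-- `e` is a simple arc with end points `a` and `b` -/
def IsArc (e : Set ℂ) (a b : ℂ) : Prop :=
  ∃ γ : ℝ → ℂ, ContinuousOn γ (Icc 0 1) ∧ InjOn γ (Icc 0 1) ∧ γ 0 = a ∧ γ 1 = b ∧
    γ '' Icc 0 1 = e

/-- a simple drawing of the complete graph on `Fin n` in the plane `ℂ` -/
structure SimpleDrawing (n : ℕ) where
  /-- the vertices -/
  pt : Fin n → ℂ
  /-- the edge curves -/
  curve : Fin n → Fin n → Set ℂ
  pt_inj : Function.Injective pt
  curve_symm : ∀ i j, curve i j = curve j i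
  arc : ∀ i j, i ≠ j → IsArc (curve i j) (pt i) (pt j)
  /-- no edge passes through another vertex -/
  vertex : ∀ i j k, i ≠ j → k ≠ i → k ≠ j → pt k ∉ curve i j
  /-- two different edges have at most one point in common -/
  inter : ∀ i j k l, i ≠ j → k ≠ l → s(i, j) ≠ s(k, l) → (curve i j ∩ curve k l).Subsingleton
  /-- which is a shared end-vertex or a proper crossing -/
  proper : ∀ i j k l, i ≠ j → k ≠ l → s(i, j) ≠ s(k, l) → ∀ p ∈ curve i j ∩ curve k l,
    (∃ v, (v = i ∨ v = j) ∧ (v = k ∨ v = l) ∧ p = pt v) ∨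
      ProperCrossing (curve i j) (curve k l) p

/-- the subdrawing with all vertices and the edges of `G` is plane: two different edges of `G`
meet at most in a shared end-vertex -/
def SimpleDrawing.Plane {n : ℕ} (D : SimpleDrawing n) (G : SimpleGraph (Fin n)) : Prop :=
  ∀ i j k l, G.Adj i j → G.Adj k l → s(i, j) ≠ s(k, l) → ∀ p ∈ D.curve i j ∩ D.curve k l,
    ∃ v, (v = i ∨ v = j) ∧ (v = k ∨ v = l) ∧ p = D.pt v

/-- the drawing has a plane subdrawing with exactly `2n - 3` edges containing a Hamiltonian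
cycle -/
def SimpleDrawing.HasPlaneHamiltonian {n : ℕ} (D : SimpleDrawing n) : Prop :=
  ∃ G : SimpleGraph (Fin n), D.Plane G ∧ G.edgeSet.ncard = 2 * n - 3 ∧
    ∃ (a : Fin n) (c : G.Walk a a), c.IsHamiltonianCycle

/-- the point with polar coordinates `(r, θ)` around `O` -/
noncomputable def polar (O : ℂ) (r θ : ℝ) : ℂ := O + r * Complex.exp (θ * Complex.I)

/-- the arc `e` from `a` to `b` avoids `O` and is met at most once by each ray from `O`:
it can be parametrized by the angle around `O` -/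
def IsPolarArc (O : ℂ) (e : Set ℂ) (a b : ℂ) : Prop :=
  ∃ (α β : ℝ) (ρ : ℝ → ℝ), α < β ∧ β < α + 2 * Real.pi ∧ ContinuousOn ρ (Icc α β) ∧
    (∀ θ ∈ Icc α β, 0 < ρ θ) ∧ e = (fun θ => polar O (ρ θ) θ) '' Icc α β ∧
    ((polar O (ρ α) α = a ∧ polar O (ρ β) β = b) ∨ (polar O (ρ α) α = b ∧ polar O (ρ β) β = a))

/-- strongly c-monotone: for some point `O`, every edge is monotone around `O`, and for any two
edges some ray from `O` meets neither of them -/
def SimpleDrawing.StronglyCMonotone {n : ℕ} (D : SimpleDrawing n) : Prop :=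
  ∃ O : ℂ, (∀ i j, i ≠ j → IsPolarArc O (D.curve i j) (D.pt i) (D.pt j)) ∧
    ∀ i j k l, i ≠ j → k ≠ l → ∃ θ : ℝ, ∀ r : ℝ, 0 ≤ r →
      polar O r θ ∉ D.curve i j ∧ polar O r θ ∉ D.curve k l

/-- the arc `e` from `a` to `b` is the graph of a continuous function -/
def IsGraphArc (e : Set ℂ) (a b : ℂ) : Prop :=
  ∃ (α β : ℝ) (f : ℝ → ℝ), α < β ∧ ContinuousOn f (Icc α β) ∧
    e = (fun x : ℝ => (⟨x, f x⟩ : ℂ)) '' Icc α β ∧
    (((⟨α, f α⟩ : ℂ) = a ∧ (⟨β, f β⟩ : ℂ) = b) ∨ ((⟨α, f α⟩ : ℂ) = b ∧ (⟨β, f β⟩ : ℂ) = a))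

/-- x-monotone: every edge is met at most once by each vertical line -/
def SimpleDrawing.XMonotone {n : ℕ} (D : SimpleDrawing n) : Prop :=
  ∀ i j, i ≠ j → IsGraphArc (D.curve i j) (D.pt i) (D.pt j)

end SimpleDraw
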