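import Mathlib
import Pool.Agent.SimpleDraw.Defs

/-! # Two graphs touching at a point do not cross properly there -/

open Set Filter Topology

namespace SimpleDraw

/-- In coordinates: if `u < v` on both sides of `t0` and `u t0 = v t0`, there is no local
homeomorphism straightening the two graphs into crossing axes. -/
theorem no_touch (H : OpenPartialHomeomorph (ℝ × ℝ) ℂ) {t0 s0 δ : ℝ} (hδ : 0 < δ)
    (h0 : (t0, s0) ∈ H.source) (hH0 : H (t0, s0) = 0) {u v : ℝ → ℝ}
    (hu : ContinuousOn u (Icc (t0 - δ) (t0 + δ))) (hv : ContinuousOn v (Icc (t0 - δ) (t0 + δ)))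
    (hu0 : u t0 = s0) (hv0 : v t0 = s0)
    (huv : ∀ t, t ≠ t0 → |t - t0| ≤ δ → u t < v t)
    (hE : ∀ t s, |t - t0| ≤ δ → (t, s) ∈ H.source → (s = u t ↔ (H (t, s)).im = 0))
    (hF : ∀ t s, |t - t0| ≤ δ → (t, s) ∈ H.source → (s = v t ↔ (H (t, s)).re = 0)) : False := by
  -- a box inside the source
  obtain ⟨ε, hε, hbox⟩ : ∃ ε > 0, Metric.ball (t0, s0) ε ⊆ H.source :=
    Metric.isOpen_iff.1 H.open_source _ h0
  have hmem : Icc (t0 - δ) (t0 + δ) ∈ 𝓝 t0 := Icc_mem_nhds (by linarith) (by linarith)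
  have huc : ContinuousAt u t0 := hu.continuousAt hmem
  have hvc : ContinuousAt v t0 := hv.continuousAt hmem
  -- a smaller width
  have hev : ∀ᶠ t in 𝓝 t0, |t - t0| < δ ∧ |t - t0| < ε ∧ s0 - ε / 2 < u t ∧ s0 - ε / 2 < v t ∧
      v t < s0 + ε := by
    have e1 : ∀ᶠ t in 𝓝 t0, |t - t0| < min δ ε := by
      have : Metric.ball t0 (min δ ε) ∈ 𝓝 t0 := Metric.ball_mem_nhds _ (lt_min hδ hε)
      filter_upwards [this] with t ht
      rwa [Metric.mem_ball, Real.dist_eq] at ht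
    have e2 : ∀ᶠ t in 𝓝 t0, s0 - ε / 2 < u t :=
      huc.eventually (by rw [hu0]; exact Ioi_mem_nhds (by linarith))
    have e3 : ∀ᶠ t in 𝓝 t0, s0 - ε / 2 < v t :=
      hvc.eventually (by rw [hv0]; exact Ioi_mem_nhds (by linarith))
    have e4 : ∀ᶠ t in 𝓝 t0, v t < s0 + ε :=
      hvc.eventually (by
        rw [hv0]
        exact (Iio_mem_nhds (show s0 < s0 + ε by linarith) : Iio (s0 + ε) ∈ 𝓝 s0))
    filter_upwards [e1, e2, e3, e4] with t h1 h2 h3 h4
    exact ⟨h1.trans_le (min_le_left _ _), h1.trans_le (min_le_right _ _), h2, h3, h4⟩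
  obtain ⟨η, hη, hηp⟩ := Metric.eventually_nhds_iff.1 hev
  have hη' : ∀ t, |t - t0| < η → |t - t0| < δ ∧ |t - t0| < ε ∧ s0 - ε / 2 < u t ∧
      s0 - ε / 2 < v t ∧ v t < s0 + ε := fun t ht => hηp (by rwa [Real.dist_eq])
  -- the region below the graph of `v`
  set R : Set (ℝ × ℝ) := {z | |z.1 - t0| < η ∧ s0 - ε < z.2 ∧ z.2 < v z.1} with hR
  have hRs : R ⊆ H.source := by
    rintro ⟨t, s⟩ ⟨h1, h2, h3⟩
    simp only at h1 h2 h3
    apply hbox
    rw [Metric.mem_ball, Prod.dist_eq, max_lt_iff, Real.dist_eq, Real.dist_eq]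
    have := hη' t h1
    refine ⟨this.2.1, ?_⟩
    rw [abs_lt]
    constructor <;> linarith
  have hRpre : IsPreconnected R := by
    refine isPreconnected_of_forall (t0, s0 - 3 * ε / 4) ?_
    rintro ⟨t, s⟩ ⟨h1, h2, h3⟩
    simp only at h1 h2 h3
    set A : Set (ℝ × ℝ) := Ioo (t0 - η) (t0 + η) ×ˢ {s0 - 3 * ε / 4} with hA
    set B : Set (ℝ × ℝ) := {t} ×ˢ uIcc (s0 - 3 * ε / 4) s with hB
    have hAR : A ⊆ R := by
      rintro ⟨t', s'⟩ ⟨h4, h5⟩
      simp only [mem_singleton_iff] at h4 h5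
      have h6 : |t' - t0| < η := by rw [abs_lt]; constructor <;> linarith [h4.1, h4.2]
      refine ⟨h6, ?_, ?_⟩
      · simp only [h5]; linarith
      · simp only [h5]; linarith [(hη' t' h6).2.2.2.1]
    have hBR : B ⊆ R := by
      rintro ⟨t', s'⟩ ⟨h4, h5⟩
      simp only [mem_singleton_iff] at h4 h5
      subst h4
      rw [mem_uIcc] at h5
      have h6 := hη' t' h1
      refine ⟨h1, ?_, ?_⟩
      · simp only; rcases h5 with h5 | h5 <;> linarith [h5.1, h5.2]
      · simp only; rcases h5 with h5 | h5 <;> linarith [h5.1, h5.2]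
    have h7 : |t - t0| < η := h1
    rw [abs_lt] at h7
    refine ⟨A ∪ B, union_subset hAR hBR, Or.inl ⟨⟨by linarith, by linarith⟩, rfl⟩,
      Or.inr ⟨rfl, right_mem_uIcc⟩, ?_⟩
    refine IsPreconnected.union (t, s0 - 3 * ε / 4) ⟨⟨by linarith, by linarith⟩, rfl⟩
      ⟨rfl, left_mem_uIcc⟩ ?_ ?_
    · exact isPreconnected_Ioo.prod isPreconnected_singleton
    · exact isPreconnected_singleton.prod isPreconnected_uIcc
  have hRre : ∀ z ∈ R, (H z).re ≠ 0 := by
    rintro ⟨t, s⟩ hz hre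
    have h4 := (hη' t hz.1).1.le
    have := (hF t s h4 (hRs hz)).2 hre
    have h5 := hz.2.2
    simp only at h5
    linarith
  have hcont : ContinuousOn (fun z => (H z).re) R :=
    Complex.continuous_re.comp_continuousOn (H.continuousOn.mono hRs)
  have himg : IsPreconnected ((fun z => (H z).re) '' R) := hRpre.image _ hcont
  -- the sign is constant
  have hsign : (∀ z ∈ R, 0 < (H z).re) ∨ (∀ z ∈ R, (H z).re < 0) := by
    by_contra hcon
    push Not at hcon
    obtain ⟨⟨z1, hz1, h1⟩, z2, hz2, h2⟩ := hcon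
    have := himg.Icc_subset (mem_image_of_mem _ hz1) (mem_image_of_mem _ hz2) ⟨h1, h2⟩
    obtain ⟨z, hz, hz0⟩ := this
    exact hRre z hz hz0
  -- small real numbers of either sign
  have h0t : (0 : ℂ) ∈ H.target := by rw [← hH0]; exact H.map_source h0
  have hsymm0 : H.symm 0 = (t0, s0) := by rw [← hH0, H.left_inv h0]
  have hsc : ContinuousAt H.symm 0 := H.symm.continuousAt (by simpa using h0t)
  have hreal : Tendsto (fun x : ℝ => (x : ℂ)) (𝓝 0) (𝓝 0) := by
    have := Complex.continuous_ofReal.tendsto 0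
    simpa using this
  have hev2 : ∀ᶠ x : ℝ in 𝓝 0, (x : ℂ) ∈ H.target ∧ |(H.symm (x : ℂ)).1 - t0| < η := by
    have e1 : ∀ᶠ x : ℝ in 𝓝 0, (x : ℂ) ∈ H.target :=
      hreal.eventually (H.open_target.mem_nhds h0t)
    have e2 : Tendsto (fun x : ℝ => (H.symm (x : ℂ)).1) (𝓝 0) (𝓝 t0) := by
      have h1 : Tendsto (fun x : ℝ => H.symm (x : ℂ)) (𝓝 0) (𝓝 (t0, s0)) := by
        have := hsc.tendsto
        rw [hsymm0] at this
        exact this.comp hreal
      exact (continuous_fst.tendsto (t0, s0)).comp h1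
    have e3 : ∀ᶠ x : ℝ in 𝓝 0, |(H.symm (x : ℂ)).1 - t0| < η := by
      have := e2.eventually (Metric.ball_mem_nhds t0 hη)
      filter_upwards [this] with x hx
      rwa [Real.dist_eq] at hx
    exact e1.and e3
  obtain ⟨μ, hμ, hμp⟩ := Metric.eventually_nhds_iff.1 hev2
  have hfin : ∀ x : ℝ, x ≠ 0 → |x| < μ → ∃ z ∈ R, (H z).re = x := by
    intro x hx0 hxμ
    obtain ⟨h1, h2⟩ := hμp (show dist x 0 < μ by rwa [Real.dist_eq, sub_zero])
    set z := H.symm (x : ℂ) with hz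
    have hzs : z ∈ H.source := H.map_target h1
    have hHz : H z = (x : ℂ) := H.right_inv h1
    have h3 := hη' z.1 h2
    have h4 : z.2 = u z.1 := by
      have := (hE z.1 z.2 h3.1.le hzs).2
      apply this
      change (H z).im = 0
      rw [hHz]; simp
    have h5 : z.1 ≠ t0 := by
      intro h5
      have h6 : z = (t0, s0) := by
        ext
        · exact h5
        · rw [h4, h5, hu0]
      rw [h6, hH0] at hHz
      exact hx0 (by exact_mod_cast hHz.symm)
    refine ⟨z, ⟨h2, ?_, ?_⟩, by rw [hHz]; simp⟩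
    · rw [h4]; linarith [h3.2.2.1]
    · rw [h4]; exact huv _ h5 h3.1.le
  rcases hsign with h | h
  · obtain ⟨z, hz, hze⟩ := hfin (-(μ / 2)) (by linarith) (by rw [abs_neg, abs_of_pos (by linarith)]; linarith)
    have := h z hz
    linarith
  · obtain ⟨z, hz, hze⟩ := hfin (μ / 2) (by linarith) (by rw [abs_of_pos (by linarith)]; linarith)
    have := h z hz
    linarith

end SimpleDraw
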