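import Mathlib
import Pool.Agent.SimpleDraw.Signs
import Pool.Agent.SimpleDraw.Touch

/-! # Monotone windows of a simple drawing -/

open Set Filter Topology

namespace SimpleDraw

/-- `m` vertices whose edges are, in the coordinates `κ`, graphs over intervals -/
structure Win {n : ℕ} (D : SimpleDrawing n) (m : ℕ) where
  w : ℕ → Fin n
  φ : ℕ → ℝ
  y : ℕ → ℝ
  f : ℕ → ℕ → ℝ → ℝ
  κ : OpenPartialHomeomorph (ℝ × ℝ) ℂ
  mono : ∀ i j, i < j → j < m → φ i < φ j
  src : ∀ t s, φ 0 ≤ t → t ≤ φ (m - 1) → (t, s) ∈ κ.source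
  winj : ∀ i j, i < m → j < m → w i = w j → i = j
  pt_eq : ∀ i < m, κ (φ i, y i) = D.pt (w i)
  cont : ∀ i j, i < j → j < m → ContinuousOn (f i j) (Icc (φ i) (φ j))
  left : ∀ i j, i < j → j < m → f i j (φ i) = y i
  right : ∀ i j, i < j → j < m → f i j (φ j) = y j
  curve : ∀ i j, i < j → j < m →
    D.curve (w i) (w j) = (fun t => κ (t, f i j t)) '' Icc (φ i) (φ j)

variable {n : ℕ} {D : SimpleDrawing n} {m : ℕ} (W : Win D m)

namespace Win

theorem mono' {i j : ℕ} (h : i ≤ j) (hj : j < m) : W.φ i ≤ W.φ j := by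
  rcases h.eq_or_lt with rfl | h
  · exact le_rfl
  · exact (W.mono i j h hj).le

theorem lt_of_φ {i j : ℕ} (hi : i < m) (_hj : j < m) (h : W.φ i < W.φ j) : i < j := by
  by_contra hn
  push Not at hn
  exact absurd h (not_lt.2 (W.mono' hn hi))

theorem src' {i j : ℕ} (hi : i < m) (hj : j < m) {t s : ℝ} (ht : t ∈ Icc (W.φ i) (W.φ j)) :
    (t, s) ∈ W.κ.source :=
  W.src t s ((W.mono' (Nat.zero_le i) hi).trans ht.1)
    (ht.2.trans (W.mono' (by omega) (by omega)))

theorem mem_curve {i j : ℕ} (hij : i < j) (hj : j < m) {t s : ℝ} (h : (t, s) ∈ W.κ.source) :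
    W.κ (t, s) ∈ D.curve (W.w i) (W.w j) ↔ t ∈ Icc (W.φ i) (W.φ j) ∧ s = W.f i j t := by
  rw [W.curve i j hij hj]
  constructor
  · rintro ⟨t', ht', he⟩
    have := W.κ.injOn (W.src' (hij.trans hj) hj ht') h he
    simp only [Prod.mk.injEq] at this
    obtain ⟨rfl, rfl⟩ := this
    exact ⟨ht', rfl⟩
  · rintro ⟨ht, rfl⟩
    exact ⟨t, ht, rfl⟩

theorem ne_w {i j : ℕ} (hij : i < j) (hj : j < m) : W.w i ≠ W.w j := fun h =>
  hij.ne (W.winj i j (hij.trans hj) hj h)

theorem sym2_ne {i j k l : ℕ} (hij : i < j) (hj : j < m) (hkl : k < l) (hl : l < m)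
    (h : ¬ (i = k ∧ j = l)) : s(W.w i, W.w j) ≠ s(W.w k, W.w l) := by
  intro he
  rw [Sym2.eq_iff] at he
  rcases he with ⟨h1, h2⟩ | ⟨h1, h2⟩
  · exact h ⟨W.winj _ _ (hij.trans hj) (hkl.trans hl) h1, W.winj _ _ hj hl h2⟩
  · have h3 := W.winj _ _ (hij.trans hj) hl h1
    have h4 := W.winj _ _ hj (hkl.trans hl) h2
    omega

/-- a vertex is not on an edge passing over its abscissa -/
theorem vertex_ne {i k j : ℕ} (hik : i < k) (hkj : k < j) (hj : j < m) :
    W.f i j (W.φ k) ≠ W.y k := by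
  intro h
  have hk : k < m := hkj.trans hj
  have h1 : D.pt (W.w k) ∈ D.curve (W.w i) (W.w j) := by
    rw [← W.pt_eq k hk, ← h]
    have ht : W.φ k ∈ Icc (W.φ i) (W.φ j) := ⟨(W.mono i k hik hk).le, (W.mono k j hkj hj).le⟩
    exact (W.mem_curve (hik.trans hkj) hj (W.src' (hik.trans hk) hj ht)).2 ⟨ht, rfl⟩
  exact D.vertex _ _ _ (W.ne_w (hik.trans hkj) hj) (W.ne_w hik hk).symm (W.ne_w hkj hj) h1

/-- two different edges agree at most once -/
theorem agree_unique {i j k l : ℕ} (hij : i < j) (hj : j < m) (hkl : k < l) (hl : l < m)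
    (h : ¬ (i = k ∧ j = l)) {t t' : ℝ} (ht : t ∈ Icc (W.φ i) (W.φ j))
    (ht2 : t ∈ Icc (W.φ k) (W.φ l)) (ht' : t' ∈ Icc (W.φ i) (W.φ j))
    (ht2' : t' ∈ Icc (W.φ k) (W.φ l)) (he : W.f i j t = W.f k l t)
    (he' : W.f i j t' = W.f k l t') : t = t' := by
  have hs := D.inter _ _ _ _ (W.ne_w hij hj) (W.ne_w hkl hl) (W.sym2_ne hij hj hkl hl h)
  have m1 : W.κ (t, W.f i j t) ∈ D.curve (W.w i) (W.w j) ∩ D.curve (W.w k) (W.w l) :=
    ⟨(W.mem_curve hij hj (W.src' (hij.trans hj) hj ht)).2 ⟨ht, rfl⟩,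
      (W.mem_curve hkl hl (W.src' (hij.trans hj) hj ht)).2 ⟨ht2, he⟩⟩
  have m2 : W.κ (t', W.f i j t') ∈ D.curve (W.w i) (W.w j) ∩ D.curve (W.w k) (W.w l) :=
    ⟨(W.mem_curve hij hj (W.src' (hij.trans hj) hj ht')).2 ⟨ht', rfl⟩,
      (W.mem_curve hkl hl (W.src' (hij.trans hj) hj ht')).2 ⟨ht2', he'⟩⟩
  have := W.κ.injOn (W.src' (hij.trans hj) hj ht) (W.src' (hij.trans hj) hj ht') (hs m1 m2)
  simp only [Prod.mk.injEq] at this
  exact this.1

/-- intermediate value theorem: no agreement on `[p,q]` means a constant sign -/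
theorem const_sign {g h : ℝ → ℝ} {p q : ℝ} (hpq : p ≤ q) (hg : ContinuousOn g (Icc p q))
    (hh : ContinuousOn h (Icc p q)) (hne : ∀ t ∈ Icc p q, g t ≠ h t) :
    g p < h p ↔ g q < h q := by
  have hp : p ∈ Icc p q := left_mem_Icc.2 hpq
  have hq : q ∈ Icc p q := right_mem_Icc.2 hpq
  constructor
  · intro h1
    by_contra h2
    push Not at h2
    obtain ⟨t, ht, he⟩ := isPreconnected_Icc.intermediate_value₂ hp hq hg hh h1.le h2
    exact hne t ht he
  · intro h1
    by_contra h2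
    push Not at h2
    obtain ⟨t, ht, he⟩ := isPreconnected_Icc.intermediate_value₂ hq hp hg hh h1.le h2
    exact hne t ht he

/-- two disjoint edges in the same vertical order at `p` and at `q` do not meet in between -/
theorem sep {i j k l : ℕ} (hij : i < j) (hj : j < m) (hkl : k < l) (hl : l < m)
    (hik : i ≠ k) (hil : i ≠ l) (hjk : j ≠ k) (hjl : j ≠ l) {p q : ℝ}
    (hp1 : W.φ i ≤ p) (hp2 : W.φ k ≤ p) (hq1 : q ≤ W.φ j) (hq2 : q ≤ W.φ l)
    (hP : W.f i j p < W.f k l p) (hQ : W.f i j q < W.f k l q) :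
    ∀ t ∈ Icc p q, W.f i j t < W.f k l t := by
  have hi : i < m := hij.trans hj
  have hk : k < m := hkl.trans hl
  have hg : ContinuousOn (W.f i j) (Icc p q) := (W.cont i j hij hj).mono (Icc_subset_Icc hp1 hq1)
  have hh : ContinuousOn (W.f k l) (Icc p q) := (W.cont k l hkl hl).mono (Icc_subset_Icc hp2 hq2)
  intro t ht
  by_contra hcon
  push Not at hcon
  have htp : p < t := lt_of_le_of_ne ht.1 (by rintro rfl; linarith)
  have htq : t < q := lt_of_le_of_ne ht.2 (by rintro rfl; linarith)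
  have hr1 : ∀ x ∈ Icc p q, x ∈ Icc (W.φ i) (W.φ j) := fun x hx => ⟨hp1.trans hx.1, hx.2.trans hq1⟩
  have hr2 : ∀ x ∈ Icc p q, x ∈ Icc (W.φ k) (W.φ l) := fun x hx => ⟨hp2.trans hx.1, hx.2.trans hq2⟩
  have huniq : ∀ x ∈ Icc p q, ∀ x' ∈ Icc p q, W.f i j x = W.f k l x → W.f i j x' = W.f k l x' →
      x = x' := fun x hx x' hx' h1 h2 =>
    W.agree_unique hij hj hkl hl (by omega) (hr1 x hx) (hr2 x hx) (hr1 x' hx') (hr2 x' hx') h1 h2
  rcases hcon.eq_or_lt with heq | hlt
  · -- touching at `t`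
    have hbelow : ∀ x ∈ Icc p q, x ≠ t → W.f i j x < W.f k l x := by
      intro x hx hxt
      rcases lt_or_gt_of_ne hxt with h1 | h1
      · refine (const_sign hx.1 (hg.mono (Icc_subset_Icc le_rfl hx.2))
          (hh.mono (Icc_subset_Icc le_rfl hx.2)) ?_).1 hP
        intro z hz he
        have hz' : z ∈ Icc p q := ⟨hz.1, hz.2.trans hx.2⟩
        have := huniq z hz' t ht he heq.symm
        linarith [hz.2]
      · refine (const_sign hx.2 (hg.mono (Icc_subset_Icc hx.1 le_rfl))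
          (hh.mono (Icc_subset_Icc hx.1 le_rfl)) ?_).2 hQ
        intro z hz he
        have hz' : z ∈ Icc p q := ⟨hx.1.trans hz.1, hz.2⟩
        have := huniq z hz' t ht he heq.symm
        linarith [hz.1]
    have hsrc : (t, W.f i j t) ∈ W.κ.source := W.src' hi hj (hr1 t ht)
    have hmem : W.κ (t, W.f i j t) ∈ D.curve (W.w i) (W.w j) ∩ D.curve (W.w k) (W.w l) :=
      ⟨(W.mem_curve hij hj hsrc).2 ⟨hr1 t ht, rfl⟩, (W.mem_curve hkl hl hsrc).2 ⟨hr2 t ht, heq.symm⟩⟩
    rcases D.proper _ _ _ _ (W.ne_w hij hj) (W.ne_w hkl hl) (W.sym2_ne hij hj hkl hl (by omega)) _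
      hmem with ⟨v, hv1, hv2, -⟩ | ⟨h, hph, hh0, hhe, hhf⟩
    · rcases hv1 with rfl | rfl <;> rcases hv2 with h2 | h2
      · exact hik (W.winj _ _ hi hk h2)
      · exact hil (W.winj _ _ hi hl h2)
      · exact hjk (W.winj _ _ hj hk h2)
      · exact hjl (W.winj _ _ hj hl h2)
    · set δ := min (t - p) (q - t) with hδ
      have hδ0 : 0 < δ := lt_min (by linarith) (by linarith)
      have hsub : ∀ x, |x - t| ≤ δ → x ∈ Icc p q := by
        intro x hx
        rw [abs_le] at hx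
        have h1 : δ ≤ t - p := min_le_left _ _
        have h2 : δ ≤ q - t := min_le_right _ _
        constructor <;> linarith [hx.1, hx.2]
      have hsub' : Icc (t - δ) (t + δ) ⊆ Icc p q := by
        intro x hx
        apply hsub
        rw [abs_le]; constructor <;> linarith [hx.1, hx.2]
      refine no_touch (W.κ.trans h) (t0 := t) (s0 := W.f i j t) hδ0 ?_ ?_
        (hg.mono hsub') (hh.mono hsub') rfl heq ?_ ?_ ?_
      · rw [OpenPartialHomeomorph.trans_source]
        exact ⟨hsrc, hph⟩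
      · rw [OpenPartialHomeomorph.coe_trans, Function.comp_apply]; exact hh0
      · intro x hxt hxδ
        exact hbelow x (hsub x hxδ) hxt
      · intro x s hx hxs
        rw [OpenPartialHomeomorph.trans_source] at hxs
        rw [OpenPartialHomeomorph.coe_trans, Function.comp_apply, ← hhe _ hxs.2,
          W.mem_curve hij hj hxs.1]
        exact ⟨fun h1 => ⟨hr1 x (hsub x hx), h1⟩, fun h1 => h1.2⟩
      · intro x s hx hxs
        rw [OpenPartialHomeomorph.trans_source] at hxs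
        rw [OpenPartialHomeomorph.coe_trans, Function.comp_apply, ← hhf _ hxs.2,
          W.mem_curve hkl hl hxs.1]
        exact ⟨fun h1 => ⟨hr2 x (hsub x hx), h1⟩, fun h1 => h1.2⟩
  · -- two crossings
    obtain ⟨t1, ht1, he1⟩ := isPreconnected_Icc.intermediate_value₂ (left_mem_Icc.2 htp.le)
      (right_mem_Icc.2 htp.le) (hg.mono (Icc_subset_Icc le_rfl ht.2))
      (hh.mono (Icc_subset_Icc le_rfl ht.2)) hP.le hlt.le
    obtain ⟨t2, ht2, he2⟩ := isPreconnected_Icc.intermediate_value₂ (right_mem_Icc.2 htq.le)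
      (left_mem_Icc.2 htq.le) (hg.mono (Icc_subset_Icc ht.1 le_rfl))
      (hh.mono (Icc_subset_Icc ht.1 le_rfl)) hQ.le hlt.le
    have h3 := huniq t1 ⟨ht1.1, ht1.2.trans ht.2⟩ t2 ⟨ht.1.trans ht2.1, ht2.2⟩ he1 he2
    have h4 : t1 = t := le_antisymm ht1.2 (by rw [h3]; exact ht2.1)
    rw [h4] at he1
    linarith

/-- vertex `k` is above the edge `ij` -/
def S (i k j : ℕ) : Prop := W.f i j (W.φ k) < W.y k

theorem not_S_iff {i k j : ℕ} (hik : i < k) (hkj : k < j) (hj : j < m) :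
    ¬ W.S i k j ↔ W.y k < W.f i j (W.φ k) := by
  unfold S
  rw [not_lt]
  exact ⟨fun h => lt_of_le_of_ne h (W.vertex_ne hik hkj hj).symm, fun h => h.le⟩

/-- edges with a common left end: constant order to the right of it -/
theorem left_sign {i j l : ℕ} (hij : i < j) (hil : i < l) (hjl : j ≠ l) (hj : j < m) (hl : l < m)
    {p q : ℝ} (hp : W.φ i < p) (hpq : p ≤ q) (hq1 : q ≤ W.φ j) (hq2 : q ≤ W.φ l) :
    W.f i j p < W.f i l p ↔ W.f i j q < W.f i l q := by
  refine const_sign hpq ((W.cont i j hij hj).mono (Icc_subset_Icc hp.le hq1))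
    ((W.cont i l hil hl).mono (Icc_subset_Icc hp.le hq2)) ?_
  intro t ht he
  have h1 := W.agree_unique hij hj hil hl (by omega) (t := t) (t' := W.φ i)
    ⟨hp.le.trans ht.1, ht.2.trans hq1⟩ ⟨hp.le.trans ht.1, ht.2.trans hq2⟩
    (left_mem_Icc.2 (W.mono i j hij hj).le) (left_mem_Icc.2 (W.mono i l hil hl).le) he
    (by rw [W.left i j hij hj, W.left i l hil hl])
  linarith [ht.1]

/-- edges with a common right end: constant order to the left of it -/
theorem right_sign {i j l : ℕ} (hil : i < l) (hjl : j < l) (hij : i ≠ j) (hl : l < m)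
    {p q : ℝ} (hq : q < W.φ l) (hpq : p ≤ q) (hp1 : W.φ i ≤ p) (hp2 : W.φ j ≤ p) :
    W.f i l p < W.f j l p ↔ W.f i l q < W.f j l q := by
  refine const_sign hpq ((W.cont i l hil hl).mono (Icc_subset_Icc hp1 hq.le))
    ((W.cont j l hjl hl).mono (Icc_subset_Icc hp2 hq.le)) ?_
  intro t ht he
  have h1 := W.agree_unique hil hl hjl hl (by omega) (t := t) (t' := W.φ l)
    ⟨hp1.trans ht.1, ht.2.trans hq.le⟩ ⟨hp2.trans ht.1, ht.2.trans hq.le⟩
    (right_mem_Icc.2 (W.mono i l hil hl).le) (right_mem_Icc.2 (W.mono j l hjl hl).le) he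
    (by rw [W.right i l hil hl, W.right j l hjl hl])
  linarith [ht.2]

theorem signAx : SignAx W.S (fun k => k < m) where
  a1 := by
    intro i j k l hi hj hk hl hij hjk hkl h1 h2
    have hik := hij.trans hjk
    have hil := hik.trans hkl
    have h3 : W.f i l (W.φ k) < W.f i k (W.φ k) := by rw [W.right i k hik hk]; exact h1
    have h4 := (W.left_sign hil hik hkl.ne' hl hk (W.mono i j hij hj) (W.mono j k hjk hk).le
      (W.mono k l hkl hl).le le_rfl).2 h3
    exact h4.trans h2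
  a2 := by
    intro i j k l hi hj hk hl hij hjk hkl h1 h2
    have hik := hij.trans hjk
    have hil := hik.trans hkl
    rw [W.not_S_iff hik hkl hl] at h1
    rw [W.not_S_iff hij hjk hk] at h2
    rw [W.not_S_iff hij (hjk.trans hkl) hl]
    have h3 : W.f i k (W.φ k) < W.f i l (W.φ k) := by rw [W.right i k hik hk]; exact h1
    have h4 := (W.left_sign hik hil hkl.ne hk hl (W.mono i j hij hj) (W.mono j k hjk hk).le
      le_rfl (W.mono k l hkl hl).le).2 h3
    exact h2.trans h4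
  a3 := by
    intro i j k l hi hj hk hl hij hjk hkl h1 h2
    have hjl := hjk.trans hkl
    have hil := hij.trans hjl
    rw [W.not_S_iff hjk hkl hl] at h2
    have h3 : W.f i l (W.φ k) < W.f j l (W.φ k) := h1.trans h2
    have h4 := (W.right_sign hil hjl hij.ne hl (W.mono k l hkl hl) (W.mono j k hjk hk).le
      (W.mono i j hij hj).le le_rfl).2 h3
    rw [W.left j l hjl hl] at h4
    exact h4
  a4 := by
    intro i j k l hi hj hk hl hij hjk hkl h1 h2
    have hjl := hjk.trans hkl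
    have hil := hij.trans hjl
    rw [W.not_S_iff (hij.trans hjk) hkl hl] at h1
    rw [W.not_S_iff hij hjl hl]
    have h3 : W.f j l (W.φ k) < W.f i l (W.φ k) := lt_trans h2 h1
    have h4 := (W.right_sign hjl hil hij.ne' hl (W.mono k l hkl hl) (W.mono j k hjk hk).le
      le_rfl (W.mono i j hij hj).le).2 h3
    rw [W.left j l hjl hl] at h4
    exact h4
  a5 := by
    intro r a k b l hr ha hk hb hl hra hak hkb hbl h1 h2 h3
    have hab := hak.trans hkb
    have hrl : r < l := by omega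
    have h4 : W.f r l (W.φ a) < W.f a b (W.φ a) := by rw [W.left a b hab hb]; exact h2
    have h5 : W.f r l (W.φ b) < W.f a b (W.φ b) := by rw [W.right a b hab hb]; exact h3
    have h6 := W.sep hrl hl hab hb (by omega) (by omega) (by omega) (by omega)
      (W.mono r a hra ha).le le_rfl (W.mono b l hbl hl).le le_rfl h4 h5 (W.φ k)
      ⟨(W.mono a k hak hk).le, (W.mono k b hkb hb).le⟩
    exact h6.trans h1
  a6 := by
    intro r a k b l hr ha hk hb hl hra hak hkb hbl h1 h2 h3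
    have hab := hak.trans hkb
    have hrl : r < l := by omega
    rw [W.not_S_iff hak hkb hb] at h1
    rw [W.not_S_iff hra (by omega) hl] at h2
    rw [W.not_S_iff (by omega) hbl hl] at h3
    rw [W.not_S_iff (by omega) (by omega) hl]
    have h4 : W.f a b (W.φ a) < W.f r l (W.φ a) := by rw [W.left a b hab hb]; exact h2
    have h5 : W.f a b (W.φ b) < W.f r l (W.φ b) := by rw [W.right a b hab hb]; exact h3
    have h6 := W.sep hab hb hrl hl (by omega) (by omega) (by omega) (by omega)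
      le_rfl (W.mono r a hra ha).le le_rfl (W.mono b l hbl hl).le h4 h5 (W.φ k)
      ⟨(W.mono a k hak hk).le, (W.mono k b hkb hb).le⟩
    exact h1.trans h6

end Win

end SimpleDraw
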