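import Mathlib
import Pool.Agent.SimpleDraw.Window

/-! # Families of upper and lower edges are plane -/

open Set Filter Topology

namespace SimpleDraw

variable {n : ℕ} {D : SimpleDrawing n} {m : ℕ} (W : Win D m)

/-- the two edges meet at most in a shared end-vertex -/
def Meet (D : SimpleDrawing n) (a b c d : Fin n) : Prop :=
  ∀ p ∈ D.curve a b ∩ D.curve c d, ∃ v, (v = a ∨ v = b) ∧ (v = c ∨ v = d) ∧ p = D.pt v

theorem Meet.symm {a b c d : Fin n} (h : Meet D a b c d) : Meet D c d a b := by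
  rintro p ⟨h1, h2⟩
  obtain ⟨v, h3, h4, h5⟩ := h p ⟨h2, h1⟩
  exact ⟨v, h4, h3, h5⟩

theorem Meet.swap_left {a b c d : Fin n} (h : Meet D a b c d) : Meet D b a c d := by
  rintro p ⟨h1, h2⟩
  rw [D.curve_symm b a] at h1
  obtain ⟨v, h3, h4, h5⟩ := h p ⟨h1, h2⟩
  exact ⟨v, h3.symm, h4, h5⟩

theorem Meet.swap_right {a b c d : Fin n} (h : Meet D a b c d) : Meet D a b d c :=
  h.symm.swap_left.symm

/-- edges of the complete graph with a common vertex -/
theorem meet_of_shared {a b c d v : Fin n} (hab : a ≠ b) (hcd : c ≠ d) (hne : s(a, b) ≠ s(c, d))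
    (h1 : v = a ∨ v = b) (h2 : v = c ∨ v = d) (hv1 : D.pt v ∈ D.curve a b)
    (hv2 : D.pt v ∈ D.curve c d) : Meet D a b c d := fun p hp =>
  ⟨v, h1, h2, D.inter a b c d hab hcd hne hp ⟨hv1, hv2⟩⟩

/-- the end-vertices lie on the edge -/
theorem pt_left_mem (D : SimpleDrawing n) {a b : Fin n} (hab : a ≠ b) : D.pt a ∈ D.curve a b := by
  obtain ⟨γ, -, -, h0, -, h2⟩ := D.arc a b hab
  rw [← h2, ← h0]
  exact ⟨0, by simp, rfl⟩

theorem pt_right_mem (D : SimpleDrawing n) {a b : Fin n} (hab : a ≠ b) :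
    D.pt b ∈ D.curve a b := by
  rw [D.curve_symm]; exact pt_left_mem D hab.symm

theorem meet_of_common {a b c d : Fin n} (hab : a ≠ b) (hcd : c ≠ d) (hne : s(a, b) ≠ s(c, d))
    (h : a = c ∨ a = d ∨ b = c ∨ b = d) : Meet D a b c d := by
  rcases h with rfl | rfl | rfl | rfl
  · exact meet_of_shared hab hcd hne (Or.inl rfl) (Or.inl rfl) (pt_left_mem D hab)
      (pt_left_mem D hcd)
  · exact meet_of_shared hab hcd hne (Or.inl rfl) (Or.inr rfl) (pt_left_mem D hab)
      (pt_right_mem D hcd)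
  · exact meet_of_shared hab hcd hne (Or.inr rfl) (Or.inl rfl) (pt_right_mem D hab)
      (pt_left_mem D hcd)
  · exact meet_of_shared hab hcd hne (Or.inr rfl) (Or.inr rfl) (pt_right_mem D hab)
      (pt_right_mem D hcd)

namespace Win

/-- if the graphs do not agree on the common range, the edges do not meet -/
theorem meet_of_ne {i j k l : ℕ} (hij : i < j) (hj : j < m) (hkl : k < l) (hl : l < m)
    (h : ∀ t, t ∈ Icc (W.φ i) (W.φ j) → t ∈ Icc (W.φ k) (W.φ l) → W.f i j t ≠ W.f k l t) :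
    Meet D (W.w i) (W.w j) (W.w k) (W.w l) := by
  rintro p ⟨h1, h2⟩
  exfalso
  rw [W.curve i j hij hj] at h1
  obtain ⟨t, ht, rfl⟩ := h1
  have h3 := (W.mem_curve hkl hl (W.src' (hij.trans hj) hj ht)).1 h2
  exact h t ht h3.1 h3.2

/-- typed edges on a list of vertices, not interleaved with the same type -/
theorem meet_of_typ {L : List ℕ} {i j k l : ℕ} (hi : i ∈ L) (hj : j ∈ L) (hk : k ∈ L) (hl : l ∈ L)
    (hij : i < j) (hjm : j < m) (hkl : k < l) (hlm : l < m) (hik : i < k)
    (hil : i ≠ l) (hjk : j ≠ k) (hjl : j ≠ l)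
    (h1 : Up W.S L i j ∨ Low W.S L i j) (h2 : Up W.S L k l ∨ Low W.S L k l)
    (hU : k < j → j < l → ¬ (Up W.S L i j ∧ Up W.S L k l))
    (hL : k < j → j < l → ¬ (Low W.S L i j ∧ Low W.S L k l)) :
    Meet D (W.w i) (W.w j) (W.w k) (W.w l) := by
  apply W.meet_of_ne hij hjm hkl hlm
  intro t ht1 ht2
  rcases lt_or_gt_of_ne hjk with hjk' | hkj
  · -- disjoint ranges
    intro _
    have := W.mono j k hjk' (hkl.trans hlm)
    linarith [ht1.2, ht2.1]
  have hkm : k < m := hkl.trans hlm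
  have hφik := W.mono i k hik hkm
  have hφkj := W.mono k j hkj hjm
  have hφkl := W.mono k l hkl hlm
  rcases lt_or_gt_of_ne hjl with hjl' | hlj
  · -- interleaved
    have hφjl := W.mono j l hjl' hlm
    have ht : t ∈ Icc (W.φ k) (W.φ j) := ⟨ht2.1, ht1.2⟩
    rcases h1 with h1 | h1
    · -- upper, lower
      rcases h2 with h2 | h2
      · exact absurd ⟨h1, h2⟩ (hU hkj hjl')
      have a1 := h1 k hk hik hkj
      rw [W.not_S_iff hik hkj hjm] at a1
      have a2 : W.S k j l := h2 j hj hkj hjl'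
      have := W.sep hkl hlm hij hjm (by omega) (by omega) (by omega) (by omega) (p := W.φ k)
        (q := W.φ j) le_rfl hφik.le hφjl.le le_rfl (by rw [W.left k l hkl hlm]; exact a1)
        (by rw [W.right i j hij hjm]; exact a2) t ht
      exact this.ne'
    · rcases h2 with h2 | h2
      swap
      · exact absurd ⟨h1, h2⟩ (hL hkj hjl')
      have a1 : W.S i k j := h1 k hk hik hkj
      have a2 := h2 j hj hkj hjl'
      rw [W.not_S_iff hkj hjl' hlm] at a2
      have := W.sep hij hjm hkl hlm (by omega) (by omega) (by omega) (by omega) (p := W.φ k)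
        (q := W.φ j) hφik.le le_rfl le_rfl hφjl.le (by rw [W.left k l hkl hlm]; exact a1)
        (by rw [W.right i j hij hjm]; exact a2) t ht
      exact this.ne
  · -- nested
    have hφlj := W.mono l j hlj hjm
    have hil' : i < l := hik.trans hkl
    rcases h1 with h1 | h1
    · have a1 := h1 k hk hik hkj
      have a2 := h1 l hl hil' hlj
      rw [W.not_S_iff hik hkj hjm] at a1
      rw [W.not_S_iff hil' hlj hjm] at a2
      have := W.sep hkl hlm hij hjm (by omega) (by omega) (by omega) (by omega) (p := W.φ k)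
        (q := W.φ l) le_rfl hφik.le le_rfl hφlj.le (by rw [W.left k l hkl hlm]; exact a1)
        (by rw [W.right k l hkl hlm]; exact a2) t ht2
      exact this.ne'
    · have a1 : W.S i k j := h1 k hk hik hkj
      have a2 : W.S i l j := h1 l hl hil' hlj
      have := W.sep hij hjm hkl hlm (by omega) (by omega) (by omega) (by omega) (p := W.φ k)
        (q := W.φ l) hφik.le le_rfl hφlj.le le_rfl (by rw [W.left k l hkl hlm]; exact a1)
        (by rw [W.right k l hkl hlm]; exact a2) t ht2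
      exact this.ne

theorem meet_of_fam {L : List ℕ} (hLm : ∀ x ∈ L, x < m) {F : Finset (ℕ × ℕ)}
    (hF : Fam W.S L F) {e f : ℕ × ℕ} (he : e ∈ F) (hf : f ∈ F) (hne : e ≠ f) :
    Meet D (W.w e.1) (W.w e.2) (W.w f.1) (W.w f.2) := by
  obtain ⟨e1, e2, e3⟩ := hF.mem e he
  obtain ⟨f1, f2, f3⟩ := hF.mem f hf
  have hme := hLm _ e2
  have hmf := hLm _ f2
  have hne' : ¬ (e.1 = f.1 ∧ e.2 = f.2) := fun h => hne (Prod.ext h.1 h.2)
  by_cases hsh : e.1 = f.1 ∨ e.1 = f.2 ∨ e.2 = f.1 ∨ e.2 = f.2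
  · refine meet_of_common (W.ne_w e3 hme) (W.ne_w f3 hmf) (W.sym2_ne e3 hme f3 hmf hne') ?_
    rcases hsh with h | h | h | h
    · left; rw [h]
    · right; left; rw [h]
    · right; right; left; rw [h]
    · right; right; right; rw [h]
  · push Not at hsh
    obtain ⟨h1, h2, h3, h4⟩ := hsh
    rcases lt_or_gt_of_ne h1 with h | h
    · exact W.meet_of_typ e1 e2 f1 f2 e3 hme f3 hmf h h2 h3 h4 (hF.typ e he) (hF.typ f hf)
        (fun ha hb => hF.up e he f hf h ha hb) (fun ha hb => hF.low e he f hf h ha hb)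
    · exact (W.meet_of_typ f1 f2 e1 e2 f3 hmf e3 hme h (Ne.symm h3) (Ne.symm h2) (Ne.symm h4)
        (hF.typ f hf) (hF.typ e he) (fun ha hb => hF.up f hf e he h ha hb)
        (fun ha hb => hF.low f hf e he h ha hb)).symm

end Win

end SimpleDraw
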