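import Mathlib
import Pool.Agent.SimpleDraw.Plane
import Pool.Agent.SimpleDraw.Ham

/-! # From an edge set to the plane Hamiltonian subdrawing -/

open Set

namespace SimpleDraw

theorem chain_zip {V : Type*} : ∀ C : List V,
    C.IsChain (fun a b => s(a, b) ∈ List.zipWith (fun a b => s(a, b)) C C.tail)
  | [] => by simp
  | [x] => by simp
  | x :: y :: l => by
      rw [List.isChain_cons_cons]
      refine ⟨by simp, ?_⟩
      refine (chain_zip (y :: l)).imp fun a b h => ?_
      simp only [List.tail_cons, List.zipWith_cons_cons]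
      exact List.mem_cons_of_mem _ h

theorem zip_mem {V : Type*} {E : Finset (Sym2 V)} : ∀ C : List V,
    C.IsChain (fun a b => s(a, b) ∈ E) →
      ∀ e ∈ List.zipWith (fun a b => s(a, b)) C C.tail, e ∈ E
  | [], _ => by simp
  | [x], _ => by simp
  | x :: y :: l, h => by
      rw [List.isChain_cons_cons] at h
      intro e he
      simp only [List.tail_cons, List.zipWith_cons_cons] at he
      rcases List.mem_cons.1 he with rfl | he
      · exact h.1
      · exact zip_mem (y :: l) h.2 e he

theorem conclude {n : ℕ} {D : SimpleDrawing n} (hn : 3 ≤ n) (E : Finset (Sym2 (Fin n)))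
    (hdiag : ∀ e ∈ E, ¬ e.IsDiag)
    (hmeet : ∀ a b c d, s(a, b) ∈ E → s(c, d) ∈ E → s(a, b) ≠ s(c, d) → Meet D a b c d)
    (hcard : 2 * n - 3 ≤ E.card) (C : List (Fin n)) (hnd : C.Nodup) (hall : ∀ v, v ∈ C)
    (hchain : C.IsChain (fun a b => s(a, b) ∈ E)) {a b : Fin n} (ha : C.head? = some a)
    (hb : C.getLast? = some b) (hclose : s(b, a) ∈ E) : D.HasPlaneHamiltonian := by
  classical
  have hlen : C.length = n := by
    have h1 : C.toFinset = Finset.univ := by
      rw [Finset.eq_univ_iff_forall]; intro v; rw [List.mem_toFinset]; exact hall v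
    rw [← List.toFinset_card_of_nodup hnd, h1, Finset.card_univ, Fintype.card_fin]
  set Z := List.zipWith (fun a b => s(a, b)) C C.tail with hZ
  set Ec : Finset (Sym2 (Fin n)) := insert s(b, a) Z.toFinset with hEc
  have hEcE : Ec ⊆ E := by
    intro e he
    rw [hEc, Finset.mem_insert, List.mem_toFinset] at he
    rcases he with rfl | he
    · exact hclose
    · exact zip_mem C hchain e he
  have hEcc : Ec.card ≤ 2 * n - 3 := by
    have h1 : Z.toFinset.card ≤ n - 1 := by
      refine (List.toFinset_card_le _).trans ?_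
      rw [hZ, List.length_zipWith, List.length_tail, hlen]
      exact min_le_right _ _
    have h2 : Ec.card ≤ Z.toFinset.card + 1 := Finset.card_insert_le _ _
    omega
  obtain ⟨F, hF1, hF2, hF3⟩ := Finset.exists_subsuperset_card_eq hEcE hEcc hcard
  set G : SimpleGraph (Fin n) := SimpleGraph.fromEdgeSet (F : Set (Sym2 (Fin n))) with hG
  have hadj : ∀ x y, G.Adj x y ↔ s(x, y) ∈ F := by
    intro x y
    rw [hG, SimpleGraph.fromEdgeSet_adj]
    constructor
    · rintro ⟨h, -⟩; exact h
    · intro h
      refine ⟨h, ?_⟩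
      rintro rfl
      exact hdiag _ (hF2 h) (by simp)
  refine ⟨G, ?_, ?_, ?_⟩
  · intro i j k l h1 h2 h3
    exact hmeet i j k l (hF2 ((hadj _ _).1 h1)) (hF2 ((hadj _ _).1 h2)) h3
  · have h1 : G.edgeSet = (F : Set (Sym2 (Fin n))) := by
      ext e
      induction e using Sym2.ind with
      | _ x y => rw [SimpleGraph.mem_edgeSet, hadj]; rfl
    rw [h1, Set.ncard_coe_finset, hF3]
  · refine ham_of_list C (by omega) hnd hall ?_ ha hb ?_
    · refine (chain_zip C).imp fun x y h => ?_
      rw [hadj]
      exact hF1 (by rw [hEc, Finset.mem_insert, List.mem_toFinset]; exact Or.inr h)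
    · rw [hadj]
      exact hF1 (by rw [hEc]; exact Finset.mem_insert_self _ _)

end SimpleDraw
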