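import Mathlib
import Pool.Agent.SimpleDraw.Conclude

/-! # One window containing all vertices -/

open Set

namespace SimpleDraw

variable {n : ℕ} {D : SimpleDrawing n}

namespace Win

/-- an edge on the upper vertices lies above the edge `0,(n-1)` -/
theorem above (W : Win D n) (hn : 3 ≤ n) {i j : ℕ} (hij : i < j) (hj : j < n)
    (hi' : i = 0 ∨ W.S 0 i (n - 1)) (hj' : j = n - 1 ∨ W.S 0 j (n - 1))
    (hne : ¬ (i = 0 ∧ j = n - 1)) {t : ℝ} (ht : t ∈ Icc (W.φ i) (W.φ j)) (h0 : t ≠ W.φ 0)
    (h1 : t ≠ W.φ (n - 1)) : W.f 0 (n - 1) t < W.f i j t := by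
  have hN : n - 1 < n := by omega
  have h0N : 0 < n - 1 := by omega
  have hφ0 : W.φ 0 ≤ W.φ i := W.mono' (Nat.zero_le i) (hij.trans hj)
  have hφN : W.φ j ≤ W.φ (n - 1) := W.mono' (by omega) hN
  have ht0 : W.φ 0 < t := lt_of_le_of_ne (hφ0.trans ht.1) h0.symm
  have htN : t < W.φ (n - 1) := lt_of_le_of_ne (ht.2.trans hφN) h1
  rcases Nat.eq_zero_or_pos i with rfl | hi
  · have hjN : j ≠ n - 1 := fun h => hne ⟨rfl, h⟩
    have hSj : W.S 0 j (n - 1) := hj'.resolve_left hjN
    have h2 : W.f 0 (n - 1) (W.φ j) < W.f 0 j (W.φ j) := by rw [W.right 0 j hij hj]; exact hSj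
    exact (W.left_sign h0N hij (Ne.symm hjN) hN hj ht0 ht.2 hφN le_rfl).2 h2
  · have hSi : W.S 0 i (n - 1) := hi'.resolve_left (by omega)
    have h2 : W.f 0 (n - 1) (W.φ i) < W.f i j (W.φ i) := by rw [W.left i j hij hj]; exact hSi
    by_cases hjN : j = n - 1
    · subst hjN
      exact (W.right_sign h0N hij (by omega) hj htN ht.1 hφ0 le_rfl).1 h2
    · have hSj : W.S 0 j (n - 1) := hj'.resolve_left hjN
      have h3 : W.f 0 (n - 1) (W.φ j) < W.f i j (W.φ j) := by rw [W.right i j hij hj]; exact hSj
      exact W.sep h0N hN hij hj (by omega) (by omega) (by omega) (by omega) hφ0 le_rfl hφN le_rfl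
        h2 h3 t ht

/-- an edge on the lower vertices lies below the edge `0,(n-1)` -/
theorem below (W : Win D n) (hn : 3 ≤ n) {i j : ℕ} (hij : i < j) (hj : j < n)
    (hi' : i = 0 ∨ ¬ W.S 0 i (n - 1)) (hj' : j = n - 1 ∨ ¬ W.S 0 j (n - 1))
    (hne : ¬ (i = 0 ∧ j = n - 1)) {t : ℝ} (ht : t ∈ Icc (W.φ i) (W.φ j)) (h0 : t ≠ W.φ 0)
    (h1 : t ≠ W.φ (n - 1)) : W.f i j t < W.f 0 (n - 1) t := by
  have hN : n - 1 < n := by omega
  have h0N : 0 < n - 1 := by omega
  have hφ0 : W.φ 0 ≤ W.φ i := W.mono' (Nat.zero_le i) (hij.trans hj)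
  have hφN : W.φ j ≤ W.φ (n - 1) := W.mono' (by omega) hN
  have ht0 : W.φ 0 < t := lt_of_le_of_ne (hφ0.trans ht.1) h0.symm
  have htN : t < W.φ (n - 1) := lt_of_le_of_ne (ht.2.trans hφN) h1
  rcases Nat.eq_zero_or_pos i with rfl | hi
  · have hjN : j ≠ n - 1 := fun h => hne ⟨rfl, h⟩
    have hSj := hj'.resolve_left hjN
    rw [W.not_S_iff hij (by omega) hN] at hSj
    have h2 : W.f 0 j (W.φ j) < W.f 0 (n - 1) (W.φ j) := by rw [W.right 0 j hij hj]; exact hSj
    exact (W.left_sign hij h0N hjN hj hN ht0 ht.2 le_rfl hφN).2 h2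
  · have hSi := hi'.resolve_left (by omega)
    rw [W.not_S_iff hi (by omega) hN] at hSi
    have h2 : W.f i j (W.φ i) < W.f 0 (n - 1) (W.φ i) := by rw [W.left i j hij hj]; exact hSi
    by_cases hjN : j = n - 1
    · subst hjN
      exact (W.right_sign hij h0N (by omega) hj htN ht.1 le_rfl hφ0).1 h2
    · have hSj := hj'.resolve_left hjN
      rw [W.not_S_iff (by omega) (by omega) hN] at hSj
      have h3 : W.f i j (W.φ j) < W.f 0 (n - 1) (W.φ j) := by rw [W.right i j hij hj]; exact hSj
      exact W.sep hij hj h0N hN (by omega) (by omega) (by omega) (by omega) le_rfl hφ0 le_rfl hφN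
        h2 h3 t ht

theorem meet_upper_lower (W : Win D n) (hn : 3 ≤ n) {i j k l : ℕ} (hij : i < j) (hj : j < n)
    (hkl : k < l) (hl : l < n)
    (hi' : i = 0 ∨ W.S 0 i (n - 1)) (hj' : j = n - 1 ∨ W.S 0 j (n - 1))
    (hk' : k = 0 ∨ ¬ W.S 0 k (n - 1)) (hl' : l = n - 1 ∨ ¬ W.S 0 l (n - 1))
    (hne : ¬ (i = k ∧ j = l)) : Meet D (W.w i) (W.w j) (W.w k) (W.w l) := by
  by_cases hsh : i = k ∨ i = l ∨ j = k ∨ j = l
  · refine meet_of_common (W.ne_w hij hj) (W.ne_w hkl hl) (W.sym2_ne hij hj hkl hl hne) ?_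
    rcases hsh with h | h | h | h
    · left; rw [h]
    · right; left; rw [h]
    · right; right; left; rw [h]
    · right; right; right; rw [h]
  push Not at hsh
  obtain ⟨h1, h2, h3, h4⟩ := hsh
  apply W.meet_of_ne hij hj hkl hl
  intro t ht1 ht2 he
  have hN : n - 1 < n := by omega
  -- `t` is not an extreme abscissa
  have hmono : ∀ a b, a < b → b < n → W.φ a < W.φ b := W.mono
  have h0 : t ≠ W.φ 0 := by
    rintro rfl
    have a1 : i = 0 := by
      by_contra h
      exact absurd (hmono 0 i (by omega) (hij.trans hj)) (not_lt.2 ht1.1)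
    have a2 : k = 0 := by
      by_contra h
      exact absurd (hmono 0 k (by omega) (hkl.trans hl)) (not_lt.2 ht2.1)
    exact h1 (a1.trans a2.symm)
  have hN' : t ≠ W.φ (n - 1) := by
    rintro rfl
    have a1 : j = n - 1 := by
      by_contra h
      exact absurd (hmono j (n - 1) (by omega) hN) (not_lt.2 ht1.2)
    have a2 : l = n - 1 := by
      by_contra h
      exact absurd (hmono l (n - 1) (by omega) hN) (not_lt.2 ht2.2)
    exact h4 (a1.trans a2.symm)
  by_cases ha : i = 0 ∧ j = n - 1
  · obtain ⟨rfl, rfl⟩ := ha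
    have := W.below hn hkl hl hk' hl' (fun h => h1 h.1.symm) ht2 h0 hN'
    rw [he] at this
    exact lt_irrefl _ this
  · have hab := W.above hn hij hj hi' hj' ha ht1 h0 hN'
    by_cases hb : k = 0 ∧ l = n - 1
    · obtain ⟨rfl, rfl⟩ := hb
      rw [he] at hab
      exact lt_irrefl _ hab
    · have := W.below hn hkl hl hk' hl' hb ht2 h0 hN'
      rw [he] at hab
      exact lt_irrefl _ (hab.trans this)

end Win

/-- a window containing all the vertices -/
theorem caseA (hn : 3 ≤ n) (W : Win D n) : D.HasPlaneHamiltonian := by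
  classical
  have hN : n - 1 < n := by omega
  set U : List ℕ := (List.range n).filter (fun k => k = 0 ∨ k = n - 1 ∨ W.S 0 k (n - 1)) with hU
  set L : List ℕ := (List.range n).filter (fun k => k = 0 ∨ k = n - 1 ∨ ¬ W.S 0 k (n - 1)) with hL
  have hmU : ∀ x, x ∈ U ↔ x < n ∧ (x = 0 ∨ x = n - 1 ∨ W.S 0 x (n - 1)) := by
    intro x; simp [hU]
  have hmL : ∀ x, x ∈ L ↔ x < n ∧ (x = 0 ∨ x = n - 1 ∨ ¬ W.S 0 x (n - 1)) := by
    intro x; simp [hL]
  have hsU : U.Pairwise (· < ·) := List.pairwise_lt_range.filter _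
  have hsL : L.Pairwise (· < ·) := List.pairwise_lt_range.filter _
  have hndU : U.Nodup := hsU.imp (fun h => h.ne)
  have hndL : L.Nodup := hsL.imp (fun h => h.ne)
  have h0U : 0 ∈ U := (hmU 0).2 ⟨by omega, Or.inl rfl⟩
  have hNU : n - 1 ∈ U := (hmU _).2 ⟨hN, Or.inr (Or.inl rfl)⟩
  have h0L : 0 ∈ L := (hmL 0).2 ⟨by omega, Or.inl rfl⟩
  have hNL : n - 1 ∈ L := (hmL _).2 ⟨hN, Or.inr (Or.inl rfl)⟩
  have hlen2 : ∀ T : List ℕ, 0 ∈ T → n - 1 ∈ T → 2 ≤ T.length := by
    intro T h1 h2
    have h3 : ({0, n - 1} : Finset ℕ) ⊆ T.toFinset := by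
      intro x hx
      simp only [Finset.mem_insert, Finset.mem_singleton] at hx
      rw [List.mem_toFinset]
      rcases hx with rfl | rfl <;> assumption
    have h4 := Finset.card_le_card h3
    rw [Finset.card_pair (by omega)] at h4
    exact h4.trans (List.toFinset_card_le _)
  obtain ⟨FU, hFU⟩ := exists_fam W.signAx U hsU (hlen2 U h0U hNU) (fun x hx => ((hmU x).1 hx).1)
  obtain ⟨FL, hFL⟩ := exists_fam W.signAx L hsL (hlen2 L h0L hNL) (fun x hx => ((hmL x).1 hx).1)
  have hUn : ∀ x ∈ U, x < n := fun x hx => ((hmU x).1 hx).1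
  have hLn : ∀ x ∈ L, x < n := fun x hx => ((hmL x).1 hx).1
  -- lengths
  have hlen : U.length + L.length = n + 2 := by
    rw [← List.toFinset_card_of_nodup hndU, ← List.toFinset_card_of_nodup hndL,
      ← Finset.card_union_add_card_inter]
    have h1 : U.toFinset ∪ L.toFinset = Finset.range n := by
      ext x
      simp only [Finset.mem_union, List.mem_toFinset, hmU, hmL, Finset.mem_range]
      constructor
      · rintro (h | h) <;> exact h.1
      · intro h
        by_cases hS : W.S 0 x (n - 1)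
        · exact Or.inl ⟨h, Or.inr (Or.inr hS)⟩
        · exact Or.inr ⟨h, Or.inr (Or.inr hS)⟩
    have h2 : U.toFinset ∩ L.toFinset = {0, n - 1} := by
      ext x
      simp only [Finset.mem_inter, List.mem_toFinset, hmU, hmL, Finset.mem_insert,
        Finset.mem_singleton]
      constructor
      · rintro ⟨⟨-, h1⟩, -, h2⟩
        rcases h1 with h | h | h
        · exact Or.inl h
        · exact Or.inr h
        · rcases h2 with h' | h' | h'
          · exact Or.inl h'
          · exact Or.inr h'
          · exact absurd h h'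
      · rintro (rfl | rfl)
        · exact ⟨⟨by omega, Or.inl rfl⟩, by omega, Or.inl rfl⟩
        · exact ⟨⟨hN, Or.inr (Or.inl rfl)⟩, hN, Or.inr (Or.inl rfl)⟩
    rw [h1, h2, Finset.card_range, Finset.card_pair (by omega)]
  set P := FU ∪ FL with hP
  have hPlt : ∀ e ∈ P, e.1 < e.2 ∧ e.2 < n := by
    intro e he
    rcases Finset.mem_union.1 he with he | he
    · obtain ⟨-, h2, h3⟩ := hFU.mem e he; exact ⟨h3, hUn _ h2⟩
    · obtain ⟨-, h2, h3⟩ := hFL.mem e he; exact ⟨h3, hLn _ h2⟩
  -- number of edges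
  have hPc : 2 * n - 3 ≤ P.card := by
    have h1 : (FU ∩ FL).card ≤ 1 := by
      have h2 : FU ∩ FL ⊆ {(0, n - 1)} := by
        intro e he
        rw [Finset.mem_inter] at he
        obtain ⟨a1, a2, a3⟩ := hFU.mem e he.1
        obtain ⟨b1, b2, -⟩ := hFL.mem e he.2
        rw [hmU] at a1 a2
        rw [hmL] at b1 b2
        rw [Finset.mem_singleton]
        have c1 : e.1 = 0 ∨ e.1 = n - 1 := by
          rcases a1.2 with h | h | h
          · exact Or.inl h
          · exact Or.inr h
          · rcases b1.2 with h' | h' | h'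
            · exact Or.inl h'
            · exact Or.inr h'
            · exact absurd h h'
        have c2 : e.2 = 0 ∨ e.2 = n - 1 := by
          rcases a2.2 with h | h | h
          · exact Or.inl h
          · exact Or.inr h
          · rcases b2.2 with h' | h' | h'
            · exact Or.inl h'
            · exact Or.inr h'
            · exact absurd h h'
        refine Prod.ext ?_ ?_
        · simp only; omega
        · simp only; omega
      exact (Finset.card_le_card h2).trans (by simp)
    have h3 := Finset.card_union_add_card_inter FU FL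
    rw [← hP] at h3
    have := hFU.card
    have := hFL.card
    omega
  set E : Finset (Sym2 (Fin n)) := P.image (fun e => s(W.w e.1, W.w e.2)) with hE
  have hEc : E.card = P.card := by
    rw [hE, Finset.card_image_of_injOn]
    intro e he f hf hef
    by_contra hne
    obtain ⟨e1, e2⟩ := hPlt e he
    obtain ⟨f1, f2⟩ := hPlt f hf
    exact W.sym2_ne e1 e2 f1 f2 (fun h => hne (Prod.ext h.1 h.2)) hef
  -- meeting property for pairs
  have hmeet : ∀ e ∈ P, ∀ f ∈ P, e ≠ f → Meet D (W.w e.1) (W.w e.2) (W.w f.1) (W.w f.2) := by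
    have hUL : ∀ e ∈ FU, ∀ f ∈ FL, e ≠ f → Meet D (W.w e.1) (W.w e.2) (W.w f.1) (W.w f.2) := by
      intro e he f hf hne
      obtain ⟨a1, a2, a3⟩ := hFU.mem e he
      obtain ⟨b1, b2, b3⟩ := hFL.mem f hf
      have a2n := hUn _ a2
      have b2n := hLn _ b2
      rw [hmU] at a1 a2
      rw [hmL] at b1 b2
      refine W.meet_upper_lower hn a3 a2n b3 b2n ?_ ?_ ?_ ?_ (fun h => hne (Prod.ext h.1 h.2))
      · rcases a1.2 with h | h | h
        · exact Or.inl h
        · omega
        · exact Or.inr h
      · rcases a2.2 with h | h | h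
        · omega
        · exact Or.inl h
        · exact Or.inr h
      · rcases b1.2 with h | h | h
        · exact Or.inl h
        · omega
        · exact Or.inr h
      · rcases b2.2 with h | h | h
        · omega
        · exact Or.inl h
        · exact Or.inr h
    intro e he f hf hne
    rcases Finset.mem_union.1 he with he | he <;> rcases Finset.mem_union.1 hf with hf | hf
    · exact W.meet_of_fam hUn hFU he hf hne
    · exact hUL e he f hf hne
    · exact (hUL f hf e he hne.symm).symm
    · exact W.meet_of_fam hLn hFL he hf hne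
  -- lists
  obtain ⟨A, hA⟩ : ∃ A, U = A ++ [n - 1] := by
    obtain ⟨b, hb⟩ : ∃ b, U.getLast? = some b := by
      rw [List.getLast?_eq_some_getLast (List.ne_nil_of_mem h0U)]; exact ⟨_, rfl⟩
    obtain ⟨A, hA⟩ := List.getLast?_eq_some_iff.1 hb
    have hbU : b ∈ U := List.mem_of_getLast? hb
    have : b = n - 1 := by
      have h1 := hUn b hbU
      by_contra hne
      have h2 : n - 1 ∈ A := by
        have := hNU
        rw [hA, List.mem_append, List.mem_singleton] at this
        exact this.resolve_right (fun h => hne h.symm)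
      rw [hA, List.pairwise_append] at hsU
      have := hsU.2.2 _ h2 b (by simp)
      omega
    exact ⟨A, by rw [hA, this]⟩
  obtain ⟨B, hB⟩ : ∃ B, L = 0 :: B := by
    match hLc : L with
    | [] => simp at h0L
    | x :: B =>
      have : x = 0 := by
        by_contra hne
        rcases List.mem_cons.1 h0L with h | h
        · exact hne h.symm
        · have := List.rel_of_pairwise_cons hsL h
          omega
      exact ⟨B, by rw [this]⟩
  have hAne : A ≠ [] := by
    rintro rfl
    rw [hA] at h0U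
    simp only [List.nil_append, List.mem_singleton] at h0U
    omega
  have hBne : B ≠ [] := by
    rintro rfl
    rw [hB] at hNL
    simp only [List.mem_singleton] at hNL
    omega
  obtain ⟨a0, hA0⟩ : ∃ a0, A.head? = some a0 := by
    rw [List.head?_eq_some_head hAne]; exact ⟨_, rfl⟩
  have ha0 : a0 = 0 := by
    obtain ⟨A', rfl⟩ : ∃ A', A = a0 :: A' := by
      cases A with
      | nil => exact absurd rfl hAne
      | cons y A' =>
        simp only [List.head?_cons, Option.some.injEq] at hA0; exact ⟨A', by rw [hA0]⟩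
    rw [hA, List.cons_append] at h0U hsU
    rcases List.mem_cons.1 h0U with h | h
    · exact h.symm
    · have := List.rel_of_pairwise_cons hsU h
      omega
  obtain ⟨bl, hBl⟩ : ∃ bl, B.getLast? = some bl := by
    rw [List.getLast?_eq_some_getLast hBne]; exact ⟨_, rfl⟩
  have hbl : bl = n - 1 := by
    obtain ⟨B', hB'⟩ := List.getLast?_eq_some_iff.1 hBl
    by_contra hne
    have hblL : bl ∈ L := by rw [hB, hB']; simp
    have h1 := hLn bl hblL
    have h2 : n - 1 ∈ (0 :: B') := by
      have := hNL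
      rw [hB, hB', ← List.cons_append, List.mem_append, List.mem_singleton] at this
      exact this.resolve_right (fun h => hne h.symm)
    rw [hB, hB', ← List.cons_append, List.pairwise_append] at hsL
    have := hsL.2.2 _ h2 bl (by simp)
    omega
  obtain ⟨b0, hB0⟩ : ∃ b0, B.head? = some b0 := by
    rw [List.head?_eq_some_head hBne]; exact ⟨_, rfl⟩
  set R : ℕ → ℕ → Prop := fun x y => s(W.w x, W.w y) ∈ E with hR
  have hRsymm : ∀ x y, R x y → R y x := by
    intro x y h
    simp only [hR] at h ⊢
    rwa [Sym2.eq_swap]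
  have hRU : U.IsChain R := hFU.chain.imp fun x y h =>
    Finset.mem_image.2 ⟨(x, y), Finset.mem_union_left _ h, rfl⟩
  have hRL : L.IsChain R := hFL.chain.imp fun x y h =>
    Finset.mem_image.2 ⟨(x, y), Finset.mem_union_right _ h, rfl⟩
  have hchain : (A ++ B.reverse).IsChain R := by
    rw [hA, List.isChain_append] at hRU
    rw [hB] at hRL
    rw [List.isChain_append]
    refine ⟨hRU.1, ?_, ?_⟩
    · rw [List.isChain_reverse]
      exact (hRL.tail).imp fun x y h => hRsymm _ _ h
    · intro x hx y hy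
      rw [List.head?_reverse, hBl] at hy
      simp only [Option.mem_def, Option.some.injEq] at hy
      subst hy
      rw [hbl]
      exact hRU.2.2 x hx (n - 1) (by simp)
  have hnodup : (A ++ B.reverse).Nodup := by
    rw [List.nodup_append]
    rw [hA, List.nodup_append] at hndU
    rw [hB, List.nodup_cons] at hndL
    refine ⟨hndU.1, List.nodup_reverse.2 hndL.2, ?_⟩
    intro x hx y hy hxy
    subst hxy
    rw [List.mem_reverse] at hy
    have h1 : x ∈ U := by rw [hA]; exact List.mem_append_left _ hx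
    have h2 : x ∈ L := by rw [hB]; exact List.mem_cons_of_mem _ hy
    rw [hmU] at h1
    rw [hmL] at h2
    have h3 : x ≠ n - 1 := fun h => hndU.2.2 x hx (n - 1) (by simp) h
    have h4 : x ≠ 0 := by rintro rfl; exact hndL.1 hy
    exact h2.2.resolve_left h4 |>.resolve_left h3 (h1.2.resolve_left h4 |>.resolve_left h3)
  have hcover : ∀ k < n, k ∈ A ++ B.reverse := by
    intro k hk
    rw [List.mem_append, List.mem_reverse]
    by_cases hkN : k = n - 1
    · right
      subst hkN
      rw [hB] at hNL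
      exact (List.mem_cons.1 hNL).resolve_left (by omega)
    by_cases hk0 : k = 0
    · left
      subst hk0
      rw [hA, List.mem_append, List.mem_singleton] at h0U
      exact h0U.resolve_right hkN
    by_cases hS : W.S 0 k (n - 1)
    · left
      have : k ∈ U := (hmU k).2 ⟨hk, Or.inr (Or.inr hS)⟩
      rw [hA, List.mem_append, List.mem_singleton] at this
      exact this.resolve_right hkN
    · right
      have : k ∈ L := (hmL k).2 ⟨hk, Or.inr (Or.inr hS)⟩
      rw [hB] at this
      exact (List.mem_cons.1 this).resolve_left hk0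
  have hlt : ∀ x ∈ A ++ B.reverse, x < n := by
    intro x hx
    rw [List.mem_append, List.mem_reverse] at hx
    rcases hx with h | h
    · exact hUn x (by rw [hA]; exact List.mem_append_left _ h)
    · exact hLn x (by rw [hB]; exact List.mem_cons_of_mem _ h)
  have hmapnd : ((A ++ B.reverse).map W.w).Nodup := by
    refine (List.nodup_map_iff_inj_on hnodup).2 ?_
    intro x hx y hy hxy
    exact W.winj x y (hlt x hx) (hlt y hy) hxy
  refine conclude hn E ?_ ?_ (by rw [hEc]; exact hPc) ((A ++ B.reverse).map W.w) hmapnd ?_ ?_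
    (a := W.w 0) (b := W.w b0) ?_ ?_ ?_
  · intro e he
    obtain ⟨f, hf, rfl⟩ := Finset.mem_image.1 he
    obtain ⟨h1, h2⟩ := hPlt f hf
    rw [Sym2.mk_isDiag_iff]
    exact W.ne_w h1 h2
  · intro a b c d h1 h2 h3
    obtain ⟨e, he, he'⟩ := Finset.mem_image.1 h1
    obtain ⟨f, hf, hf'⟩ := Finset.mem_image.1 h2
    have hne : e ≠ f := by
      rintro rfl
      exact h3 (he'.symm.trans hf')
    have hm := hmeet e he f hf hne
    rw [Sym2.eq_iff] at he' hf'
    rcases he' with ⟨rfl, rfl⟩ | ⟨rfl, rfl⟩ <;> rcases hf' with ⟨rfl, rfl⟩ | ⟨rfl, rfl⟩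
    · exact hm
    · exact hm.swap_right
    · exact hm.swap_left
    · exact hm.swap_left.swap_right
  · intro v
    -- `w` is onto
    have hinj : Function.Injective (fun k : Fin n => W.w k) := fun x y hxy =>
      Fin.ext (W.winj _ _ x.2 y.2 hxy)
    obtain ⟨k, hk⟩ := (Finite.injective_iff_surjective.1 hinj) v
    rw [List.mem_map]
    exact ⟨k, hcover k k.2, hk⟩
  · rw [List.isChain_map]
    exact hchain
  · rw [List.head?_map, List.head?_append, hA0, ha0]
    rfl
  · rw [List.getLast?_map, List.getLast?_append, List.getLast?_reverse, hB0]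
    rfl
  · rw [hB] at hRL
    apply hRsymm
    have := (List.isChain_cons.1 hRL).1
    exact this b0 hB0

end SimpleDraw
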