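import Mathlib
import Pool.Agent.SimpleDraw.Window

/-! # Polar coordinates -/

open Set Complex

namespace SimpleDraw

theorem polar_two_pi (O : ℂ) (r θ : ℝ) (k : ℤ) :
    polar O r (θ + 2 * Real.pi * k) = polar O r θ := by
  unfold polar
  congr 2
  have : (((θ + 2 * Real.pi * k : ℝ) : ℂ)) * I = (θ : ℂ) * I + k * (2 * Real.pi * I) := by
    push_cast; ring
  rw [this, Complex.exp_add, Complex.exp_int_mul_two_pi_mul_I, mul_one]

theorem polar_eq_iff {O : ℂ} {r r' θ θ' : ℝ} (hr : 0 < r) (hr' : 0 < r') :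
    polar O r θ = polar O r' θ' ↔ r = r' ∧ ∃ k : ℤ, θ = θ' + 2 * Real.pi * k := by
  constructor
  · intro h
    have h1 : (r : ℂ) * Complex.exp (θ * I) = r' * Complex.exp (θ' * I) := by
      unfold polar at h
      exact add_left_cancel h
    have h2 : r = r' := by
      have := congrArg (fun z : ℂ => ‖z‖) h1
      simp only [norm_mul, Complex.norm_real, Complex.norm_exp_ofReal_mul_I, mul_one,
        Real.norm_eq_abs, abs_of_pos hr, abs_of_pos hr'] at this
      exact this
    refine ⟨h2, ?_⟩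
    subst h2
    have h3 : Complex.exp (θ * I) = Complex.exp (θ' * I) :=
      mul_left_cancel₀ (by exact_mod_cast hr.ne') h1
    obtain ⟨k, hk⟩ := Complex.exp_eq_exp_iff_exists_int.1 h3
    refine ⟨k, ?_⟩
    have h4 : ((θ : ℂ)) * I = ((θ' + 2 * Real.pi * k : ℝ) : ℂ) * I := by
      rw [hk]; push_cast; ring
    have h5 := mul_right_cancel₀ Complex.I_ne_zero h4
    exact_mod_cast h5
  · rintro ⟨rfl, k, rfl⟩
    exact polar_two_pi O r θ' k

/-- polar coordinates (angle, logarithm of the radius) on the plane cut along a ray -/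
noncomputable def polarChart (O : ℂ) (mid : ℝ) : OpenPartialHomeomorph (ℝ × ℝ) ℂ :=
  let e1 : (ℝ × ℝ) ≃ₜ ℂ :=
    (Homeomorph.prodComm ℝ ℝ).trans (Complex.equivRealProdCLM.symm.toHomeomorph.trans
      (Homeomorph.addRight (-(mid : ℂ) * I)))
  let e3 : ℂ ≃ₜ ℂ := (Homeomorph.mulLeft₀ (Complex.exp (mid * I)) (Complex.exp_ne_zero _)).trans
    (Homeomorph.addLeft O)
  (e1.toOpenPartialHomeomorph.trans Complex.expOpenPartialHomeomorph).trans
    e3.toOpenPartialHomeomorph

theorem polarChart_apply (O : ℂ) (mid t s : ℝ) :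
    polarChart O mid (t, s) = polar O (Real.exp s) t := by
  change O + Complex.exp (mid * I) * Complex.exp ((⟨s, t⟩ : ℂ) + -(mid : ℂ) * I) = _
  rw [← Complex.exp_add]
  unfold polar
  have h1 : (⟨s, t⟩ : ℂ) = s + t * I := Complex.mk_eq_add_mul_I s t
  rw [h1]
  have h2 : (mid : ℂ) * I + (s + t * I + -(mid : ℂ) * I) = s + t * I := by ring
  rw [h2, Complex.exp_add, Complex.ofReal_exp]

theorem polarChart_source (O : ℂ) (mid t s : ℝ) :
    (t, s) ∈ (polarChart O mid).source ↔ |t - mid| < Real.pi := by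
  have h1 : (t, s) ∈ (polarChart O mid).source ↔
      ((⟨s, t⟩ : ℂ) + -(mid : ℂ) * I).im ∈ Ioo (-Real.pi) Real.pi := by
    simp only [polarChart, OpenPartialHomeomorph.trans_source,
      Homeomorph.toOpenPartialHomeomorph_source, preimage_univ, inter_univ, univ_inter]
    rfl
  rw [h1, abs_lt, mem_Ioo]
  have h2 : ((⟨s, t⟩ : ℂ) + -(mid : ℂ) * I).im = t - mid := by
    simp; ring
  rw [h2]

end SimpleDraw
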