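import Mathlib
import Pool.Agent.SimpleDraw.PolarCoord
import Pool.Agent.SimpleDraw.CaseA

/-! # Lifting a strongly c-monotone drawing to the universal cover -/

open Set Complex

namespace SimpleDraw

/-- angular data of a c-monotone drawing, lifted to all natural indices -/
structure Lift {n : ℕ} (D : SimpleDrawing n) (O : ℂ) where
  w : ℕ → Fin n
  ψ : ℕ → ℝ
  y : Fin n → ℝ
  w_per : ∀ k, w (k + n) = w k
  ψ_per : ∀ k, ψ (k + n) = ψ k + 2 * Real.pi
  ψ_mono : StrictMono ψ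
  w_inj : ∀ a k l, a ≤ k → k < a + n → a ≤ l → l < a + n → w k = w l → k = l
  w_surj : ∀ v, ∃ k < n, w k = v
  pt_eq : ∀ k, D.pt (w k) = polar O (Real.exp (y (w k))) (ψ k)
  arc : ∀ i j, i ≠ j → IsPolarArc O (D.curve i j) (D.pt i) (D.pt j)
  ray : ∀ i j k l, i ≠ j → k ≠ l → ∃ θ : ℝ, ∀ r : ℝ, 0 ≤ r →
      polar O r θ ∉ D.curve i j ∧ polar O r θ ∉ D.curve k l

/-- existence of the lifted data -/
theorem exists_lift {n : ℕ} (hn : 2 ≤ n) {D : SimpleDrawing n} (h : D.StronglyCMonotone) :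
    ∃ O, Nonempty (Lift D O) := by
  classical
  obtain ⟨O, harc, hray⟩ := h
  refine ⟨O, ?_⟩
  have h2π : (0 : ℝ) < 2 * Real.pi := Real.two_pi_pos
  -- angle and radius of each vertex
  have hv : ∀ v : Fin n, ∃ (θ r : ℝ), 0 ≤ θ ∧ θ < 2 * Real.pi ∧ 0 < r ∧
      D.pt v = polar O r θ := by
    intro v
    obtain ⟨u, hu⟩ : ∃ u : Fin n, v ≠ u := by
      have : Nontrivial (Fin n) := Fin.nontrivial_iff_two_le.2 hn
      obtain ⟨u, hu⟩ := exists_ne v
      exact ⟨u, hu.symm⟩
    obtain ⟨α, β, ρ, hαβ, -, -, hpos, -, hend⟩ := harc v u hu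
    obtain ⟨θ, r, hr, hp⟩ : ∃ (θ r : ℝ), 0 < r ∧ D.pt v = polar O r θ := by
      rcases hend with ⟨h1, -⟩ | ⟨-, h1⟩
      · exact ⟨α, ρ α, hpos α (left_mem_Icc.2 hαβ.le), h1.symm⟩
      · exact ⟨β, ρ β, hpos β (right_mem_Icc.2 hαβ.le), h1.symm⟩
    refine ⟨toIcoMod h2π 0 θ, r, ?_, ?_, hr, ?_⟩
    · exact (toIcoMod_mem_Ico h2π 0 θ).1
    · have := (toIcoMod_mem_Ico h2π 0 θ).2
      rwa [zero_add] at this
    · rw [hp]
      have h1 : toIcoMod h2π 0 θ = θ + 2 * Real.pi * ((-(toIcoDiv h2π 0 θ) : ℤ) : ℝ) := by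
        unfold toIcoMod
        rw [zsmul_eq_mul]
        push_cast
        ring
      rw [h1, polar_two_pi]
  choose θ r hθ0 hθ1 hr0 hpt using hv
  -- different vertices have different angles
  have hθinj : Function.Injective θ := by
    intro u v huv
    by_contra hne
    obtain ⟨α, β, ρ, hαβ, hβα, -, hpos, -, hend⟩ := harc u v hne
    have hα := hpos α (left_mem_Icc.2 hαβ.le)
    have hβ := hpos β (right_mem_Icc.2 hαβ.le)
    have key : ∀ a b : ℝ, (∃ k : ℤ, α = a + 2 * Real.pi * k) → (∃ k : ℤ, β = b + 2 * Real.pi * k) →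
        a = b → False := by
      rintro a b ⟨k, hk⟩ ⟨l, hl⟩ rfl
      have h1 : (k : ℝ) < l := by
        have : 2 * Real.pi * (k : ℝ) < 2 * Real.pi * l := by linarith
        exact lt_of_mul_lt_mul_left this h2π.le
      have h2 : (l : ℝ) < k + 1 := by
        have : 2 * Real.pi * (l : ℝ) < 2 * Real.pi * (k + 1) := by linarith
        exact lt_of_mul_lt_mul_left this h2π.le
      have h3 : k < l := by exact_mod_cast h1
      have h4 : l < k + 1 := by exact_mod_cast h2
      omega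
    rcases hend with ⟨h1, h2⟩ | ⟨h1, h2⟩
    · rw [hpt] at h1 h2
      exact key _ _ ((polar_eq_iff hα (hr0 _)).1 h1).2 ((polar_eq_iff hβ (hr0 _)).1 h2).2 huv
    · rw [hpt] at h1 h2
      exact key _ _ ((polar_eq_iff hα (hr0 _)).1 h1).2 ((polar_eq_iff hβ (hr0 _)).1 h2).2 huv.symm
  set σ := Tuple.sort θ with hσ
  have hmono : StrictMono (θ ∘ σ) :=
    (Tuple.monotone_sort θ).strictMono_of_injective (hθinj.comp σ.injective)
  have hn0 : 0 < n := by omega
  set w : ℕ → Fin n := fun k => σ ⟨k % n, Nat.mod_lt _ hn0⟩ with hw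
  set ψ : ℕ → ℝ := fun k => θ (w k) + 2 * Real.pi * ((k / n : ℕ) : ℝ) with hψ
  have hwper : ∀ k, w (k + n) = w k := by
    intro k
    simp only [hw, Nat.add_mod_right]
  have hψper : ∀ k, ψ (k + n) = ψ k + 2 * Real.pi := by
    intro k
    simp only [hψ, hwper, Nat.add_div_right k hn0]
    push_cast
    ring
  have hψmono : StrictMono ψ := by
    intro k l hkl
    simp only [hψ]
    rcases (Nat.div_le_div_right (c := n) hkl.le).eq_or_lt with he | hlt
    · have hmod : k % n < l % n := by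
        have h1 := Nat.div_add_mod k n
        have h2 := Nat.div_add_mod l n
        rw [he] at h1
        omega
      have h3 : θ (w k) < θ (w l) := hmono (show (⟨k % n, _⟩ : Fin n) < ⟨l % n, _⟩ from hmod)
      rw [he]
      linarith
    · have h1 : ((k / n : ℕ) : ℝ) + 1 ≤ ((l / n : ℕ) : ℝ) := by exact_mod_cast hlt
      have h2 : 2 * Real.pi * (((k / n : ℕ) : ℝ) + 1) ≤ 2 * Real.pi * ((l / n : ℕ) : ℝ) :=
        mul_le_mul_of_nonneg_left h1 h2π.le
      have h3 := hθ1 (w k)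
      have h4 := hθ0 (w l)
      nlinarith
  refine ⟨⟨w, ψ, fun v => Real.log (r v), hwper, hψper, hψmono, ?_, ?_, ?_, harc, hray⟩⟩
  · intro a k l h1 h2 h3 h4 h5
    have h6 : k % n = l % n := by
      have := σ.injective h5
      simpa using this
    have h7 : (n : ℤ) ∣ (k : ℤ) - l := by
      have : (k : ℤ) ≡ l [ZMOD n] := by
        unfold Int.ModEq; exact_mod_cast h6
      exact this.symm.dvd
    obtain ⟨c, hc⟩ := h7
    have h8 : c = 0 := by
      by_contra hc0
      rcases lt_or_gt_of_ne hc0 with h | h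
      · have : (n : ℤ) * c ≤ n * (-1) := by
          apply mul_le_mul_of_nonneg_left (by omega) (by omega)
        omega
      · have : (n : ℤ) * 1 ≤ n * c := by
          apply mul_le_mul_of_nonneg_left (by omega) (by omega)
        omega
    rw [h8] at hc
    omega
  · intro v
    refine ⟨σ.symm v, (σ.symm v).2, ?_⟩
    have : (⟨(σ.symm v : ℕ) % n, Nat.mod_lt _ hn0⟩ : Fin n) = σ.symm v := by
      ext
      simp [Nat.mod_eq_of_lt (σ.symm v).2]
    simp only [hw, this, Equiv.apply_symm_apply]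
  · intro k
    simp only [hψ]
    rw [Real.exp_log (hr0 _), hpt (w k)]
    have := polar_two_pi O (r (w k)) (θ (w k)) ((k / n : ℕ) : ℤ)
    rw [← this]
    push_cast
    rfl

variable {n : ℕ} {D : SimpleDrawing n} {O : ℂ} (T : Lift D O)

/-- the edge between the lifted indices `a < b` runs through the angles `[ψ a, ψ b]` -/
def Lift.Good (a b : ℕ) : Prop :=
  ∃ g : ℝ → ℝ, ContinuousOn g (Icc (T.ψ a) (T.ψ b)) ∧ g (T.ψ a) = T.y (T.w a) ∧
    g (T.ψ b) = T.y (T.w b) ∧
    D.curve (T.w a) (T.w b) = (fun t => polar O (Real.exp (g t)) t) '' Icc (T.ψ a) (T.ψ b)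

theorem Lift.good_of_arc {a b : ℕ} (hab : a < b) (hba : b < a + n) {α β : ℝ} {ρ : ℝ → ℝ}
    (hαβ : α < β) (hβα : β < α + 2 * Real.pi) (hρ : ContinuousOn ρ (Icc α β))
    (hpos : ∀ θ ∈ Icc α β, 0 < ρ θ)
    (hc : D.curve (T.w a) (T.w b) = (fun θ => polar O (ρ θ) θ) '' Icc α β)
    (h1 : polar O (ρ α) α = D.pt (T.w a)) (h2 : polar O (ρ β) β = D.pt (T.w b)) : T.Good a b := by
  have h2π : (0 : ℝ) < 2 * Real.pi := Real.two_pi_pos
  have hα := hpos α (left_mem_Icc.2 hαβ.le)
  have hβ := hpos β (right_mem_Icc.2 hαβ.le)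
  rw [T.pt_eq] at h1 h2
  obtain ⟨e1, k, hk⟩ := (polar_eq_iff hα (Real.exp_pos _)).1 h1
  obtain ⟨e2, l, hl⟩ := (polar_eq_iff hβ (Real.exp_pos _)).1 h2
  have hψ1 : T.ψ a < T.ψ b := T.ψ_mono hab
  have hψ2 : T.ψ b < T.ψ a + 2 * Real.pi := by rw [← T.ψ_per]; exact T.ψ_mono hba
  have hkl : k = l := by
    have h3 : (l : ℝ) - k < 1 := by
      have : 2 * Real.pi * ((l : ℝ) - k) < 2 * Real.pi * 1 := by
        have e1 : 2 * Real.pi * ((l : ℝ) - k) = (β - α) - (T.ψ b - T.ψ a) := by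
          rw [hk, hl]; ring
        rw [e1]; linarith
      exact lt_of_mul_lt_mul_left this h2π.le
    have h4 : (-1 : ℝ) < (l : ℝ) - k := by
      have : 2 * Real.pi * (-1) < 2 * Real.pi * ((l : ℝ) - k) := by
        have e1 : 2 * Real.pi * ((l : ℝ) - k) = (β - α) - (T.ψ b - T.ψ a) := by
          rw [hk, hl]; ring
        rw [e1]; linarith
      exact lt_of_mul_lt_mul_left this h2π.le
    have h5 : l - k < 1 := by exact_mod_cast h3
    have h6 : -1 < l - k := by exact_mod_cast h4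
    omega
  subst hkl
  have hshift : ∀ t, t ∈ Icc (T.ψ a) (T.ψ b) ↔ t + 2 * Real.pi * k ∈ Icc α β := by
    intro t
    rw [mem_Icc, mem_Icc, hk, hl]
    constructor <;> rintro ⟨u, v⟩ <;> constructor <;> linarith
  refine ⟨fun t => Real.log (ρ (t + 2 * Real.pi * k)), ?_, ?_, ?_, ?_⟩
  · refine ContinuousOn.log ?_ ?_
    · refine hρ.comp (by fun_prop) ?_
      intro t ht
      exact (hshift t).1 ht
    · intro t ht
      exact (hpos _ ((hshift t).1 ht)).ne'
  · simp only
    rw [← hk, e1, Real.log_exp]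
  · simp only
    rw [← hl, e2, Real.log_exp]
  · rw [hc]
    ext p
    constructor
    · rintro ⟨s, hs, rfl⟩
      refine ⟨s - 2 * Real.pi * k, ?_, ?_⟩
      · rw [hshift]; simpa using hs
      · have e3 : s - 2 * Real.pi * k + 2 * Real.pi * k = s := by ring
        simp only [e3]
        rw [Real.exp_log (hpos s hs)]
        have := polar_two_pi O (ρ s) (s - 2 * Real.pi * k) k
        rw [e3] at this
        exact this.symm
    · rintro ⟨t, ht, rfl⟩
      refine ⟨t + 2 * Real.pi * k, (hshift t).1 ht, ?_⟩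
      simp only
      rw [polar_two_pi, Real.exp_log (hpos _ ((hshift t).1 ht))]

theorem Lift.ne {a b : ℕ} (hab : a < b) (hba : b < a + n) : T.w a ≠ T.w b := fun h =>
  hab.ne (T.w_inj a a b le_rfl (by omega) hab.le hba h)

theorem Lift.good_or {a b : ℕ} (hab : a < b) (hba : b < a + n) :
    T.Good a b ∨ T.Good b (a + n) := by
  obtain ⟨α, β, ρ, hαβ, hβα, hρ, hpos, hc, hend⟩ := T.arc _ _ (T.ne hab hba)
  rcases hend with ⟨h1, h2⟩ | ⟨h1, h2⟩
  · exact Or.inl (T.good_of_arc hab hba hαβ hβα hρ hpos hc h1 h2)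
  · right
    refine T.good_of_arc (by omega) (by omega) hαβ hβα hρ hpos ?_ h1 ?_
    · rw [T.w_per, D.curve_symm]; exact hc
    · rw [T.w_per]; exact h2

/-- strong c-monotonicity: edges inside a linear window are linear -/
theorem Lift.good_sub {a b c d : ℕ} (hab : a < b) (hba : b < a + n) (h : T.Good a b) (hac : a ≤ c)
    (hcd : c < d) (hdb : d ≤ b) : T.Good c d := by
  rcases T.good_or (a := c) (b := d) hcd (by omega) with h1 | h1
  · exact h1
  exfalso
  obtain ⟨g, -, -, -, hg⟩ := h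
  obtain ⟨g', -, -, -, hg'⟩ := h1
  rw [T.w_per] at hg'
  have h2π : (0 : ℝ) < 2 * Real.pi := Real.two_pi_pos
  obtain ⟨θ, hθ⟩ := T.ray (T.w a) (T.w b) (T.w d) (T.w c) (T.ne hab hba)
    (T.ne hcd (by omega)).symm
  -- representative of θ in [ψ a, ψ a + 2π)
  obtain ⟨t, k, ht, htk⟩ : ∃ (t : ℝ) (k : ℤ), t ∈ Ico (T.ψ a) (T.ψ a + 2 * Real.pi) ∧
      t = θ + 2 * Real.pi * k := by
    refine ⟨toIcoMod h2π (T.ψ a) θ, -(toIcoDiv h2π (T.ψ a) θ), toIcoMod_mem_Ico h2π _ θ, ?_⟩
    unfold toIcoMod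
    rw [zsmul_eq_mul]
    push_cast
    ring
  by_cases htb : t ≤ T.ψ b
  · have h1 := (hθ (Real.exp (g t)) (Real.exp_pos _).le).1
    apply h1
    rw [hg]
    refine ⟨t, ⟨ht.1, htb⟩, ?_⟩
    simp only
    rw [htk, polar_two_pi]
  · push Not at htb
    have h1 := (hθ (Real.exp (g' t)) (Real.exp_pos _).le).2
    apply h1
    rw [hg']
    have e1 : T.ψ d ≤ T.ψ b := T.ψ_mono.monotone hdb
    have e2 : T.ψ a ≤ T.ψ c := T.ψ_mono.monotone hac
    have e3 := T.ψ_per c
    refine ⟨t, ⟨by linarith, by rw [e3]; linarith [ht.2]⟩, ?_⟩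
    simp only
    rw [htk, polar_two_pi]

/-- the window of a linear range of indices -/
theorem Lift.exists_win {a b : ℕ} (hab : a < b) (hba : b < a + n) (h : T.Good a b) :
    ∃ W : Win D (b - a + 1), ∀ k, W.w k = T.w (a + k) := by
  classical
  have hgood : ∀ i j, i < j → j < b - a + 1 → T.Good (a + i) (a + j) := fun i j hij hj =>
    T.good_sub hab hba h (by omega) (by omega) (by omega)
  set f : ℕ → ℕ → ℝ → ℝ := fun i j => if hij : i < j ∧ j < b - a + 1 then
    (hgood i j hij.1 hij.2).choose else fun _ => 0 with hf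
  have hfs : ∀ i j (hij : i < j) (hj : j < b - a + 1),
      ContinuousOn (f i j) (Icc (T.ψ (a + i)) (T.ψ (a + j))) ∧
      f i j (T.ψ (a + i)) = T.y (T.w (a + i)) ∧ f i j (T.ψ (a + j)) = T.y (T.w (a + j)) ∧
      D.curve (T.w (a + i)) (T.w (a + j)) =
        (fun t => polar O (Real.exp (f i j t)) t) '' Icc (T.ψ (a + i)) (T.ψ (a + j)) := by
    intro i j hij hj
    have : f i j = (hgood i j hij hj).choose := by
      simp only [hf]
      rw [dif_pos ⟨hij, hj⟩]
    rw [this]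
    exact (hgood i j hij hj).choose_spec
  refine ⟨{
    w := fun k => T.w (a + k)
    φ := fun k => T.ψ (a + k)
    y := fun k => T.y (T.w (a + k))
    f := f
    κ := polarChart O ((T.ψ a + T.ψ b) / 2)
    mono := fun i j hij _ => T.ψ_mono (by omega)
    src := ?_
    winj := ?_
    pt_eq := ?_
    cont := fun i j hij hj => (hfs i j hij hj).1
    left := fun i j hij hj => (hfs i j hij hj).2.1
    right := fun i j hij hj => (hfs i j hij hj).2.2.1
    curve := ?_ }, fun k => rfl⟩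
  · intro t s h1 h2
    rw [polarChart_source]
    have e1 : T.ψ (a + 0) = T.ψ a := by rw [add_zero]
    have e2 : a + (b - a + 1 - 1) = b := by omega
    rw [e1] at h1
    rw [e2] at h2
    have e3 : T.ψ b < T.ψ a + 2 * Real.pi := by rw [← T.ψ_per]; exact T.ψ_mono hba
    rw [abs_lt]
    constructor <;> linarith
  · intro i j hi hj hij
    have := T.w_inj a (a + i) (a + j) (by omega) (by omega) (by omega) (by omega) hij
    omega
  · intro i hi
    rw [polarChart_apply]
    exact (T.pt_eq (a + i)).symm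
  · intro i j hij hj
    rw [(hfs i j hij hj).2.2.2]
    simp only [polarChart_apply]

/-- edges over angular ranges which are disjoint up to the ends -/
theorem Lift.meet_far {a b c d : ℕ} (hab : a < b) (hbc : b ≤ c) (hcd : c < d) (hda : d ≤ a + n)
    (h1 : T.Good a b) (h2 : T.Good c d) (hne : s(T.w a, T.w b) ≠ s(T.w c, T.w d)) :
    Meet D (T.w a) (T.w b) (T.w c) (T.w d) := by
  have hwab := T.ne hab (by omega : b < a + n)
  have hwcd := T.ne hcd (by omega : d < c + n)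
  rcases hbc.eq_or_lt with rfl | hbc
  · exact meet_of_common hwab hwcd hne (Or.inr (Or.inr (Or.inl rfl)))
  rcases hda.eq_or_lt with rfl | hda
  · refine meet_of_common hwab hwcd hne (Or.inr (Or.inl ?_))
    rw [T.w_per]
  rintro p ⟨hp1, hp2⟩
  exfalso
  obtain ⟨g, -, -, -, hg⟩ := h1
  obtain ⟨g', -, -, -, hg'⟩ := h2
  rw [hg] at hp1
  rw [hg'] at hp2
  obtain ⟨t, ht, rfl⟩ := hp1
  obtain ⟨t', ht', he⟩ := hp2
  obtain ⟨-, k, hk⟩ := (polar_eq_iff (Real.exp_pos _) (Real.exp_pos _)).1 he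
  have h2π : (0 : ℝ) < 2 * Real.pi := Real.two_pi_pos
  have e1 : T.ψ b < T.ψ c := T.ψ_mono hbc
  have e2 : T.ψ d < T.ψ a + 2 * Real.pi := by rw [← T.ψ_per]; exact T.ψ_mono hda
  have e3 : 2 * Real.pi * (0 : ℝ) < 2 * Real.pi * (k : ℝ) := by linarith [ht.2, ht'.1]
  have e4 : 2 * Real.pi * (k : ℝ) < 2 * Real.pi * 1 := by linarith [ht.1, ht'.2]
  have e5 : (0 : ℝ) < k := lt_of_mul_lt_mul_left e3 h2π.le
  have e6 : (k : ℝ) < 1 := lt_of_mul_lt_mul_left e4 h2π.le
  have e7 : 0 < k := by exact_mod_cast e5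
  have e8 : k < 1 := by exact_mod_cast e6
  omega

end SimpleDraw
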