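import Mathlib
import Pool.Agent.SimpleDraw.Lift

/-! # Strongly c-monotone drawings -/

open Set

namespace SimpleDraw

variable {n : ℕ} {D : SimpleDrawing n} {O : ℂ} (T : Lift D O)

/-- coincidences between lifted pairs -/
theorem Lift.pair_eq {i k p q : ℕ} (hik : i < k) (hkn : k ≤ n) (hne1 : ¬ (i = 0 ∧ k = n))
    (hpq : p < q) (hqn : q ≤ n) (hne2 : ¬ (p = 0 ∧ q = n))
    (h : s(T.w i, T.w k) = s(T.w p, T.w q)) :
    (i = p ∧ k = q) ∨ (i = 0 ∧ k = p ∧ q = n) ∨ (p = 0 ∧ i = q ∧ k = n) := by
  have key : ∀ x y, x < n → y < n → T.w x = T.w y → x = y := fun x y hx hy hxy =>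
    T.w_inj 0 x y (Nat.zero_le _) (by omega) (Nat.zero_le _) (by omega) hxy
  have key1 : ∀ x y, 0 < x → x ≤ n → 0 < y → y ≤ n → T.w x = T.w y → x = y :=
    fun x y hx hx' hy hy' hxy => T.w_inj 1 x y hx (by omega) hy (by omega) hxy
  have hn0 : T.w n = T.w 0 := by have := T.w_per 0; rwa [zero_add] at this
  rw [Sym2.eq_iff] at h
  rcases h with ⟨h1, h2⟩ | ⟨h1, h2⟩
  · left
    exact ⟨key _ _ (by omega) (by omega) h1, key1 _ _ (by omega) hkn (by omega) hqn h2⟩
  · rcases hqn.eq_or_lt with rfl | hqn'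
    · -- q = n
      rw [hn0] at h1
      have e1 : i = 0 := key _ _ (by omega) (by omega) h1
      subst e1
      have hk : k < q := lt_of_le_of_ne hkn (fun h => hne1 ⟨rfl, h⟩)
      have e2 : k = p := key _ _ hk hpq h2
      right; left
      exact ⟨rfl, e2, rfl⟩
    · have e1 : i = q := key _ _ (by omega) hqn' h1
      rcases hkn.eq_or_lt with rfl | hkn'
      · rw [hn0] at h2
        have e2 : 0 = p := key _ _ (by omega) (by omega) h2
        right; right
        exact ⟨e2.symm, e1, rfl⟩
      · have e2 : k = p := key _ _ hkn' (by omega) h2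
        omega

theorem caseB (hn : 3 ≤ n) {j : ℕ} (hj1 : 1 ≤ j) (hjn : j + 2 ≤ n) (h1 : T.Good 0 j)
    (h2 : T.Good j (j + 1)) (h3 : T.Good (j + 1) n) : D.HasPlaneHamiltonian := by
  classical
  obtain ⟨m1, W1, hm1, hW1⟩ : ∃ (m1 : ℕ) (W : Win D m1), m1 = j + 1 ∧ ∀ k, W.w k = T.w k := by
    obtain ⟨W, hW⟩ := T.exists_win (a := 0) (b := j) (by omega) (by omega) h1
    exact ⟨_, W, by omega, fun k => by rw [hW, zero_add]⟩
  obtain ⟨m2, W2, hm2, hW2⟩ : ∃ (m2 : ℕ) (W : Win D m2), m2 = n - j ∧
      ∀ k, W.w k = T.w (j + 1 + k) := by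
    obtain ⟨W, hW⟩ := T.exists_win (a := j + 1) (b := n) (by omega) (by omega) h3
    exact ⟨_, W, by omega, hW⟩
  obtain ⟨F1, hF1⟩ := exists_fam W1.signAx (List.range m1) List.pairwise_lt_range
    (by rw [List.length_range]; omega) (fun x hx => by simpa using hx)
  obtain ⟨F2, hF2⟩ := exists_fam W2.signAx (List.range m2) List.pairwise_lt_range
    (by rw [List.length_range]; omega) (fun x hx => by simpa using hx)
  have hR1 : ∀ x ∈ List.range m1, x < m1 := fun x hx => by simpa using hx
  have hR2 : ∀ x ∈ List.range m2, x < m2 := fun x hx => by simpa using hx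
  -- lifted pairs
  set Q2 : Finset (ℕ × ℕ) := F2.image (fun e => (j + 1 + e.1, j + 1 + e.2)) with hQ2
  set P : Finset (ℕ × ℕ) := insert (j, j + 1) (F1 ∪ Q2) with hP
  have hmem1 : ∀ e ∈ F1, e.1 < e.2 ∧ e.2 ≤ j := by
    intro e he
    obtain ⟨-, a2, a3⟩ := hF1.mem e he
    have := hR1 _ a2
    exact ⟨a3, by omega⟩
  have hmem2 : ∀ e ∈ Q2, j + 1 ≤ e.1 ∧ e.1 < e.2 ∧ e.2 ≤ n := by
    intro e he
    obtain ⟨f, hf, rfl⟩ := Finset.mem_image.1 he
    obtain ⟨-, a2, a3⟩ := hF2.mem f hf
    have := hR2 _ a2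
    simp only
    omega
  have hPb : ∀ e ∈ P, e.1 < e.2 ∧ e.2 ≤ n ∧
      (e.2 ≤ j ∨ (e.1 = j ∧ e.2 = j + 1) ∨ j + 1 ≤ e.1) := by
    intro e he
    rw [hP, Finset.mem_insert, Finset.mem_union] at he
    rcases he with rfl | he | he
    · exact ⟨by simp, by simp only; omega, Or.inr (Or.inl ⟨rfl, rfl⟩)⟩
    · have := hmem1 e he; omega
    · have := hmem2 e he; omega
  -- cardinality
  have hQ2c : Q2.card = F2.card := by
    rw [hQ2, Finset.card_image_of_injective]
    intro e f hef
    simp only [Prod.mk.injEq] at hef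
    exact Prod.ext (by omega) (by omega)
  have hPc : P.card = 2 * n - 3 := by
    have hd : Disjoint F1 Q2 := by
      rw [Finset.disjoint_left]
      intro e he1 he2
      have := hmem1 e he1
      have := hmem2 e he2
      omega
    have hnot : (j, j + 1) ∉ F1 ∪ Q2 := by
      rw [Finset.mem_union]
      rintro (h | h)
      · have := hmem1 _ h; simp only at this; omega
      · have := hmem2 _ h; simp only at this; omega
    rw [hP, Finset.card_insert_of_notMem hnot, Finset.card_union_of_disjoint hd, hQ2c]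
    have e1 := hF1.card
    have e2 := hF2.card
    rw [List.length_range] at e1 e2
    omega
  set E : Finset (Sym2 (Fin n)) := P.image (fun e => s(T.w e.1, T.w e.2)) with hE
  have hPne : ∀ e ∈ P, ¬ (e.1 = 0 ∧ e.2 = n) := by
    intro e he
    have := hPb e he
    omega
  have hPinj : ∀ e ∈ P, ∀ f ∈ P, s(T.w e.1, T.w e.2) = s(T.w f.1, T.w f.2) → e = f := by
    intro e he f hf hef
    have a := hPb e he
    have b := hPb f hf
    rcases T.pair_eq a.1 a.2.1 (hPne e he) b.1 b.2.1 (hPne f hf) hef with h | h | h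
    · exact Prod.ext h.1 h.2
    · omega
    · omega
  have hEc : E.card = P.card := by
    rw [hE, Finset.card_image_of_injOn]
    intro e he f hf hef
    exact hPinj e he f hf hef
  -- Good for each edge of P
  have hGood1 : ∀ e ∈ F1, T.Good e.1 e.2 := fun e he => by
    have := hmem1 e he
    exact T.good_sub (by omega) (by omega) h1 (Nat.zero_le _) this.1 this.2
  have hGood2 : ∀ e ∈ Q2, T.Good e.1 e.2 := fun e he => by
    have := hmem2 e he
    exact T.good_sub (by omega) (by omega) h3 this.1 this.2.1 this.2.2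
  have hmeet : ∀ e ∈ P, ∀ f ∈ P, e ≠ f → Meet D (T.w e.1) (T.w e.2) (T.w f.1) (T.w f.2) := by
    -- auxiliary cases
    have c12 : ∀ e ∈ F1, ∀ f ∈ Q2, e ≠ f → Meet D (T.w e.1) (T.w e.2) (T.w f.1) (T.w f.2) := by
      intro e he f hf hne
      have a := hmem1 e he
      have b := hmem2 f hf
      refine T.meet_far a.1 (by omega) b.2.1 (by omega) (hGood1 e he) (hGood2 f hf) ?_
      intro h
      exact hne (hPinj e (by rw [hP]; simp [he]) f (by rw [hP]; simp [hf]) h)
    have c10 : ∀ e ∈ F1, e ≠ (j, j + 1) →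
        Meet D (T.w e.1) (T.w e.2) (T.w j) (T.w (j + 1)) := by
      intro e he hne
      have a := hmem1 e he
      refine T.meet_far a.1 a.2 (by omega) (by omega) (hGood1 e he) h2 ?_
      intro h
      exact hne (hPinj e (by rw [hP]; simp [he]) (j, j + 1) (by rw [hP]; simp) h)
    have c20 : ∀ f ∈ Q2, (j, j + 1) ≠ f →
        Meet D (T.w j) (T.w (j + 1)) (T.w f.1) (T.w f.2) := by
      intro f hf hne
      have b := hmem2 f hf
      refine T.meet_far (by omega) b.1 b.2.1 (by omega) h2 (hGood2 f hf) ?_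
      intro h
      exact hne (hPinj (j, j + 1) (by rw [hP]; simp) f (by rw [hP]; simp [hf]) h)
    have c11 : ∀ e ∈ F1, ∀ f ∈ F1, e ≠ f → Meet D (T.w e.1) (T.w e.2) (T.w f.1) (T.w f.2) := by
      intro e he f hf hne
      have := W1.meet_of_fam hR1 hF1 he hf hne
      rw [hW1, hW1, hW1, hW1] at this
      exact this
    have c22 : ∀ e ∈ Q2, ∀ f ∈ Q2, e ≠ f → Meet D (T.w e.1) (T.w e.2) (T.w f.1) (T.w f.2) := by
      intro e he f hf hne
      obtain ⟨e', he', rfl⟩ := Finset.mem_image.1 he
      obtain ⟨f', hf', rfl⟩ := Finset.mem_image.1 hf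
      have hne' : e' ≠ f' := by rintro rfl; exact hne rfl
      have := W2.meet_of_fam hR2 hF2 he' hf' hne'
      rw [hW2, hW2, hW2, hW2] at this
      exact this
    intro e he f hf hne
    rw [hP, Finset.mem_insert, Finset.mem_union] at he hf
    rcases he with rfl | he | he <;> rcases hf with rfl | hf | hf
    · exact absurd rfl hne
    · exact (c10 f hf hne.symm).symm
    · exact c20 f hf hne
    · exact c10 e he hne
    · exact c11 e he f hf hne
    · exact c12 e he f hf hne
    · exact (c20 e he hne.symm).symm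
    · exact (c12 f hf e he hne.symm).symm
    · exact c22 e he f hf hne
  -- the path
  have hpath : ∀ k < n, (k, k + 1) ∈ P := by
    intro k hk
    rw [hP, Finset.mem_insert, Finset.mem_union]
    rcases lt_trichotomy k j with h | h | h
    · right; left
      exact (List.isChain_range _ m1).1 hF1.chain k (by omega)
    · left; rw [h]
    · right; right
      rw [hQ2, Finset.mem_image]
      refine ⟨(k - (j + 1), k - (j + 1) + 1), ?_, ?_⟩
      · exact (List.isChain_range _ m2).1 hF2.chain (k - (j + 1)) (by omega)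
      · ext <;> simp only <;> omega
  have hw_inj : ∀ x ∈ List.range n, ∀ y ∈ List.range n, T.w x = T.w y → x = y := by
    intro x hx y hy hxy
    rw [List.mem_range] at hx hy
    exact T.w_inj 0 x y (Nat.zero_le _) (by omega) (Nat.zero_le _) (by omega) hxy
  refine conclude hn E ?_ ?_ (by rw [hEc, hPc]) ((List.range n).map T.w) ?_ ?_ ?_
    (a := T.w 0) (b := T.w (n - 1)) ?_ ?_ ?_
  · intro e he
    obtain ⟨f, hf, rfl⟩ := Finset.mem_image.1 he
    have := hPb f hf
    rw [Sym2.mk_isDiag_iff]
    have h0 := hPne f hf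
    exact T.ne this.1 (by omega)
  · intro a b c d h1 h2 h3
    obtain ⟨e, he, he'⟩ := Finset.mem_image.1 h1
    obtain ⟨f, hf, hf'⟩ := Finset.mem_image.1 h2
    have hne : e ≠ f := by
      rintro rfl
      exact h3 (he'.symm.trans hf')
    have hm := hmeet e he f hf hne
    rw [Sym2.eq_iff] at he' hf'
    rcases he' with ⟨rfl, rfl⟩ | ⟨rfl, rfl⟩ <;> rcases hf' with ⟨rfl, rfl⟩ | ⟨rfl, rfl⟩
    · exact hm
    · exact hm.swap_right
    · exact hm.swap_left
    · exact hm.swap_left.swap_right
  · exact (List.nodup_map_iff_inj_on List.nodup_range).2 hw_inj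
  · intro v
    obtain ⟨k, hk, hkv⟩ := T.w_surj v
    rw [List.mem_map]
    exact ⟨k, by rwa [List.mem_range], hkv⟩
  · rw [List.isChain_map, List.isChain_range]
    intro k hk
    exact Finset.mem_image.2 ⟨(k, k + 1), hpath k (by omega), rfl⟩
  · rw [List.head?_map]
    have : (List.range n).head? = some 0 := by
      rw [List.head?_range]
      simp; omega
    rw [this]; rfl
  · rw [List.getLast?_map]
    have : (List.range n).getLast? = some (n - 1) := by
      rw [List.getLast?_range]
      simp; omega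
    rw [this]; rfl
  · have h4 := hpath (n - 1) (by omega)
    have e1 : n - 1 + 1 = n := by omega
    rw [e1] at h4
    have e2 : T.w n = T.w 0 := by have := T.w_per 0; rwa [zero_add] at this
    rw [← e2]
    exact Finset.mem_image.2 ⟨_, h4, rfl⟩

theorem of_stronglyCMonotone (hn : 3 ≤ n) (h : D.StronglyCMonotone) : D.HasPlaneHamiltonian := by
  classical
  obtain ⟨O, ⟨T⟩⟩ := exists_lift (by omega) h
  by_cases hlong : ∃ a, T.Good (a + 1) (a + n)
  · obtain ⟨a, ha⟩ := hlong
    obtain ⟨W, -⟩ := T.exists_win (a := a + 1) (b := a + n) (by omega) (by omega) ha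
    have : a + n - (a + 1) + 1 = n := by omega
    rw [this] at W
    exact caseA hn W
  push Not at hlong
  have hshort : ∀ a, T.Good a (a + 1) := fun a =>
    (T.good_or (a := a) (b := a + 1) (by omega) (by omega)).resolve_right (by
      have e : a + n = a + n := rfl
      exact hlong a)
  by_cases h0 : T.Good 0 (n - 1)
  · obtain ⟨W, -⟩ := T.exists_win (a := 0) (b := n - 1) (by omega) (by omega) h0
    have : n - 1 - 0 + 1 = n := by omega
    rw [this] at W
    exact caseA hn W
  -- the last `j` such that `0..j` is linear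
  obtain ⟨j, hj1, hjn, hj, hj'⟩ : ∃ j, 1 ≤ j ∧ j + 2 ≤ n ∧ T.Good 0 j ∧ ¬ T.Good 0 (j + 1) := by
    by_contra hcon
    push Not at hcon
    have : ∀ j, 1 ≤ j → j + 1 ≤ n → T.Good 0 j := by
      intro j hj1
      induction j, hj1 using Nat.le_induction with
      | base => intro _; exact hshort 0
      | succ j hj1 ih =>
        intro hle
        exact hcon j hj1 (by omega) (ih (by omega))
    exact h0 (this (n - 1) (by omega) (by omega))
  have h3 : T.Good (j + 1) n := by
    have := (T.good_or (a := 0) (b := j + 1) (by omega) (by omega)).resolve_left hj'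
    rwa [zero_add] at this
  exact caseB T hn hj1 hjn hj (hshort j) h3

end SimpleDraw
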