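import Mathlib

/-! # Two-strand nets: plane families with a Hamiltonian cycle for twisted crossing rules -/

namespace SimpleDraw.Tw

/-- the pairs `e`, `f` do not cross under the twisted rule given by `η` -/
def NC (η : ℕ → ℕ → Prop) (e f : ℕ × ℕ) : Prop :=
  e.1 = f.1 ∨ e.1 = f.2 ∨ e.2 = f.1 ∨ e.2 = f.2 ∨
  (e.1 < f.1 ∧ f.1 < e.2 ∧ e.2 < f.2) ∨ (f.1 < e.1 ∧ e.1 < f.2 ∧ f.2 < e.2) ∨
  (e.2 < f.1 ∧ (η e.1 f.1 ↔ η e.2 f.2)) ∨ (f.2 < e.1 ∧ (η f.1 e.1 ↔ η f.2 e.2)) ∨
  (e.1 < f.1 ∧ f.2 < e.2 ∧ ¬ (η e.1 f.2 ↔ η f.1 e.2)) ∨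
  (f.1 < e.1 ∧ e.2 < f.2 ∧ ¬ (η f.1 e.2 ↔ η e.1 f.2))

theorem NC.symm {η : ℕ → ℕ → Prop} {e f : ℕ × ℕ} (h : NC η e f) : NC η f e := by
  unfold NC at h ⊢
  rcases h with h | h | h | h | h | h | h | h | h | h
  · exact Or.inl h.symm
  · exact Or.inr (Or.inr (Or.inl h.symm))
  · exact Or.inr (Or.inl h.symm)
  · exact Or.inr (Or.inr (Or.inr (Or.inl h.symm)))
  · exact Or.inr (Or.inr (Or.inr (Or.inr (Or.inr (Or.inl h)))))
  · exact Or.inr (Or.inr (Or.inr (Or.inr (Or.inl h))))
  · exact Or.inr (Or.inr (Or.inr (Or.inr (Or.inr (Or.inr (Or.inr (Or.inl h)))))))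
  · exact Or.inr (Or.inr (Or.inr (Or.inr (Or.inr (Or.inr (Or.inl h))))))
  · exact Or.inr (Or.inr (Or.inr (Or.inr (Or.inr (Or.inr (Or.inr (Or.inr (Or.inr h))))))))
  · exact Or.inr (Or.inr (Or.inr (Or.inr (Or.inr (Or.inr (Or.inr (Or.inr (Or.inl h))))))))

theorem NC.not {η : ℕ → ℕ → Prop} {e f : ℕ × ℕ} (h : NC η e f) :
    NC (fun i j => ¬ η i j) e f := by
  unfold NC at h ⊢
  simp only [not_iff_not]
  exact h

/-- adjacency in the family -/
def Rel (F : Finset (ℕ × ℕ)) (u v : ℕ) : Prop := (u, v) ∈ F ∨ (v, u) ∈ F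

theorem Rel.symm {F : Finset (ℕ × ℕ)} {u v : ℕ} (h : Rel F u v) : Rel F v u := Or.symm h

theorem Rel.mono {F G : Finset (ℕ × ℕ)} (hFG : F ⊆ G) {u v : ℕ} (h : Rel F u v) : Rel G u v :=
  h.imp (fun h => hFG h) (fun h => hFG h)

/-- `v` can be reached on the first side of the family -/
def AccX (η : ℕ → ℕ → Prop) (F : Finset (ℕ × ℕ)) (v : ℕ) : Prop :=
  ∀ e ∈ F, (e.2 < v → η e.1 v) ∧ (v < e.1 → ¬ η v e.2)

/-- `v` can be reached on the second side of the family -/
def AccY (η : ℕ → ℕ → Prop) (F : Finset (ℕ × ℕ)) (v : ℕ) : Prop :=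
  ∀ e ∈ F, (e.2 < v → ¬ η e.1 v) ∧ (v < e.1 → η v e.2)

/-- a plane family with `2k-3` edges on the `k` vertices `a..b`, spanned by two strands `A`, `B`
from `x`, `x'` to `y`, `y'` -/
structure Net (η : ℕ → ℕ → Prop) (a b : ℕ) (F : Finset (ℕ × ℕ)) (A B : List ℕ)
    (x x' y y' : ℕ) : Prop where
  mem : ∀ e ∈ F, a ≤ e.1 ∧ e.1 < e.2 ∧ e.2 ≤ b
  nc : ∀ e ∈ F, ∀ f ∈ F, e ≠ f → NC η e f
  card : F.card + 3 = 2 * (b + 1 - a)
  hx : A.head? = some x
  hx' : B.head? = some x'
  hy : A.getLast? = some y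
  hy' : B.getLast? = some y'
  nodup : (A ++ B).Nodup
  cover : ∀ v, v ∈ A ++ B ↔ a ≤ v ∧ v ≤ b
  chA : A.IsChain (Rel F)
  chB : B.IsChain (Rel F)
  rx : Rel F x x'
  ry : Rel F y y'
  ax : AccX η F x
  ax' : AccX η F x'
  ay : AccY η F y
  ay' : AccY η F y'

def HasNet (η : ℕ → ℕ → Prop) (a b : ℕ) : Prop :=
  ∃ (F : Finset (ℕ × ℕ)) (A B : List ℕ) (x x' y y' : ℕ), Net η a b F A B x x' y y'

variable {η : ℕ → ℕ → Prop} {a b m : ℕ} {F : Finset (ℕ × ℕ)} {A B : List ℕ} {x x' y y' : ℕ}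

theorem Net.swap (h : Net η a b F A B x x' y y') : Net η a b F B A x' x y' y where
  mem := h.mem
  nc := h.nc
  card := h.card
  hx := h.hx'
  hx' := h.hx
  hy := h.hy'
  hy' := h.hy
  nodup := List.nodup_append_comm.1 h.nodup
  cover := fun v => by
    rw [← h.cover v, List.mem_append, List.mem_append]
    exact Or.comm
  chA := h.chB
  chB := h.chA
  rx := h.rx.symm
  ry := h.ry.symm
  ax := h.ax'
  ax' := h.ax
  ay := h.ay'
  ay' := h.ay

theorem chain_reverse {F : Finset (ℕ × ℕ)} {A : List ℕ} (h : A.IsChain (Rel F)) :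
    A.reverse.IsChain (Rel F) := by
  rw [List.isChain_reverse]
  exact h.imp fun _ _ h => Rel.symm h

theorem Net.flip (h : Net η a b F A B x x' y y') :
    Net (fun i j => ¬ η i j) a b F A.reverse B.reverse y y' x x' where
  mem := h.mem
  nc := fun e he f hf hne => (h.nc e he f hf hne).not
  card := h.card
  hx := by rw [List.head?_reverse]; exact h.hy
  hx' := by rw [List.head?_reverse]; exact h.hy'
  hy := by rw [List.getLast?_reverse]; exact h.hx
  hy' := by rw [List.getLast?_reverse]; exact h.hx'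
  nodup := by
    rw [List.nodup_append]
    have := h.nodup
    rw [List.nodup_append] at this
    refine ⟨List.nodup_reverse.2 this.1, List.nodup_reverse.2 this.2.1, ?_⟩
    intro u hu v hv
    exact this.2.2 u (List.mem_reverse.1 hu) v (List.mem_reverse.1 hv)
  cover := fun v => by
    rw [← h.cover v, List.mem_append, List.mem_append, List.mem_reverse, List.mem_reverse]
  chA := chain_reverse h.chA
  chB := chain_reverse h.chB
  rx := h.ry
  ry := h.rx
  ax := fun e he => ⟨(h.ay e he).1, fun hv => not_not.2 ((h.ay e he).2 hv)⟩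
  ax' := fun e he => ⟨(h.ay' e he).1, fun hv => not_not.2 ((h.ay' e he).2 hv)⟩
  ay := fun e he => ⟨fun hv => not_not.2 ((h.ax e he).1 hv), (h.ax e he).2⟩
  ay' := fun e he => ⟨fun hv => not_not.2 ((h.ax' e he).1 hv), (h.ax' e he).2⟩

theorem HasNet.flip (h : HasNet η a b) : HasNet (fun i j => ¬ η i j) a b := by
  obtain ⟨F, A, B, x, x', y, y', h⟩ := h
  exact ⟨F, _, _, _, _, _, _, h.flip⟩

theorem HasNet.unflip (h : HasNet (fun i j => ¬ η i j) a b) : HasNet η a b := by
  have := h.flip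
  simpa only [not_not] using this

theorem Net.ne_y (h : Net η a b F A B x x' y y') : y ≠ y' := by
  have := h.nodup
  rw [List.nodup_append] at this
  exact this.2.2 y (List.mem_of_getLast? h.hy) y' (List.mem_of_getLast? h.hy')

theorem Net.ne_x (h : Net η a b F A B x x' y y') : x ≠ x' := by
  have := h.nodup
  rw [List.nodup_append] at this
  exact this.2.2 x (List.mem_of_head? h.hx) x' (List.mem_of_head? h.hx')

theorem Net.bx (h : Net η a b F A B x x' y y') : a ≤ x ∧ x ≤ b :=
  (h.cover x).1 (List.mem_append_left _ (List.mem_of_head? h.hx))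

theorem Net.bx' (h : Net η a b F A B x x' y y') : a ≤ x' ∧ x' ≤ b :=
  (h.cover x').1 (List.mem_append_right _ (List.mem_of_head? h.hx'))

theorem Net.by_ (h : Net η a b F A B x x' y y') : a ≤ y ∧ y ≤ b :=
  (h.cover y).1 (List.mem_append_left _ (List.mem_of_getLast? h.hy))

theorem Net.by_' (h : Net η a b F A B x x' y y') : a ≤ y' ∧ y' ≤ b :=
  (h.cover y').1 (List.mem_append_right _ (List.mem_of_getLast? h.hy'))

/-- a net whose second ports are in increasing order -/
theorem HasNet.ordY (h : HasNet η a b) : ∃ (F : Finset (ℕ × ℕ)) (A B : List ℕ) (x x' y y' : ℕ),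
    Net η a b F A B x x' y y' ∧ y < y' := by
  obtain ⟨F, A, B, x, x', y, y', h⟩ := h
  rcases lt_or_gt_of_ne h.ne_y with h1 | h1
  · exact ⟨F, A, B, x, x', y, y', h, h1⟩
  · exact ⟨F, B, A, x', x, y', y, h.swap, h1⟩

/-- a net whose first ports are in increasing order -/
theorem HasNet.ordX (h : HasNet η a b) : ∃ (F : Finset (ℕ × ℕ)) (A B : List ℕ) (x x' y y' : ℕ),
    Net η a b F A B x x' y y' ∧ x < x' := by
  obtain ⟨F, A, B, x, x', y, y', h⟩ := h
  rcases lt_or_gt_of_ne h.ne_x with h1 | h1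
  · exact ⟨F, A, B, x, x', y, y', h, h1⟩
  · exact ⟨F, B, A, x', x, y', y, h.swap, h1⟩

/-- the union of two families on consecutive ranges with connecting edges -/
theorem union_nc {F1 F2 N : Finset (ℕ × ℕ)}
    (hm1 : ∀ e ∈ F1, a ≤ e.1 ∧ e.1 < e.2 ∧ e.2 ≤ m)
    (hm2 : ∀ e ∈ F2, m + 1 ≤ e.1 ∧ e.1 < e.2 ∧ e.2 ≤ b)
    (hmN : ∀ e ∈ N, a ≤ e.1 ∧ e.1 ≤ m ∧ m + 1 ≤ e.2 ∧ e.2 ≤ b)
    (hn1 : ∀ e ∈ F1, ∀ f ∈ F1, e ≠ f → NC η e f) (hn2 : ∀ e ∈ F2, ∀ f ∈ F2, e ≠ f → NC η e f)
    (hnN : ∀ e ∈ N, ∀ f ∈ N, e ≠ f → NC η e f)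
    (hy : ∀ e ∈ N, AccY η F1 e.1) (hx : ∀ e ∈ N, AccX η F2 e.2)
    (hc : ∀ i l, a ≤ i → i ≤ m → m + 1 ≤ l → l ≤ b → i + 2 ≤ l → ¬ η i l) :
    ∀ e ∈ F1 ∪ F2 ∪ N, ∀ f ∈ F1 ∪ F2 ∪ N, e ≠ f → NC η e f := by
  have c12 : ∀ e ∈ F1, ∀ f ∈ F2, NC η e f := by
    intro e he f hf
    obtain ⟨a1, a2, a3⟩ := hm1 e he
    obtain ⟨b1, b2, b3⟩ := hm2 f hf
    have h1 := hc e.1 f.1 (by omega) (by omega) (by omega) (by omega) (by omega)
    have h2 := hc e.2 f.2 (by omega) (by omega) (by omega) (by omega) (by omega)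
    exact Or.inr (Or.inr (Or.inr (Or.inr (Or.inr (Or.inr (Or.inl ⟨by omega,
      iff_of_false h1 h2⟩))))))
  have c1N : ∀ e ∈ F1, ∀ f ∈ N, NC η e f := by
    intro e he f hf
    obtain ⟨a1, a2, a3⟩ := hm1 e he
    obtain ⟨b1, b2, b3, b4⟩ := hmN f hf
    obtain ⟨k1, k2⟩ := hy f hf e he
    by_cases s1 : e.1 = f.1
    · exact Or.inl s1
    by_cases s2 : e.2 = f.1
    · exact Or.inr (Or.inr (Or.inl s2))
    rcases lt_or_gt_of_ne s2 with s3 | s3
    · have h2 := hc e.2 f.2 (by omega) (by omega) (by omega) (by omega) (by omega)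
      exact Or.inr (Or.inr (Or.inr (Or.inr (Or.inr (Or.inr (Or.inl ⟨s3,
        iff_of_false (k1 s3) h2⟩))))))
    · rcases lt_or_gt_of_ne s1 with s4 | s4
      · exact Or.inr (Or.inr (Or.inr (Or.inr (Or.inl ⟨s4, s3, by omega⟩))))
      · have h2 := hc e.1 f.2 (by omega) (by omega) (by omega) (by omega) (by omega)
        exact Or.inr (Or.inr (Or.inr (Or.inr (Or.inr (Or.inr (Or.inr (Or.inr (Or.inr
          ⟨s4, by omega, fun h => h2 (h.1 (k2 s4))⟩))))))))
  have c2N : ∀ e ∈ F2, ∀ f ∈ N, NC η e f := by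
    intro e he f hf
    obtain ⟨a1, a2, a3⟩ := hm2 e he
    obtain ⟨b1, b2, b3, b4⟩ := hmN f hf
    obtain ⟨k1, k2⟩ := hx f hf e he
    by_cases s1 : e.1 = f.2
    · exact Or.inr (Or.inl s1)
    by_cases s2 : e.2 = f.2
    · exact Or.inr (Or.inr (Or.inr (Or.inl s2)))
    rcases lt_or_gt_of_ne s1 with s3 | s3
    · rcases lt_or_gt_of_ne s2 with s4 | s4
      · have h2 := hc f.1 e.2 (by omega) (by omega) (by omega) (by omega) (by omega)
        exact Or.inr (Or.inr (Or.inr (Or.inr (Or.inr (Or.inr (Or.inr (Or.inr (Or.inr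
          ⟨by omega, s4, fun h => h2 (h.2 (k1 s4))⟩))))))))
      · exact Or.inr (Or.inr (Or.inr (Or.inr (Or.inr (Or.inl ⟨by omega, s3, s4⟩)))))
    · have h2 := hc f.1 e.1 (by omega) (by omega) (by omega) (by omega) (by omega)
      exact Or.inr (Or.inr (Or.inr (Or.inr (Or.inr (Or.inr (Or.inr (Or.inl ⟨s3,
        iff_of_false h2 (k2 s3)⟩)))))))
  intro e he f hf hne
  rw [Finset.mem_union, Finset.mem_union] at he hf
  rcases he with (he | he) | he <;> rcases hf with (hf | hf) | hf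
  · exact hn1 e he f hf hne
  · exact c12 e he f hf
  · exact c1N e he f hf
  · exact (c12 f hf e he).symm
  · exact hn2 e he f hf hne
  · exact c2N e he f hf
  · exact (c1N f hf e he).symm
  · exact (c2N f hf e he).symm
  · exact hnN e he f hf hne

theorem accX_left {F1 F2 N : Finset (ℕ × ℕ)}
    (hm2 : ∀ e ∈ F2, m + 1 ≤ e.1 ∧ e.1 < e.2 ∧ e.2 ≤ b)
    (hmN : ∀ e ∈ N, a ≤ e.1 ∧ e.1 ≤ m ∧ m + 1 ≤ e.2 ∧ e.2 ≤ b)
    (hc : ∀ i l, a ≤ i → i ≤ m → m + 1 ≤ l → l ≤ b → i + 2 ≤ l → ¬ η i l) {v : ℕ}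
    (h1 : a ≤ v) (h2 : v ≤ m) (h : AccX η F1 v) : AccX η (F1 ∪ F2 ∪ N) v := by
  intro e he
  rw [Finset.mem_union, Finset.mem_union] at he
  rcases he with (he | he) | he
  · exact h e he
  · obtain ⟨a1, a2, a3⟩ := hm2 e he
    exact ⟨fun hh => absurd hh (by omega), fun hh => hc _ _ (by omega) (by omega) (by omega)
      (by omega) (by omega)⟩
  · obtain ⟨a1, a2, a3, a4⟩ := hmN e he
    exact ⟨fun hh => absurd hh (by omega), fun hh => hc _ _ (by omega) (by omega) (by omega)
      (by omega) (by omega)⟩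

theorem accY_right {F1 F2 N : Finset (ℕ × ℕ)}
    (hm1 : ∀ e ∈ F1, a ≤ e.1 ∧ e.1 < e.2 ∧ e.2 ≤ m)
    (hmN : ∀ e ∈ N, a ≤ e.1 ∧ e.1 ≤ m ∧ m + 1 ≤ e.2 ∧ e.2 ≤ b)
    (hc : ∀ i l, a ≤ i → i ≤ m → m + 1 ≤ l → l ≤ b → i + 2 ≤ l → ¬ η i l) {v : ℕ}
    (h1 : m + 1 ≤ v) (h2 : v ≤ b) (h : AccY η F2 v) : AccY η (F1 ∪ F2 ∪ N) v := by
  intro e he
  rw [Finset.mem_union, Finset.mem_union] at he
  rcases he with (he | he) | he
  · obtain ⟨a1, a2, a3⟩ := hm1 e he
    exact ⟨fun hh => hc _ _ (by omega) (by omega) (by omega)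
      (by omega) (by omega), fun hh => absurd hh (by omega)⟩
  · exact h e he
  · obtain ⟨a1, a2, a3, a4⟩ := hmN e he
    exact ⟨fun hh => hc _ _ (by omega) (by omega) (by omega)
      (by omega) (by omega), fun hh => absurd hh (by omega)⟩

/-- two nets in series -/
theorem join (ham : a ≤ m) (hmb : m + 1 ≤ b) (h1 : HasNet η a m) (h2 : HasNet η (m + 1) b)
    (hc : ∀ i l, a ≤ i → i ≤ m → m + 1 ≤ l → l ≤ b → i + 2 ≤ l → ¬ η i l) : HasNet η a b := by
  obtain ⟨F1, A1, B1, x1, x1', y1, y1', n1, hy⟩ := h1.ordY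
  obtain ⟨F2, A2, B2, x2, x2', y2, y2', n2, hx⟩ := h2.ordX
  have by1 := n1.by_
  have by1' := n1.by_'
  have bx2 := n2.bx
  have bx2' := n2.bx'
  set N : Finset (ℕ × ℕ) := {(y1, x2), (y1', x2'), (y1, x2')} with hN
  have hNm : ∀ e, e ∈ N ↔ e = (y1, x2) ∨ e = (y1', x2') ∨ e = (y1, x2') := by
    intro e; simp [hN]
  have hmN : ∀ e ∈ N, a ≤ e.1 ∧ e.1 ≤ m ∧ m + 1 ≤ e.2 ∧ e.2 ≤ b := by
    intro e he
    rcases (hNm e).1 he with rfl | rfl | rfl <;> simp only <;> omega
  have hNc : N.card = 3 := by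
    rw [hN, Finset.card_insert_of_notMem, Finset.card_insert_of_notMem, Finset.card_singleton]
    · simp only [Finset.mem_singleton, Prod.mk.injEq]; omega
    · simp only [Finset.mem_insert, Finset.mem_singleton, Prod.mk.injEq]; omega
  have hF : ∀ e ∈ F1 ∪ F2 ∪ N, a ≤ e.1 ∧ e.1 < e.2 ∧ e.2 ≤ b := by
    intro e he
    rw [Finset.mem_union, Finset.mem_union] at he
    rcases he with (he | he) | he
    · have := n1.mem e he; omega
    · have := n2.mem e he; omega
    · have := hmN e he; omega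
  have hcard : (F1 ∪ F2 ∪ N).card = F1.card + F2.card + N.card := by
    rw [Finset.card_union_of_disjoint, Finset.card_union_of_disjoint]
    · rw [Finset.disjoint_left]
      intro e he he'
      have := n1.mem e he
      have := n2.mem e he'
      omega
    · rw [Finset.disjoint_left]
      intro e he he'
      have h3 := hmN e he'
      rw [Finset.mem_union] at he
      rcases he with he | he
      · have := n1.mem e he; omega
      · have := n2.mem e he; omega
  have hs1 : F1 ⊆ F1 ∪ F2 ∪ N := fun e he => by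
    rw [Finset.mem_union, Finset.mem_union]; exact Or.inl (Or.inl he)
  have hs2 : F2 ⊆ F1 ∪ F2 ∪ N := fun e he => by
    rw [Finset.mem_union, Finset.mem_union]; exact Or.inl (Or.inr he)
  have hsN : N ⊆ F1 ∪ F2 ∪ N := fun e he => by
    rw [Finset.mem_union]; exact Or.inr he
  refine ⟨F1 ∪ F2 ∪ N, A1 ++ A2, B1 ++ B2, x1, x1', y2, y2', ?_⟩
  refine
  { mem := hF
    nc := ?_
    card := ?_
    hx := ?_
    hx' := ?_
    hy := ?_
    hy' := ?_
    nodup := ?_
    cover := ?_
    chA := ?_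
    chB := ?_
    rx := n1.rx.mono hs1
    ry := n2.ry.mono hs2
    ax := accX_left n2.mem hmN hc n1.bx.1 n1.bx.2 n1.ax
    ax' := accX_left n2.mem hmN hc n1.bx'.1 n1.bx'.2 n1.ax'
    ay := accY_right n1.mem hmN hc n2.by_.1 n2.by_.2 n2.ay
    ay' := accY_right n1.mem hmN hc n2.by_'.1 n2.by_'.2 n2.ay' }
  · refine union_nc n1.mem n2.mem hmN n1.nc n2.nc ?_ ?_ ?_ hc
    · intro e he f hf hne
      rcases (hNm e).1 he with rfl | rfl | rfl <;> rcases (hNm f).1 hf with rfl | rfl | rfl
      · exact absurd rfl hne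
      · exact Or.inr (Or.inr (Or.inr (Or.inr (Or.inl ⟨hy, by simp only; omega, hx⟩))))
      · exact Or.inl rfl
      · exact Or.inr (Or.inr (Or.inr (Or.inr (Or.inr (Or.inl ⟨hy, by simp only; omega, hx⟩)))))
      · exact absurd rfl hne
      · exact Or.inr (Or.inr (Or.inr (Or.inl rfl)))
      · exact Or.inl rfl
      · exact Or.inr (Or.inr (Or.inr (Or.inl rfl)))
      · exact absurd rfl hne
    · intro e he
      rcases (hNm e).1 he with rfl | rfl | rfl
      · exact n1.ay
      · exact n1.ay'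
      · exact n1.ay
    · intro e he
      rcases (hNm e).1 he with rfl | rfl | rfl
      · exact n2.ax
      · exact n2.ax'
      · exact n2.ax'
  · rw [hcard, hNc]
    have := n1.card
    have := n2.card
    omega
  · rw [List.head?_append, n1.hx]; rfl
  · rw [List.head?_append, n1.hx']; rfl
  · rw [List.getLast?_append, n2.hy]; rfl
  · rw [List.getLast?_append, n2.hy']; rfl
  · have d1 := n1.nodup
    have d2 := n2.nodup
    have c1 := n1.cover
    have c2 := n2.cover
    rw [List.nodup_append] at d1 d2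
    rw [List.nodup_append, List.nodup_append, List.nodup_append]
    refine ⟨⟨d1.1, d2.1, ?_⟩, ⟨d1.2.1, d2.2.1, ?_⟩, ?_⟩
    · rintro u hu v hv rfl
      have e1 := (c1 u).1 (List.mem_append_left _ hu)
      have e2 := (c2 u).1 (List.mem_append_left _ hv)
      omega
    · rintro u hu v hv rfl
      have e1 := (c1 u).1 (List.mem_append_right _ hu)
      have e2 := (c2 u).1 (List.mem_append_right _ hv)
      omega
    · rintro u hu v hv rfl
      rw [List.mem_append] at hu hv
      rcases hu with hu | hu <;> rcases hv with hv | hv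
      · exact d1.2.2 u hu u hv rfl
      · have e1 := (c1 u).1 (List.mem_append_left _ hu)
        have e2 := (c2 u).1 (List.mem_append_right _ hv)
        omega
      · have e1 := (c1 u).1 (List.mem_append_right _ hv)
        have e2 := (c2 u).1 (List.mem_append_left _ hu)
        omega
      · exact d2.2.2 u hu u hv rfl
  · intro v
    have c1 := n1.cover v
    have c2 := n2.cover v
    rw [List.mem_append] at c1 c2
    rw [List.mem_append, List.mem_append, List.mem_append]
    constructor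
    · rintro ((h | h) | (h | h))
      · have := c1.1 (Or.inl h); omega
      · have := c2.1 (Or.inl h); omega
      · have := c1.1 (Or.inr h); omega
      · have := c2.1 (Or.inr h); omega
    · rintro ⟨h3, h4⟩
      rcases Nat.lt_or_ge m v with h5 | h5
      · rcases c2.2 ⟨h5, h4⟩ with h | h
        · exact Or.inl (Or.inr h)
        · exact Or.inr (Or.inr h)
      · rcases c1.2 ⟨h3, h5⟩ with h | h
        · exact Or.inl (Or.inl h)
        · exact Or.inr (Or.inl h)
  · rw [List.isChain_append]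
    refine ⟨n1.chA.imp fun _ _ h => h.mono hs1, n2.chA.imp fun _ _ h => h.mono hs2, ?_⟩
    intro u hu v hv
    rw [n1.hy] at hu
    rw [n2.hx] at hv
    simp only [Option.mem_def, Option.some.injEq] at hu hv
    subst hu; subst hv
    exact Or.inl (hsN ((hNm _).2 (Or.inl rfl)))
  · rw [List.isChain_append]
    refine ⟨n1.chB.imp fun _ _ h => h.mono hs1, n2.chB.imp fun _ _ h => h.mono hs2, ?_⟩
    intro u hu v hv
    rw [n1.hy'] at hu
    rw [n2.hx'] at hv
    simp only [Option.mem_def, Option.some.injEq] at hu hv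
    subst hu; subst hv
    exact Or.inl (hsN ((hNm _).2 (Or.inr (Or.inl rfl))))

/-- a net and a single vertex after it -/
theorem joinR (ham : a ≤ m) (h1 : HasNet η a m)
    (hc : ∀ i l, a ≤ i → i ≤ m → m + 1 ≤ l → l ≤ m + 1 → i + 2 ≤ l → ¬ η i l) :
    HasNet η a (m + 1) := by
  obtain ⟨F1, A1, B1, x1, x1', y1, y1', n1, hy⟩ := h1.ordY
  have by1 := n1.by_
  have by1' := n1.by_'
  set N : Finset (ℕ × ℕ) := {(y1, m + 1), (y1', m + 1)} with hN
  have hNm : ∀ e, e ∈ N ↔ e = (y1, m + 1) ∨ e = (y1', m + 1) := by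
    intro e; simp [hN]
  have hmN : ∀ e ∈ N, a ≤ e.1 ∧ e.1 ≤ m ∧ m + 1 ≤ e.2 ∧ e.2 ≤ m + 1 := by
    intro e he
    rcases (hNm e).1 he with rfl | rfl <;> simp only <;> omega
  have hNc : N.card = 2 := by
    rw [hN, Finset.card_pair]
    simp only [ne_eq, Prod.mk.injEq]; omega
  set F2 : Finset (ℕ × ℕ) := ∅ with hF2
  have hm2 : ∀ e ∈ F2, m + 1 ≤ e.1 ∧ e.1 < e.2 ∧ e.2 ≤ m + 1 := by
    intro e he; simp [hF2] at he
  have hF : ∀ e ∈ F1 ∪ F2 ∪ N, a ≤ e.1 ∧ e.1 < e.2 ∧ e.2 ≤ m + 1 := by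
    intro e he
    rw [Finset.mem_union, Finset.mem_union] at he
    rcases he with (he | he) | he
    · have := n1.mem e he; omega
    · have := hm2 e he; omega
    · have := hmN e he; omega
  have hcard : (F1 ∪ F2 ∪ N).card = F1.card + N.card := by
    rw [hF2, Finset.union_empty, Finset.card_union_of_disjoint]
    rw [Finset.disjoint_left]
    intro e he he'
    have h3 := hmN e he'
    have := n1.mem e he
    omega
  have hs1 : F1 ⊆ F1 ∪ F2 ∪ N := fun e he => by
    rw [Finset.mem_union, Finset.mem_union]; exact Or.inl (Or.inl he)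
  have hsN : N ⊆ F1 ∪ F2 ∪ N := fun e he => by
    rw [Finset.mem_union]; exact Or.inr he
  refine ⟨F1 ∪ F2 ∪ N, A1 ++ [m + 1], B1, x1, x1', m + 1, y1', ?_⟩
  refine
  { mem := hF
    nc := ?_
    card := ?_
    hx := ?_
    hx' := n1.hx'
    hy := ?_
    hy' := n1.hy'
    nodup := ?_
    cover := ?_
    chA := ?_
    chB := n1.chB.imp fun _ _ h => h.mono hs1
    rx := n1.rx.mono hs1
    ry := Or.inr (hsN ((hNm _).2 (Or.inr rfl)))
    ax := accX_left hm2 hmN hc n1.bx.1 n1.bx.2 n1.ax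
    ax' := accX_left hm2 hmN hc n1.bx'.1 n1.bx'.2 n1.ax'
    ay := accY_right n1.mem hmN hc le_rfl le_rfl (fun e he => by simp [hF2] at he)
    ay' := ?_ }
  · refine union_nc n1.mem hm2 hmN n1.nc (fun e he => by simp [hF2] at he) ?_ ?_ ?_ hc
    · intro e he f hf hne
      rcases (hNm e).1 he with rfl | rfl <;> rcases (hNm f).1 hf with rfl | rfl
      · exact absurd rfl hne
      · exact Or.inr (Or.inr (Or.inr (Or.inl rfl)))
      · exact Or.inr (Or.inr (Or.inr (Or.inl rfl)))
      · exact absurd rfl hne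
    · intro e he
      rcases (hNm e).1 he with rfl | rfl
      · exact n1.ay
      · exact n1.ay'
    · intro e _ f hf
      simp [hF2] at hf
  · rw [hcard, hNc]
    have := n1.card
    omega
  · rw [List.head?_append, n1.hx]; rfl
  · rw [List.getLast?_append]; rfl
  · have d1 := n1.nodup
    have c1 := n1.cover
    rw [List.nodup_append] at d1
    rw [List.nodup_append, List.nodup_append]
    refine ⟨⟨d1.1, by simp, ?_⟩, d1.2.1, ?_⟩
    · rintro u hu v hv rfl
      rw [List.mem_singleton] at hv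
      have e1 := (c1 u).1 (List.mem_append_left _ hu)
      omega
    · rintro u hu v hv rfl
      rw [List.mem_append, List.mem_singleton] at hu
      rcases hu with hu | hu
      · exact d1.2.2 u hu u hv rfl
      · have e1 := (c1 u).1 (List.mem_append_right _ hv)
        omega
  · intro v
    have c1 := n1.cover v
    rw [List.mem_append] at c1
    rw [List.mem_append, List.mem_append, List.mem_singleton]
    constructor
    · rintro ((h | h) | h)
      · have := c1.1 (Or.inl h); omega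
      · omega
      · have := c1.1 (Or.inr h); omega
    · rintro ⟨h3, h4⟩
      rcases Nat.lt_or_ge m v with h5 | h5
      · exact Or.inl (Or.inr (by omega))
      · rcases c1.2 ⟨h3, h5⟩ with h | h
        · exact Or.inl (Or.inl h)
        · exact Or.inr h
  · rw [List.isChain_append]
    refine ⟨n1.chA.imp fun _ _ h => h.mono hs1, by simp, ?_⟩
    intro u hu v hv
    rw [n1.hy] at hu
    simp only [List.head?_cons, Option.mem_def, Option.some.injEq] at hu hv
    subst hu; subst hv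
    exact Or.inl (hsN ((hNm _).2 (Or.inl rfl)))
  · intro e he
    rw [Finset.mem_union, Finset.mem_union] at he
    rcases he with (he | he) | he
    · exact n1.ay' e he
    · simp [hF2] at he
    · rcases (hNm e).1 he with rfl | rfl
      · exact ⟨fun h => absurd h (by simp only; omega), fun h => absurd h (by simp only; omega)⟩
      · exact ⟨fun h => absurd h (by simp only; omega), fun h => absurd h (by simp only; omega)⟩

/-- a single vertex and a net after it -/
theorem joinL (hab : a + 1 ≤ b) (h2 : HasNet η (a + 1) b)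
    (hc : ∀ i l, a ≤ i → i ≤ a → a + 1 ≤ l → l ≤ b → i + 2 ≤ l → ¬ η i l) :
    HasNet η a b := by
  obtain ⟨F2, A2, B2, x2, x2', y2, y2', n2, hx⟩ := h2.ordX
  have bx2 := n2.bx
  have bx2' := n2.bx'
  set N : Finset (ℕ × ℕ) := {(a, x2), (a, x2')} with hN
  have hNm : ∀ e, e ∈ N ↔ e = (a, x2) ∨ e = (a, x2') := by
    intro e; simp [hN]
  have hmN : ∀ e ∈ N, a ≤ e.1 ∧ e.1 ≤ a ∧ a + 1 ≤ e.2 ∧ e.2 ≤ b := by
    intro e he
    rcases (hNm e).1 he with rfl | rfl <;> simp only <;> omega
  have hNc : N.card = 2 := by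
    rw [hN, Finset.card_pair]
    simp only [ne_eq, Prod.mk.injEq]; omega
  set F1 : Finset (ℕ × ℕ) := ∅ with hF1
  have hm1 : ∀ e ∈ F1, a ≤ e.1 ∧ e.1 < e.2 ∧ e.2 ≤ a := by
    intro e he; simp [hF1] at he
  have hF : ∀ e ∈ F1 ∪ F2 ∪ N, a ≤ e.1 ∧ e.1 < e.2 ∧ e.2 ≤ b := by
    intro e he
    rw [Finset.mem_union, Finset.mem_union] at he
    rcases he with (he | he) | he
    · have := hm1 e he; omega
    · have := n2.mem e he; omega
    · have := hmN e he; omega
  have hcard : (F1 ∪ F2 ∪ N).card = F2.card + N.card := by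
    rw [hF1, Finset.empty_union, Finset.card_union_of_disjoint]
    rw [Finset.disjoint_left]
    intro e he he'
    have h3 := hmN e he'
    have := n2.mem e he
    omega
  have hs2 : F2 ⊆ F1 ∪ F2 ∪ N := fun e he => by
    rw [Finset.mem_union, Finset.mem_union]; exact Or.inl (Or.inr he)
  have hsN : N ⊆ F1 ∪ F2 ∪ N := fun e he => by
    rw [Finset.mem_union]; exact Or.inr he
  refine ⟨F1 ∪ F2 ∪ N, A2, a :: B2, x2, a, y2, y2', ?_⟩
  refine
  { mem := hF
    nc := ?_
    card := ?_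
    hx := n2.hx
    hx' := rfl
    hy := n2.hy
    hy' := ?_
    nodup := ?_
    cover := ?_
    chA := n2.chA.imp fun _ _ h => h.mono hs2
    chB := ?_
    rx := Or.inr (hsN ((hNm _).2 (Or.inl rfl)))
    ry := n2.ry.mono hs2
    ax := ?_
    ax' := accX_left n2.mem hmN hc le_rfl le_rfl (fun e he => by simp [hF1] at he)
    ay := accY_right hm1 hmN hc n2.by_.1 n2.by_.2 n2.ay
    ay' := accY_right hm1 hmN hc n2.by_'.1 n2.by_'.2 n2.ay' }
  · refine union_nc hm1 n2.mem hmN (fun e he => by simp [hF1] at he) n2.nc ?_ ?_ ?_ hc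
    · intro e he f hf hne
      rcases (hNm e).1 he with rfl | rfl <;> rcases (hNm f).1 hf with rfl | rfl
      · exact absurd rfl hne
      · exact Or.inl rfl
      · exact Or.inl rfl
      · exact absurd rfl hne
    · intro e _ f hf
      simp [hF1] at hf
    · intro e he
      rcases (hNm e).1 he with rfl | rfl
      · exact n2.ax
      · exact n2.ax'
  · rw [hcard, hNc]
    have := n2.card
    omega
  · rw [List.getLast?_cons, n2.hy']; rfl
  · have d2 := n2.nodup
    have c2 := n2.cover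
    rw [List.nodup_append] at d2
    rw [List.nodup_append, List.nodup_cons]
    refine ⟨d2.1, ⟨?_, d2.2.1⟩, ?_⟩
    · intro h
      have e1 := (c2 a).1 (List.mem_append_right _ h)
      omega
    · rintro u hu v hv rfl
      rw [List.mem_cons] at hv
      rcases hv with hv | hv
      · have e1 := (c2 u).1 (List.mem_append_left _ hu)
        omega
      · exact d2.2.2 u hu u hv rfl
  · intro v
    have c2 := n2.cover v
    rw [List.mem_append] at c2
    rw [List.mem_append, List.mem_cons]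
    constructor
    · rintro (h | h | h)
      · have := c2.1 (Or.inl h); omega
      · omega
      · have := c2.1 (Or.inr h); omega
    · rintro ⟨h3, h4⟩
      rcases Nat.lt_or_ge a v with h5 | h5
      · rcases c2.2 ⟨h5, h4⟩ with h | h
        · exact Or.inl h
        · exact Or.inr (Or.inr h)
      · exact Or.inr (Or.inl (by omega))
  · rw [List.isChain_cons]
    refine ⟨?_, n2.chB.imp fun _ _ h => h.mono hs2⟩
    intro v hv
    rw [n2.hx'] at hv
    simp only [Option.mem_def, Option.some.injEq] at hv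
    subst hv
    exact Or.inl (hsN ((hNm _).2 (Or.inr rfl)))
  · intro e he
    rw [Finset.mem_union, Finset.mem_union] at he
    rcases he with (he | he) | he
    · simp [hF1] at he
    · exact n2.ax e he
    · rcases (hNm e).1 he with rfl | rfl
      · exact ⟨fun h => absurd h (by simp only; omega), fun h => absurd h (by simp only; omega)⟩
      · exact ⟨fun h => absurd h (by simp only; omega), fun h => absurd h (by simp only; omega)⟩

/-- two vertices -/
theorem base (η : ℕ → ℕ → Prop) (a : ℕ) : HasNet η a (a + 1) := by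
  have hm : ∀ e, e ∈ ({(a, a + 1)} : Finset (ℕ × ℕ)) ↔ e = (a, a + 1) := by intro e; simp
  refine ⟨{(a, a + 1)}, [a], [a + 1], a, a + 1, a, a + 1, ?_⟩
  refine
  { mem := fun e he => by rw [(hm e).1 he]; simp
    nc := fun e he f hf hne => absurd (((hm e).1 he).trans ((hm f).1 hf).symm) hne
    card := by rw [Finset.card_singleton]; omega
    hx := rfl
    hx' := rfl
    hy := rfl
    hy' := rfl
    nodup := by simp
    cover := fun v => by simp only [List.cons_append, List.nil_append, List.mem_cons,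
                  List.not_mem_nil, or_false]; omega
    chA := by simp
    chB := by simp
    rx := Or.inl ((hm _).2 rfl)
    ry := Or.inl ((hm _).2 rfl)
    ax := fun e he => by
      rw [(hm e).1 he]
      exact ⟨fun h => absurd h (by simp only; omega), fun h => absurd h (by simp only; omega)⟩
    ax' := fun e he => by
      rw [(hm e).1 he]
      exact ⟨fun h => absurd h (by simp only; omega), fun h => absurd h (by simp only; omega)⟩
    ay := fun e he => by
      rw [(hm e).1 he]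
      exact ⟨fun h => absurd h (by simp only; omega), fun h => absurd h (by simp only; omega)⟩
    ay' := fun e he => by
      rw [(hm e).1 he]
      exact ⟨fun h => absurd h (by simp only; omega), fun h => absurd h (by simp only; omega)⟩ }

/-- the union rule: overlapping ranges with the same value -/
def UnionRule (n : ℕ) (η : ℕ → ℕ → Prop) : Prop :=
  ∀ i j k l, i < j → j ≤ k → k < l → l < n → i + 2 ≤ k → j + 2 ≤ l → (η i k ↔ η j l) →
    (η i l ↔ η i k)

theorem UnionRule.not {n : ℕ} (h : UnionRule n η) : UnionRule n (fun i j => ¬ η i j) := by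
  intro i j k l h1 h2 h3 h4 h5 h6 h7
  rw [not_iff_not] at h7 ⊢
  exact h i j k l h1 h2 h3 h4 h5 h6 h7

theorem split_aux {n : ℕ} (hU : UnionRule n η) (hab : a + 2 ≤ b) (hb : b < n) (h : ¬ η a b) :
    ∃ m, a ≤ m ∧ m < b ∧ ∀ i l, a ≤ i → i ≤ m → m + 1 ≤ l → l ≤ b → i + 2 ≤ l → ¬ η i l := by
  classical
  by_cases hex : ∃ t, a + 2 ≤ t ∧ t < b ∧ η a t
  · -- the last such `t`
    obtain ⟨t, ⟨ht1, ht2, ht3⟩, hmax⟩ : ∃ t, (a + 2 ≤ t ∧ t < b ∧ η a t) ∧
        ∀ s, (a + 2 ≤ s ∧ s < b ∧ η a s) → s ≤ t := by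
      obtain ⟨t0, ht0⟩ := hex
      refine ⟨Nat.findGreatest (fun t => a + 2 ≤ t ∧ t < b ∧ η a t) b, ?_, ?_⟩
      · exact Nat.findGreatest_spec (P := fun t => a + 2 ≤ t ∧ t < b ∧ η a t) (m := t0)
          (by omega) ht0
      · intro s hs
        exact Nat.le_findGreatest (by omega) hs
    refine ⟨t, by omega, ht2, ?_⟩
    intro i l h1 h2 h3 h4 h5 hη
    have hal : ¬ η a l := by
      intro hal
      rcases h4.eq_or_lt with h6 | h6
      · subst h6; exact h hal
      · have := hmax l ⟨by omega, h6, hal⟩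
        omega
    rcases h1.eq_or_lt with h6 | h6
    · subst h6; exact hal hη
    · have := hU a i t l h6 h2 (by omega) (by omega) (by omega) h5 (iff_of_true ht3 hη)
      exact hal (this.2 ht3)
  · push Not at hex
    refine ⟨a, le_rfl, by omega, ?_⟩
    intro i l h1 h2 h3 h4 h5 hη
    have h6 : i = a := by omega
    subst h6
    rcases h4.eq_or_lt with h7 | h7
    · subst h7; exact h hη
    · exact hex l h5 h7 hη

theorem exists_net {n : ℕ} : ∀ (d : ℕ) (η : ℕ → ℕ → Prop), UnionRule n η → ∀ a b, a + d = b →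
    0 < d → b < n → HasNet η a b := by
  intro d
  induction d using Nat.strong_induction_on with
  | _ d ih =>
    intro η hU a b hab hd hb
    by_cases hd1 : d = 1
    · subst hd1; subst hab; exact base η a
    -- the case of the value false
    have key : ∀ θ : ℕ → ℕ → Prop, UnionRule n θ → ¬ θ a b → HasNet θ a b := by
      intro θ hθ hab'
      obtain ⟨m, hm1, hm2, hc⟩ := split_aux hθ (by omega) hb hab'
      rcases hm1.eq_or_lt with h1 | h1
      · subst h1
        refine joinL (by omega) (ih (b - (a + 1)) (by omega) θ hθ (a + 1) b (by omega) (by omega)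
          hb) hc
      · by_cases h2 : m + 1 = b
        · subst h2
          exact joinR h1.le (ih (m - a) (by omega) θ hθ a m (by omega) (by omega) (by omega)) hc
        · exact join h1.le (by omega)
            (ih (m - a) (by omega) θ hθ a m (by omega) (by omega) (by omega))
            (ih (b - (m + 1)) (by omega) θ hθ (m + 1) b (by omega) (by omega) hb) hc
    by_cases h : η a b
    · exact (key _ hU.not (not_not.2 h)).unflip
    · exact key η hU h

end SimpleDraw.Tw
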