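import Mathlib
import Pool.Agent.SimpleDraw.PolarCoord
import Pool.Agent.SimpleDraw.Conclude
import Pool.Agent.SimpleDraw.Net

/-! # Generalized twisted drawings: signs and crossings -/

open Set Complex

namespace SimpleDraw

variable {n : ℕ} {D : SimpleDrawing n} {O : ℂ}

/-- over the range `[p,q]` of angles the edge `ab` is the graph of `g` (logarithm of the radius) -/
structure Branch (D : SimpleDrawing n) (O : ℂ) (a b : Fin n) (p q : ℝ) (g : ℝ → ℝ) : Prop where
  cont : ContinuousOn g (Icc p q)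
  mem : ∀ t ∈ Icc p q, ∀ s, polar O (Real.exp s) t ∈ D.curve a b ↔ s = g t

theorem Branch.sub {a b : Fin n} {p q p' q' : ℝ} {g : ℝ → ℝ} (h : Branch D O a b p q g)
    (hp : p ≤ p') (hq : q' ≤ q) : Branch D O a b p' q' g where
  cont := h.cont.mono (Icc_subset_Icc hp hq)
  mem := fun t ht => h.mem t ⟨hp.trans ht.1, ht.2.trans hq⟩

theorem small_mul {z : ℤ} {x : ℝ} (h1 : -(2 * Real.pi) < x) (h2 : x < 2 * Real.pi)
    (hx : x = 2 * Real.pi * z) : z = 0 := by
  have h2π : (0 : ℝ) < 2 * Real.pi := Real.two_pi_pos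
  have a1 : (-1 : ℝ) < z := by
    have : 2 * Real.pi * (-1) < 2 * Real.pi * (z : ℝ) := by rw [← hx]; linarith
    exact lt_of_mul_lt_mul_left this h2π.le
  have a2 : (z : ℝ) < 1 := by
    have : 2 * Real.pi * (z : ℝ) < 2 * Real.pi * 1 := by rw [← hx]; linarith
    exact lt_of_mul_lt_mul_left this h2π.le
  have a3 : -1 < z := by exact_mod_cast a1
  have a4 : z < 1 := by exact_mod_cast a2
  omega

/-- common points of two different edges have the same angle -/
theorem agree_angle {a b c d : Fin n} (hab : a ≠ b) (hcd : c ≠ d) (hne : s(a, b) ≠ s(c, d))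
    {t t' s s' : ℝ} (h1 : polar O (Real.exp s) t ∈ D.curve a b)
    (h2 : polar O (Real.exp s) t ∈ D.curve c d) (h3 : polar O (Real.exp s') t' ∈ D.curve a b)
    (h4 : polar O (Real.exp s') t' ∈ D.curve c d) : ∃ k : ℤ, t = t' + 2 * Real.pi * k :=
  ((polar_eq_iff (Real.exp_pos _) (Real.exp_pos _)).1
    (D.inter a b c d hab hcd hne ⟨h1, h2⟩ ⟨h3, h4⟩)).2

theorem Branch.uniq {a b c d : Fin n} (hab : a ≠ b) (hcd : c ≠ d) (hne : s(a, b) ≠ s(c, d))
    {p q : ℝ} {g h : ℝ → ℝ} (hq : q < p + 2 * Real.pi) (Bg : Branch D O a b p q g)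
    (Bh : Branch D O c d p q h) {t t' : ℝ} (ht : t ∈ Icc p q) (ht' : t' ∈ Icc p q)
    (e : g t = h t) (e' : g t' = h t') : t = t' := by
  obtain ⟨k, hk⟩ := agree_angle hab hcd hne ((Bg.mem t ht _).2 rfl) ((Bh.mem t ht _).2 e)
    ((Bg.mem t' ht' _).2 rfl) ((Bh.mem t' ht' _).2 e')
  have := small_mul (z := k) (x := t - t') (by linarith [ht.1, ht'.2]) (by linarith [ht.2, ht'.1])
    (by linarith)
  subst this
  simpa using hk

/-- two disjoint edges in the same order at `p` and at `q` do not meet in between -/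
theorem Branch.sep {a b c d : Fin n} (hab : a ≠ b) (hcd : c ≠ d) (hac : a ≠ c) (had : a ≠ d)
    (hbc : b ≠ c) (hbd : b ≠ d) {p q : ℝ} {g h : ℝ → ℝ} (hq : q < p + 2 * Real.pi)
    (Bg : Branch D O a b p q g) (Bh : Branch D O c d p q h) (hP : g p < h p) (hQ : g q < h q) :
    ∀ t ∈ Icc p q, g t < h t := by
  have hne : s(a, b) ≠ s(c, d) := by
    intro he
    rw [Sym2.eq_iff] at he
    rcases he with ⟨h1, -⟩ | ⟨h1, -⟩
    · exact hac h1
    · exact had h1
  have hg := Bg.cont
  have hh := Bh.cont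
  intro t ht
  by_contra hcon
  push Not at hcon
  have htp : p < t := lt_of_le_of_ne ht.1 (by rintro rfl; linarith)
  have htq : t < q := lt_of_le_of_ne ht.2 (by rintro rfl; linarith)
  have huniq : ∀ x ∈ Icc p q, ∀ x' ∈ Icc p q, g x = h x → g x' = h x' → x = x' :=
    fun x hx x' hx' h1 h2 => Branch.uniq hab hcd hne hq Bg Bh hx hx' h1 h2
  rcases hcon.eq_or_lt with heq | hlt
  · -- touching at `t`
    have hbelow : ∀ x ∈ Icc p q, x ≠ t → g x < h x := by
      intro x hx hxt
      rcases lt_or_gt_of_ne hxt with h1 | h1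
      · refine (Win.const_sign hx.1 (hg.mono (Icc_subset_Icc le_rfl hx.2))
          (hh.mono (Icc_subset_Icc le_rfl hx.2)) ?_).1 hP
        intro z hz he
        have hz' : z ∈ Icc p q := ⟨hz.1, hz.2.trans hx.2⟩
        have := huniq z hz' t ht he heq.symm
        linarith [hz.2]
      · refine (Win.const_sign hx.2 (hg.mono (Icc_subset_Icc hx.1 le_rfl))
          (hh.mono (Icc_subset_Icc hx.1 le_rfl)) ?_).2 hQ
        intro z hz he
        have hz' : z ∈ Icc p q := ⟨hx.1.trans hz.1, hz.2⟩
        have := huniq z hz' t ht he heq.symm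
        linarith [hz.1]
    set κ := polarChart O ((p + q) / 2) with hκ
    have hsrc : ∀ x s, x ∈ Icc p q → (x, s) ∈ κ.source := by
      intro x s hx
      rw [hκ, polarChart_source, abs_lt]
      constructor <;> linarith [hx.1, hx.2]
    have hκa : ∀ x s, κ (x, s) = polar O (Real.exp s) x := fun x s => polarChart_apply _ _ _ _
    have hmem : κ (t, g t) ∈ D.curve a b ∩ D.curve c d := by
      rw [hκa]
      exact ⟨(Bg.mem t ht _).2 rfl, (Bh.mem t ht _).2 heq.symm⟩
    rcases D.proper _ _ _ _ hab hcd hne _ hmem with ⟨v, hv1, hv2, -⟩ | ⟨H, hph, hh0, hhe, hhf⟩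
    · rcases hv1 with rfl | rfl <;> rcases hv2 with h2 | h2
      · exact hac h2
      · exact had h2
      · exact hbc h2
      · exact hbd h2
    · set δ := min (t - p) (q - t) with hδ
      have hδ0 : 0 < δ := lt_min (by linarith) (by linarith)
      have hsub : ∀ x, |x - t| ≤ δ → x ∈ Icc p q := by
        intro x hx
        rw [abs_le] at hx
        have h1 : δ ≤ t - p := min_le_left _ _
        have h2 : δ ≤ q - t := min_le_right _ _
        constructor <;> linarith [hx.1, hx.2]
      have hsub' : Icc (t - δ) (t + δ) ⊆ Icc p q := by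
        intro x hx
        apply hsub
        rw [abs_le]; constructor <;> linarith [hx.1, hx.2]
      refine no_touch (κ.trans H) (t0 := t) (s0 := g t) hδ0 ?_ ?_
        (hg.mono hsub') (hh.mono hsub') rfl heq ?_ ?_ ?_
      · rw [OpenPartialHomeomorph.trans_source]
        exact ⟨hsrc t _ ht, hph⟩
      · rw [OpenPartialHomeomorph.coe_trans, Function.comp_apply]; exact hh0
      · intro x hxt hxδ
        exact hbelow x (hsub x hxδ) hxt
      · intro x s hx hxs
        rw [OpenPartialHomeomorph.trans_source] at hxs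
        rw [OpenPartialHomeomorph.coe_trans, Function.comp_apply, ← hhe _ hxs.2, hκa,
          Bg.mem x (hsub x hx)]
      · intro x s hx hxs
        rw [OpenPartialHomeomorph.trans_source] at hxs
        rw [OpenPartialHomeomorph.coe_trans, Function.comp_apply, ← hhf _ hxs.2, hκa,
          Bh.mem x (hsub x hx)]
  · -- two crossings
    obtain ⟨t1, ht1, he1⟩ := isPreconnected_Icc.intermediate_value₂ (left_mem_Icc.2 htp.le)
      (right_mem_Icc.2 htp.le) (hg.mono (Icc_subset_Icc le_rfl ht.2))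
      (hh.mono (Icc_subset_Icc le_rfl ht.2)) hP.le hlt.le
    obtain ⟨t2, ht2, he2⟩ := isPreconnected_Icc.intermediate_value₂ (right_mem_Icc.2 htq.le)
      (left_mem_Icc.2 htq.le) (hg.mono (Icc_subset_Icc ht.1 le_rfl))
      (hh.mono (Icc_subset_Icc ht.1 le_rfl)) hQ.le hlt.le
    have h3 := huniq t1 ⟨ht1.1, ht1.2.trans ht.2⟩ t2 ⟨ht.1.trans ht2.1, ht2.2⟩ he1 he2
    have h4 : t1 = t := le_antisymm ht1.2 (by rw [h3]; exact ht2.1)
    rw [h4] at he1
    linarith

/-- the same order at both ends: no common point -/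
theorem Branch.no_agree {a b c d : Fin n} (hab : a ≠ b) (hcd : c ≠ d) (hac : a ≠ c) (had : a ≠ d)
    (hbc : b ≠ c) (hbd : b ≠ d) {p q : ℝ} {g h : ℝ → ℝ} (hq : q < p + 2 * Real.pi)
    (Bg : Branch D O a b p q g) (Bh : Branch D O c d p q h) (hp0 : g p ≠ h p) (hq0 : g q ≠ h q)
    (hpq : g p < h p ↔ g q < h q) : ∀ t ∈ Icc p q, g t ≠ h t := by
  intro t ht
  rcases lt_or_gt_of_ne hp0 with h1 | h1
  · exact (Branch.sep hab hcd hac had hbc hbd hq Bg Bh h1 (hpq.1 h1) t ht).ne
  · have h2 : h q < g q := lt_of_le_of_ne (not_lt.1 fun h3 => absurd (hpq.2 h3) (not_lt.2 h1.le))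
      hq0.symm
    exact (Branch.sep hcd hab hac.symm hbc.symm had.symm hbd.symm hq Bh Bg h1 h2 t ht).ne'

/-- edges with a common vertex: constant order away from it -/
theorem Branch.adj {a b c d : Fin n} (hab : a ≠ b) (hcd : c ≠ d) (hne : s(a, b) ≠ s(c, d))
    {v : Fin n} (hv1 : D.pt v ∈ D.curve a b) (hv2 : D.pt v ∈ D.curve c d) {r φv : ℝ}
    (hpt : D.pt v = polar O (Real.exp r) φv) {p q : ℝ} (hpq : p ≤ q) {g h : ℝ → ℝ}
    (Bg : Branch D O a b p q g) (Bh : Branch D O c d p q h) (h1 : φv - 2 * Real.pi < p)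
    (h2 : q < φv) : g p < h p ↔ g q < h q := by
  refine Win.const_sign hpq Bg.cont Bh.cont ?_
  intro t ht he
  obtain ⟨k, hk⟩ := agree_angle hab hcd hne ((Bg.mem t ht _).2 rfl) ((Bh.mem t ht _).2 he)
    (by rw [← hpt]; exact hv1) (by rw [← hpt]; exact hv2)
  have := small_mul (z := k) (x := t - φv) (by linarith [ht.1])
    (by linarith [ht.2, Real.two_pi_pos]) (by linarith)
  subst this
  simp only [Int.cast_zero, mul_zero, add_zero] at hk
  linarith [ht.2]

/-- angular data of a generalized twisted drawing -/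
structure TwLift {n : ℕ} (D : SimpleDrawing n) (O : ℂ) where
  w : ℕ → Fin n
  φ : ℕ → ℝ
  y : ℕ → ℝ
  f : ℕ → ℕ → ℝ → ℝ
  mono : ∀ i j, i < j → j < n → φ i < φ j
  span : ∀ i j, i < n → j < n → φ j < φ i + 2 * Real.pi
  winj : ∀ i j, i < n → j < n → w i = w j → i = j
  pt_eq : ∀ k < n, D.pt (w k) = polar O (Real.exp (y k)) (φ k)
  cont : ∀ i j, i < j → j < n → ContinuousOn (f i j) (Icc (φ j - 2 * Real.pi) (φ i))
  left : ∀ i j, i < j → j < n → f i j (φ j - 2 * Real.pi) = y j
  right : ∀ i j, i < j → j < n → f i j (φ i) = y i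
  curve : ∀ i j, i < j → j < n → D.curve (w i) (w j) =
    (fun t => polar O (Real.exp (f i j t)) t) '' Icc (φ j - 2 * Real.pi) (φ i)

namespace TwLift

variable (T : TwLift D O)

theorem ne_w {i j : ℕ} (hij : i < j) (hj : j < n) : T.w i ≠ T.w j := fun h =>
  hij.ne (T.winj i j (hij.trans hj) hj h)

theorem ne_w' {i j : ℕ} (hi : i < n) (hj : j < n) (hij : i ≠ j) : T.w i ≠ T.w j := fun h =>
  hij (T.winj i j hi hj h)

theorem sym2_ne {i j k l : ℕ} (hij : i < j) (hj : j < n) (hkl : k < l) (hl : l < n)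
    (h : ¬ (i = k ∧ j = l)) : s(T.w i, T.w j) ≠ s(T.w k, T.w l) := by
  intro he
  rw [Sym2.eq_iff] at he
  rcases he with ⟨h1, h2⟩ | ⟨h1, h2⟩
  · exact h ⟨T.winj _ _ (hij.trans hj) (hkl.trans hl) h1, T.winj _ _ hj hl h2⟩
  · have h3 := T.winj _ _ (hij.trans hj) hl h1
    have h4 := T.winj _ _ hj (hkl.trans hl) h2
    omega

theorem br {i j : ℕ} (hij : i < j) (hj : j < n) :
    Branch D O (T.w i) (T.w j) (T.φ j - 2 * Real.pi) (T.φ i) (T.f i j) where
  cont := T.cont i j hij hj
  mem := by
    intro t ht s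
    rw [T.curve i j hij hj]
    constructor
    · rintro ⟨t', ht', he⟩
      obtain ⟨h1, k, hk⟩ := (polar_eq_iff (Real.exp_pos _) (Real.exp_pos _)).1 he
      have h3 := T.mono i j hij hj
      have := small_mul (z := k) (x := t' - t) (by linarith [ht.2, ht'.1])
        (by linarith [ht.1, ht'.2]) (by linarith)
      subst this
      simp only [Int.cast_zero, mul_zero, add_zero] at hk
      subst hk
      exact (Real.exp_injective h1).symm
    · rintro rfl
      exact ⟨t, ht, rfl⟩

theorem br2 {i j : ℕ} (hij : i < j) (hj : j < n) :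
    Branch D O (T.w i) (T.w j) (T.φ j) (T.φ i + 2 * Real.pi)
      (fun t => T.f i j (t - 2 * Real.pi)) where
  cont := (T.cont i j hij hj).comp (by fun_prop) (fun t ht => ⟨by linarith [ht.1],
    by linarith [ht.2]⟩)
  mem := by
    intro t ht s
    have h1 : polar O (Real.exp s) t = polar O (Real.exp s) (t - 2 * Real.pi) := by
      have := polar_two_pi O (Real.exp s) (t - 2 * Real.pi) 1
      simp only [Int.cast_one, mul_one, sub_add_cancel] at this
      exact this
    rw [h1]
    exact (T.br hij hj).mem _ ⟨by linarith [ht.1], by linarith [ht.2]⟩ s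

/-- the edge `ij` passes below the vertex `k`, `i < j < k` -/
def E (i j k : ℕ) : Prop := T.f i j (T.φ k - 2 * Real.pi) < T.y k

theorem pt_mem_left {i j : ℕ} (hij : i < j) (hj : j < n) :
    D.pt (T.w i) ∈ D.curve (T.w i) (T.w j) := pt_left_mem D (T.ne_w hij hj)

theorem pt_mem_right {i j : ℕ} (hij : i < j) (hj : j < n) :
    D.pt (T.w j) ∈ D.curve (T.w i) (T.w j) := pt_right_mem D (T.ne_w hij hj)

theorem not_E_iff {i j k : ℕ} (hij : i < j) (hjk : j < k) (hk : k < n) :
    ¬ T.E i j k ↔ T.y k < T.f i j (T.φ k - 2 * Real.pi) := by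
  unfold E
  rw [not_lt]
  constructor
  · intro h
    refine lt_of_le_of_ne h ?_
    intro he
    have h1 : T.φ k - 2 * Real.pi ∈ Icc (T.φ j - 2 * Real.pi) (T.φ i) :=
      ⟨by linarith [T.mono j k hjk hk], by linarith [T.span i k (by omega) hk]⟩
    have h2 := ((T.br hij (hjk.trans hk)).mem _ h1 (T.y k)).2 he
    have h3 : polar O (Real.exp (T.y k)) (T.φ k - 2 * Real.pi) = D.pt (T.w k) := by
      rw [T.pt_eq k hk]
      have := polar_two_pi O (Real.exp (T.y k)) (T.φ k - 2 * Real.pi) 1
      simp only [Int.cast_one, mul_one, sub_add_cancel] at this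
      exact this.symm
    rw [h3] at h2
    exact D.vertex _ _ _ (T.ne_w hij (hjk.trans hk)) (T.ne_w (hij.trans hjk) hk).symm
      (T.ne_w hjk hk).symm h2
  · intro h; exact h.le

/-- the edge `jk` passes above the vertex `i` -/
theorem E_iff {i j k : ℕ} (hij : i < j) (hjk : j < k) (hk : k < n) :
    T.E i j k ↔ T.y i < T.f j k (T.φ i) := by
  have hj : j < n := hjk.trans hk
  have hi : i < n := hij.trans hj
  have h1 := T.mono i j hij hj
  have h2 := T.mono j k hjk hk
  have h3 := T.span i k hi hk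
  have h4 := Branch.adj (T.ne_w hij hj) (T.ne_w hjk hk) (T.sym2_ne hij hj hjk hk (by omega))
    (T.pt_mem_right hij hj) (T.pt_mem_left hjk hk) (T.pt_eq j hj)
    (p := T.φ k - 2 * Real.pi) (q := T.φ i) (by linarith)
    ((T.br hij hj).sub (by linarith) le_rfl) ((T.br hjk hk).sub le_rfl h1.le)
    (by linarith) h1
  rw [T.left j k hjk hk, T.right i j hij hj] at h4
  exact h4

theorem not_E_iff' {i j k : ℕ} (hij : i < j) (hjk : j < k) (hk : k < n) :
    ¬ T.E i j k ↔ T.f j k (T.φ i) < T.y i := by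
  rw [T.E_iff hij hjk hk, not_lt]
  constructor
  · intro h
    refine lt_of_le_of_ne h ?_
    intro he
    have hi : i < n := by omega
    have h1 : T.φ i ∈ Icc (T.φ k - 2 * Real.pi) (T.φ j) :=
      ⟨by linarith [T.span i k hi hk], (T.mono i j hij (by omega)).le⟩
    have h2 := ((T.br hjk hk).mem _ h1 (T.y i)).2 he.symm
    rw [← T.pt_eq i hi] at h2
    exact D.vertex _ _ _ (T.ne_w hjk hk) (T.ne_w hij (by omega)) (T.ne_w (hij.trans hjk) hk) h2
  · intro h; exact h.le

theorem exists_agree {g h : ℝ → ℝ} {p q : ℝ} (hpq : p ≤ q) (hg : ContinuousOn g (Icc p q))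
    (hh : ContinuousOn h (Icc p q)) (hne : ¬ (g p < h p ↔ g q < h q)) :
    ∃ t ∈ Icc p q, g t = h t := by
  by_contra hcon
  push Not at hcon
  exact hne (Win.const_sign hpq hg hh hcon)

theorem dbl {i j k l : ℕ} (hij : i < j) (hjk : j < k) (hkl : k < l) (hl : l < n) :
    (T.E i j l ↔ T.E i k l) ∨ (T.E i j k ↔ T.E j k l) := by
  by_contra hcon
  rw [not_or] at hcon
  obtain ⟨c1, c2⟩ := hcon
  have hk : k < n := hkl.trans hl
  have hj : j < n := hjk.trans hk
  have hi : i < n := hij.trans hj
  have m1 := T.mono i j hij hj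
  have m2 := T.mono j k hjk hk
  have m3 := T.mono k l hkl hl
  have s1 := T.span i l hi hl
  have B1 : Branch D O (T.w i) (T.w j) (T.φ l - 2 * Real.pi) (T.φ i) (T.f i j) :=
    (T.br hij hj).sub (by linarith) le_rfl
  have B2 : Branch D O (T.w k) (T.w l) (T.φ l - 2 * Real.pi) (T.φ i) (T.f k l) :=
    (T.br hkl hl).sub le_rfl (by linarith)
  have B3 : Branch D O (T.w i) (T.w j) (T.φ j) (T.φ k) (fun t => T.f i j (t - 2 * Real.pi)) :=
    (T.br2 hij hj).sub le_rfl (by linarith)
  have B4 : Branch D O (T.w k) (T.w l) (T.φ j) (T.φ k) (T.f k l) :=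
    (T.br hkl hl).sub (by linarith) le_rfl
  obtain ⟨t, ht, he⟩ := exists_agree (by linarith) B1.cont B2.cont (by
    rw [T.left k l hkl hl, T.right i j hij hj]
    intro h
    apply c1
    rw [T.E_iff (hij.trans hjk) hkl hl]
    exact h)
  obtain ⟨t', ht', he'⟩ := exists_agree (by linarith) B3.cont B4.cont (by
    rw [T.left i j hij hj, T.right k l hkl hl]
    intro h
    apply c2
    rw [T.E_iff hjk hkl hl]
    exact h.symm)
  obtain ⟨z, hz⟩ := agree_angle (T.ne_w hij hj) (T.ne_w hkl hl)
    (T.sym2_ne hij hj hkl hl (by omega)) ((B3.mem t' ht' _).2 rfl) ((B4.mem t' ht' _).2 he')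
    ((B1.mem t ht _).2 rfl) ((B2.mem t ht _).2 he)
  have := small_mul (z := z) (x := t' - t) (by linarith [ht.2, ht'.1, Real.two_pi_pos])
    (by linarith [ht.1, ht'.2]) (by linarith)
  subst this
  simp only [Int.cast_zero, mul_zero, add_zero] at hz
  linarith [ht.2, ht'.1]

theorem left_adj {i j k l : ℕ} (hij : i < j) (hjk : j < k) (hkl : k < l) (hl : l < n) :
    T.E i j k ↔ T.f i j (T.φ l - 2 * Real.pi) < T.f i k (T.φ l - 2 * Real.pi) := by
  have hk : k < n := hkl.trans hl
  have hj : j < n := hjk.trans hk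
  have hi : i < n := hij.trans hj
  have m1 := T.mono i j hij hj
  have m2 := T.mono j k hjk hk
  have m3 := T.mono k l hkl hl
  have s1 := T.span i l hi hl
  have h4 := Branch.adj (T.ne_w hij hj) (T.ne_w (hij.trans hjk) hk)
    (T.sym2_ne hij hj (hij.trans hjk) hk (by omega))
    (T.pt_mem_left hij hj) (T.pt_mem_left (hij.trans hjk) hk) (T.pt_eq i hi)
    (p := T.φ k - 2 * Real.pi) (q := T.φ l - 2 * Real.pi) (by linarith)
    ((T.br hij hj).sub (by linarith) (by linarith))
    ((T.br (hij.trans hjk) hk).sub le_rfl (by linarith))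
    (by linarith) (by linarith)
  rw [T.left i k (hij.trans hjk) hk] at h4
  exact h4

theorem right_adj {i j k l : ℕ} (hij : i < j) (hjk : j < k) (hkl : k < l) (hl : l < n) :
    T.E j k l ↔ T.f j l (T.φ i) < T.f k l (T.φ i) := by
  have hk : k < n := hkl.trans hl
  have hj : j < n := hjk.trans hk
  have hi : i < n := hij.trans hj
  have m1 := T.mono i j hij hj
  have m2 := T.mono j k hjk hk
  have m3 := T.mono k l hkl hl
  have s1 := T.span i l hi hl
  have h4 := Branch.adj (T.ne_w (hjk.trans hkl) hl) (T.ne_w hkl hl)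
    (T.sym2_ne (hjk.trans hkl) hl hkl hl (by omega))
    (T.pt_mem_right (hjk.trans hkl) hl) (T.pt_mem_right hkl hl) (T.pt_eq l hl)
    (p := T.φ i) (q := T.φ j) (by linarith)
    ((T.br (hjk.trans hkl) hl).sub (by linarith) le_rfl)
    ((T.br hkl hl).sub (by linarith) (by linarith))
    (by linarith) (by linarith)
  rw [T.right j l (hjk.trans hkl) hl] at h4
  rw [T.E_iff hjk hkl hl]
  exact h4.symm

theorem mid_adj {i j k l : ℕ} (hij : i < j) (hjk : j < k) (hkl : k < l) (hl : l < n) :
    T.E j k l ↔ T.f j k (T.φ i) < T.f j l (T.φ i) := by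
  have hk : k < n := hkl.trans hl
  have hj : j < n := hjk.trans hk
  have hi : i < n := hij.trans hj
  have m1 := T.mono i j hij hj
  have m2 := T.mono j k hjk hk
  have m3 := T.mono k l hkl hl
  have s1 := T.span i l hi hl
  have h4 := Branch.adj (T.ne_w hjk hk) (T.ne_w (hjk.trans hkl) hl)
    (T.sym2_ne hjk hk (hjk.trans hkl) hl (by omega))
    (T.pt_mem_left hjk hk) (T.pt_mem_left (hjk.trans hkl) hl) (T.pt_eq j hj)
    (p := T.φ l - 2 * Real.pi) (q := T.φ i) (by linarith)
    ((T.br hjk hk).sub (by linarith) (by linarith))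
    ((T.br (hjk.trans hkl) hl).sub le_rfl (by linarith))
    (by linarith) (by linarith)
  rw [T.left j l (hjk.trans hkl) hl] at h4
  exact h4

/-- the sign of a triple does not depend on its middle vertex -/
theorem indep {i j k l : ℕ} (hij : i < j) (hjk : j < k) (hkl : k < l) (hl : l < n) :
    T.E i j l ↔ T.E i k l := by
  have hk : k < n := hkl.trans hl
  have d := T.dbl hij hjk hkl hl
  have a1 := T.left_adj hij hjk hkl hl
  have a2 := T.right_adj hij hjk hkl hl
  by_contra hcon
  by_cases h1 : T.E i j l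
  · have h2 : ¬ T.E i k l := fun h => hcon (iff_of_true h1 h)
    have h3 : T.E i j k := by
      rw [a1]
      have := (T.not_E_iff (hij.trans hjk) hkl hl).1 h2
      exact lt_trans h1 this
    have h4 : ¬ T.E j k l := by
      rw [a2, not_lt]
      have e1 := (T.E_iff hij (hjk.trans hkl) hl).1 h1
      have e2 := (T.not_E_iff' (hij.trans hjk) hkl hl).1 h2
      linarith
    rcases d with d | d
    · exact h2 (d.1 h1)
    · exact h4 (d.1 h3)
  · have h2 : T.E i k l := by
      by_contra h; exact hcon (iff_of_false h1 h)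
    have h3 : ¬ T.E i j k := by
      rw [a1, not_lt]
      have := (T.not_E_iff hij (hjk.trans hkl) hl).1 h1
      exact (lt_trans h2 this).le
    have h4 : T.E j k l := by
      rw [a2]
      have e1 := (T.not_E_iff' hij (hjk.trans hkl) hl).1 h1
      have e2 := (T.E_iff (hij.trans hjk) hkl hl).1 h2
      linarith
    rcases d with d | d
    · exact h1 (d.2 h2)
    · exact h3 (d.2 h4)

/-- the sign of the pair of extreme vertices -/
def η (i k : ℕ) : Prop := T.E i (i + 1) k

theorem E_eq {i j k : ℕ} (hij : i < j) (hjk : j < k) (hk : k < n) : T.E i j k ↔ T.η i k := by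
  unfold η
  by_cases h : j = i + 1
  · rw [h]
  · exact (T.indep (i := i) (j := i + 1) (k := j) (l := k) (by omega) (by omega) hjk hk).symm

theorem rule1 {i j k l : ℕ} (hij : i < j) (hjk : j < k) (hkl : k < l) (hl : l < n)
    (h : T.η i k ↔ T.η j l) : T.η i l ↔ T.η i k := by
  have hk : k < n := hkl.trans hl
  have a := T.mid_adj hij hjk hkl hl
  rw [← T.E_eq hij hjk hk, ← T.E_eq hij (hjk.trans hkl) hl]
  rw [← T.E_eq hij hjk hk, ← T.E_eq hjk hkl hl] at h
  by_cases h1 : T.E i j k
  · have h2 := a.1 (h.1 h1)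
    refine iff_of_true ?_ h1
    rw [T.E_iff hij (hjk.trans hkl) hl]
    exact ((T.E_iff hij hjk hk).1 h1).trans h2
  · have h2 := (not_congr a).1 (fun h3 => h1 (h.2 h3))
    refine iff_of_false ?_ h1
    rw [T.not_E_iff' hij (hjk.trans hkl) hl]
    have := (T.not_E_iff' hij hjk hk).1 h1
    rw [not_lt] at h2
    linarith

theorem rule2 {i j k l m : ℕ} (hij : i < j) (hjk : j < k) (hkl : k < l) (hlm : l < m)
    (hm : m < n) (h1 : T.E i j l ↔ T.E j l m) (h2 : T.E i j k ↔ T.E k l m)
    : T.E i j l ↔ T.E i j k := by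
  have hl : l < n := hlm.trans hm
  have hk : k < n := hkl.trans hl
  have hj : j < n := hjk.trans hk
  have hi : i < n := hij.trans hj
  have m1 := T.mono i j hij hj
  have m2 := T.mono j k hjk hk
  have m3 := T.mono k l hkl hl
  have m4 := T.mono l m hlm hm
  have s1 := T.span i l hi hl
  have s2 := T.span j m hj hm
  have B3 : Branch D O (T.w i) (T.w j) (T.φ j) (T.φ l) (fun t => T.f i j (t - 2 * Real.pi)) :=
    (T.br2 hij hj).sub le_rfl (by linarith)
  have B4 : Branch D O (T.w l) (T.w m) (T.φ j) (T.φ l) (T.f l m) :=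
    (T.br hlm hm).sub (by linarith) le_rfl
  have n1 := T.ne_w hij hj
  have n2 := T.ne_w hlm hm
  have n3 := T.ne_w (hij.trans (hjk.trans hkl)) hl
  have n4 := T.ne_w (hij.trans (hjk.trans (hkl.trans hlm))) hm
  have n5 := T.ne_w (hjk.trans hkl) hl
  have n6 := T.ne_w (hjk.trans (hkl.trans hlm)) hm
  have hkI : T.φ k ∈ Icc (T.φ j) (T.φ l) := ⟨m2.le, m3.le⟩
  by_cases c1 : T.E i j l
  · by_cases c2 : T.E i j k
    · exact iff_of_true c1 c2
    exfalso
    have c3 := h1.1 c1
    have c4 : ¬ T.E k l m := fun h => c2 (h2.2 h)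
    have := Branch.sep n1 n2 n3 n4 n5 n6 (by linarith) B3 B4
      (by rw [T.left i j hij hj]; exact (T.E_iff (hjk.trans hkl) hlm hm).1 c3)
      (by rw [T.right l m hlm hm]; exact c1) _ hkI
    have e1 := (T.not_E_iff hij hjk hk).1 c2
    have e2 := (T.not_E_iff' hkl hlm hm).1 c4
    linarith
  · by_cases c2 : T.E i j k
    swap
    · exact iff_of_false c1 c2
    exfalso
    have c3 : ¬ T.E j l m := fun h => c1 (h1.2 h)
    have c4 := h2.1 c2
    have := Branch.sep n2 n1 n3.symm n5.symm n4.symm n6.symm (by linarith) B4 B3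
      (by rw [T.left i j hij hj]; exact (T.not_E_iff' (hjk.trans hkl) hlm hm).1 c3)
      (by rw [T.right l m hlm hm]; exact (T.not_E_iff hij (hjk.trans hkl) hl).1 c1) _ hkI
    have e1 : T.f i j (T.φ k - 2 * Real.pi) < T.y k := c2
    have e2 := (T.E_iff hkl hlm hm).1 c4
    linarith

theorem unionRule : Tw.UnionRule n T.η := by
  intro i j k l hij hjk hkl hl hik hjl h
  rcases hjk.eq_or_lt with rfl | hjk
  swap
  · exact T.rule1 hij hjk hkl hl h
  by_contra hcon
  -- the values inside
  have k1 : ¬ (T.η (i + 1) l ↔ T.η i j) := by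
    intro h1
    exact hcon (T.rule1 (i := i) (j := i + 1) (k := j) (l := l) (by omega) (by omega) hkl hl
      h1.symm)
  have k2 : ¬ (T.η i (j + 1) ↔ T.η j l) := by
    intro h1
    have := T.rule1 (i := i) (j := j) (k := j + 1) (l := l) hij (by omega) (by omega) hl h1
    exact hcon (this.trans (h1.trans h.symm))
  have r := T.rule2 (i := i) (j := i + 1) (k := j) (l := j + 1) (m := l) (by omega) (by omega)
    (by omega) (by omega) hl
  rw [T.E_eq (by omega) (by omega) (by omega), T.E_eq (by omega) (by omega) hl,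
    T.E_eq (by omega) (by omega) (by omega), T.E_eq (by omega) (by omega) hl] at r
  have := r (by tauto) h
  tauto

theorem meet_aux {i j k l : ℕ} (hij : i < j) (hj : j < n) (hkl : k < l) (hl : l < n)
    (hik : i < k) (hjk : j ≠ k) (hjl : j ≠ l)
    (h1 : j < k → (T.η i k ↔ T.η j l)) (h2 : l < j → ¬ (T.η i l ↔ T.η k j)) :
    Meet D (T.w i) (T.w j) (T.w k) (T.w l) := by
  have hk : k < n := hkl.trans hl
  have hi : i < n := hij.trans hj
  have m1 := T.mono i j hij hj
  have m3 := T.mono k l hkl hl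
  have m2 := T.mono i k hik hk
  have s1 := T.span i l hi hl
  have s2 := T.span i j hi hj
  have n1 := T.ne_w hij hj
  have n2 := T.ne_w hkl hl
  have n3 := T.ne_w hik hk
  have n4 := T.ne_w (hik.trans hkl) hl
  have n5 := T.ne_w' hj hk hjk
  have n6 := T.ne_w' hj hl hjl
  rintro p ⟨hp1, hp2⟩
  exfalso
  rw [T.curve i j hij hj] at hp1
  rw [T.curve k l hkl hl] at hp2
  obtain ⟨t, ht, rfl⟩ := hp1
  obtain ⟨t', ht', he⟩ := hp2
  obtain ⟨he1, z, hz⟩ := (polar_eq_iff (Real.exp_pos _) (Real.exp_pos _)).1 he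
  have he2 : T.f k l t' = T.f i j t := Real.exp_injective he1
  have z0 : z < 2 ∧ -1 < z := by
    have h2π : (0 : ℝ) < 2 * Real.pi := Real.two_pi_pos
    constructor
    · have : 2 * Real.pi * (z : ℝ) < 2 * Real.pi * 2 := by
        linarith [ht.1, ht'.2, T.span j k hj hk, m1]
      have := lt_of_mul_lt_mul_left this h2π.le
      exact_mod_cast this
    · have : 2 * Real.pi * (-1) < 2 * Real.pi * (z : ℝ) := by linarith [ht.2, ht'.1]
      have := lt_of_mul_lt_mul_left this h2π.le
      exact_mod_cast this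
  have z1 : z = 0 ∨ z = 1 := by omega
  rcases z1 with rfl | rfl
  · simp only [Int.cast_zero, mul_zero, add_zero] at hz
    subst hz
    rcases lt_or_gt_of_ne hjl with hjl' | hlj
    · -- separated or interleaved
      have m4 := T.mono j l hjl' hl
      have hE : T.E i j l ↔ T.E i k l := by
        rw [T.E_eq hij hjl' hl, T.E_eq hik hkl hl]
      have B1 : Branch D O (T.w i) (T.w j) (T.φ l - 2 * Real.pi) (T.φ i) (T.f i j) :=
        (T.br hij hj).sub (by linarith) le_rfl
      have B2 : Branch D O (T.w k) (T.w l) (T.φ l - 2 * Real.pi) (T.φ i) (T.f k l) :=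
        (T.br hkl hl).sub le_rfl (by linarith)
      refine Branch.no_agree n1 n2 n3 n4 n5 n6 (by linarith) B1 B2 ?_ ?_ ?_ t' ⟨ht'.1, ht.2⟩
        he2.symm
      · rw [T.left k l hkl hl]
        by_cases c : T.E i j l
        · exact ne_of_lt c
        · exact ((T.not_E_iff hij hjl' hl).1 c).ne'
      · rw [T.right i j hij hj]
        by_cases c : T.E i k l
        · exact ((T.E_iff hik hkl hl).1 c).ne
        · exact ((T.not_E_iff' hik hkl hl).1 c).ne'
      · rw [T.left k l hkl hl, T.right i j hij hj]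
        rw [T.E_iff hik hkl hl] at hE
        exact hE
    · -- nested
      have m4 := T.mono l j hlj hj
      have hE : ¬ T.E k l j ↔ T.E i k l := by
        rw [T.E_eq hkl hlj hj, T.E_eq hik hkl hl]
        have := h2 hlj
        tauto
      have B1 : Branch D O (T.w i) (T.w j) (T.φ j - 2 * Real.pi) (T.φ i) (T.f i j) :=
        (T.br hij hj).sub le_rfl le_rfl
      have B2 : Branch D O (T.w k) (T.w l) (T.φ j - 2 * Real.pi) (T.φ i) (T.f k l) :=
        (T.br hkl hl).sub (by linarith) (by linarith)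
      refine Branch.no_agree n1 n2 n3 n4 n5 n6 (by linarith) B1 B2 ?_ ?_ ?_ t' ht he2.symm
      · rw [T.left i j hij hj]
        by_cases c : T.E k l j
        · exact ne_of_gt c
        · exact ((T.not_E_iff hkl hlj hj).1 c).ne
      · rw [T.right i j hij hj]
        by_cases c : T.E i k l
        · exact ((T.E_iff hik hkl hl).1 c).ne
        · exact ((T.not_E_iff' hik hkl hl).1 c).ne'
      · rw [T.left i j hij hj, T.right i j hij hj]
        rw [T.E_iff hik hkl hl, T.not_E_iff hkl hlj hj] at hE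
        exact hE
  · simp only [Int.cast_one, mul_one] at hz
    rcases lt_or_gt_of_ne hjk with hjk' | hkj
    swap
    · have := T.mono k j hkj hj
      linarith [ht.1, ht'.2]
    have m4 := T.mono j k hjk' hk
    have hE : T.E j k l ↔ T.E i j k := by
      rw [T.E_eq hjk' hkl hl, T.E_eq hij hjk' hk]
      exact (h1 hjk').symm
    have B3 : Branch D O (T.w i) (T.w j) (T.φ j) (T.φ k) (fun t => T.f i j (t - 2 * Real.pi)) :=
      (T.br2 hij hj).sub le_rfl (by linarith [T.span i k hi hk])
    have B4 : Branch D O (T.w k) (T.w l) (T.φ j) (T.φ k) (T.f k l) :=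
      (T.br hkl hl).sub (by linarith [T.span j l hj hl]) le_rfl
    refine Branch.no_agree n1 n2 n3 n4 n5 n6 (by linarith [T.span j k hj hk]) B3 B4 ?_ ?_ ?_ t'
      ⟨by linarith [ht.1], ht'.2⟩ ?_
    · rw [T.left i j hij hj]
      by_cases c : T.E j k l
      · exact ((T.E_iff hjk' hkl hl).1 c).ne
      · exact ((T.not_E_iff' hjk' hkl hl).1 c).ne'
    · rw [T.right k l hkl hl]
      by_cases c : T.E i j k
      · exact ne_of_lt c
      · exact ((T.not_E_iff hij hjk' hk).1 c).ne'
    · rw [T.left i j hij hj, T.right k l hkl hl]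
      rw [T.E_iff hjk' hkl hl] at hE
      exact hE
    · have : t' - 2 * Real.pi = t := by linarith
      rw [this]; exact he2.symm

theorem meet_of_nc {e f : ℕ × ℕ} (he : e.1 < e.2) (he' : e.2 < n) (hf : f.1 < f.2)
    (hf' : f.2 < n) (hne : e ≠ f) (h : Tw.NC T.η e f) :
    Meet D (T.w e.1) (T.w e.2) (T.w f.1) (T.w f.2) := by
  have hne' : ¬ (e.1 = f.1 ∧ e.2 = f.2) := fun h => hne (Prod.ext h.1 h.2)
  by_cases hsh : e.1 = f.1 ∨ e.1 = f.2 ∨ e.2 = f.1 ∨ e.2 = f.2
  · refine meet_of_common (T.ne_w he he') (T.ne_w hf hf') (T.sym2_ne he he' hf hf' hne') ?_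
    rcases hsh with h | h | h | h
    · left; rw [h]
    · right; left; rw [h]
    · right; right; left; rw [h]
    · right; right; right; rw [h]
  push Not at hsh
  obtain ⟨s1, s2, s3, s4⟩ := hsh
  rcases lt_or_gt_of_ne s1 with s5 | s5
  · refine T.meet_aux he he' hf hf' s5 s3 s4 ?_ ?_
    · intro h6
      rcases h with h | h | h | h | h | h | h | h | h | h
      · exact absurd h s1
      · exact absurd h s2
      · exact absurd h s3
      · exact absurd h s4
      · omega
      · omega
      · exact h.2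
      · omega
      · omega
      · omega
    · intro h6
      rcases h with h | h | h | h | h | h | h | h | h | h
      · exact absurd h s1
      · exact absurd h s2
      · exact absurd h s3
      · exact absurd h s4
      · omega
      · omega
      · omega
      · omega
      · exact h.2.2
      · omega
  · refine (T.meet_aux hf hf' he he' s5 (Ne.symm s2) (Ne.symm s4) ?_ ?_).symm
    · intro h6
      rcases h with h | h | h | h | h | h | h | h | h | h
      · exact absurd h s1
      · exact absurd h s2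
      · exact absurd h s3
      · exact absurd h s4
      · omega
      · omega
      · omega
      · exact h.2
      · omega
      · omega
    · intro h6
      rcases h with h | h | h | h | h | h | h | h | h | h
      · exact absurd h s1
      · exact absurd h s2
      · exact absurd h s3
      · exact absurd h s4
      · omega
      · omega
      · omega
      · omega
      · omega
      · exact h.2.2

include T in
theorem hasPlaneHamiltonian (hn : 3 ≤ n) : D.HasPlaneHamiltonian := by
  classical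
  obtain ⟨F, A, B, x, x', y, y', N⟩ := Tw.exists_net (n - 1) T.η T.unionRule 0 (n - 1)
    (by omega) (by omega) (by omega)
  have hFlt : ∀ e ∈ F, e.1 < e.2 ∧ e.2 < n := by
    intro e he
    have := N.mem e he
    omega
  set E : Finset (Sym2 (Fin n)) := F.image (fun e => s(T.w e.1, T.w e.2)) with hE
  have hEc : E.card = F.card := by
    rw [hE, Finset.card_image_of_injOn]
    intro e he f hf hef
    by_contra hne
    obtain ⟨e1, e2⟩ := hFlt e he
    obtain ⟨f1, f2⟩ := hFlt f hf
    exact T.sym2_ne e1 e2 f1 f2 (fun h => hne (Prod.ext h.1 h.2)) hef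
  have hlt : ∀ v, v ∈ A ++ B.reverse ↔ v < n := by
    intro v
    have := N.cover v
    rw [List.mem_append] at this
    rw [List.mem_append, List.mem_reverse, this]
    omega
  have hnd : (A ++ B.reverse).Nodup := by
    have := N.nodup
    rw [List.nodup_append] at this ⊢
    exact ⟨this.1, List.nodup_reverse.2 this.2.1, fun u hu v hv =>
      this.2.2 u hu v (List.mem_reverse.1 hv)⟩
  have hR : ∀ u v, Tw.Rel F u v → s(T.w u, T.w v) ∈ E := by
    rintro u v (h | h)
    · exact Finset.mem_image.2 ⟨(u, v), h, rfl⟩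
    · rw [Sym2.eq_swap]
      exact Finset.mem_image.2 ⟨(v, u), h, rfl⟩
  have hcard := N.card
  refine conclude hn E ?_ ?_ (by rw [hEc]; omega) ((A ++ B.reverse).map T.w) ?_ ?_ ?_
    (a := T.w x) (b := T.w x') ?_ ?_ ?_
  · intro e he
    obtain ⟨f, hf, rfl⟩ := Finset.mem_image.1 he
    obtain ⟨h1, h2⟩ := hFlt f hf
    rw [Sym2.mk_isDiag_iff]
    exact T.ne_w h1 h2
  · intro a b c d h1 h2 h3
    obtain ⟨e, he, he'⟩ := Finset.mem_image.1 h1
    obtain ⟨f, hf, hf'⟩ := Finset.mem_image.1 h2
    have hne : e ≠ f := by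
      rintro rfl
      exact h3 (he'.symm.trans hf')
    obtain ⟨e1, e2⟩ := hFlt e he
    obtain ⟨f1, f2⟩ := hFlt f hf
    have hm := T.meet_of_nc e1 e2 f1 f2 hne (N.nc e he f hf hne)
    rw [Sym2.eq_iff] at he' hf'
    rcases he' with ⟨rfl, rfl⟩ | ⟨rfl, rfl⟩ <;> rcases hf' with ⟨rfl, rfl⟩ | ⟨rfl, rfl⟩
    · exact hm
    · exact hm.swap_right
    · exact hm.swap_left
    · exact hm.swap_left.swap_right
  · refine (List.nodup_map_iff_inj_on hnd).2 ?_
    intro u hu v hv huv
    exact T.winj u v ((hlt u).1 hu) ((hlt v).1 hv) huv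
  · intro v
    have hinj : Function.Injective (fun k : Fin n => T.w k) := fun x y hxy =>
      Fin.ext (T.winj _ _ x.2 y.2 hxy)
    obtain ⟨k, hk⟩ := (Finite.injective_iff_surjective.1 hinj) v
    rw [List.mem_map]
    exact ⟨k, (hlt k).2 k.2, hk⟩
  · rw [List.isChain_map, List.isChain_append]
    refine ⟨N.chA.imp fun u v h => hR u v h, ?_, ?_⟩
    · rw [List.isChain_reverse]
      exact N.chB.imp fun u v h => hR v u h.symm
    · intro u hu v hv
      rw [N.hy] at hu
      rw [List.head?_reverse, N.hy'] at hv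
      simp only [Option.mem_def, Option.some.injEq] at hu hv
      subst hu; subst hv
      exact hR _ _ N.ry
  · rw [List.head?_map, List.head?_append, N.hx]
    rfl
  · rw [List.getLast?_map, List.getLast?_append, List.getLast?_reverse, N.hx']
    rfl
  · exact hR _ _ N.rx.symm

end TwLift

end SimpleDraw
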