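import Mathlib
import Pool.Agent.SimpleDraw.TwGeom

/-! # Generalized twisted drawings have a plane Hamiltonian subdrawing with `2n-3` edges -/

open Set Complex

namespace SimpleDraw

/-- generalized twisted: for some point `O`, every edge is monotone around `O`, and some ray from
`O` which passes through no vertex meets every edge -/
def SimpleDrawing.GeneralizedTwisted {n : ℕ} (D : SimpleDrawing n) : Prop :=
  ∃ O : ℂ, (∀ i j, i ≠ j → IsPolarArc O (D.curve i j) (D.pt i) (D.pt j)) ∧
    ∃ θ : ℝ, (∀ v, ∀ r : ℝ, 0 ≤ r → polar O r θ ≠ D.pt v) ∧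
      ∀ i j, i ≠ j → ∃ r : ℝ, 0 ≤ r ∧ polar O r θ ∈ D.curve i j

theorem exists_twLift {n : ℕ} (hn : 2 ≤ n) {D : SimpleDrawing n} (h : D.GeneralizedTwisted) :
    ∃ O, Nonempty (TwLift D O) := by
  classical
  obtain ⟨O, harc, c, hcv, hray⟩ := h
  refine ⟨O, ?_⟩
  have h2π : (0 : ℝ) < 2 * Real.pi := Real.two_pi_pos
  -- angle and radius of each vertex
  have hv : ∀ v : Fin n, ∃ (θ r : ℝ), c < θ ∧ θ < c + 2 * Real.pi ∧ 0 < r ∧
      D.pt v = polar O r θ := by
    intro v
    obtain ⟨u, hu⟩ : ∃ u : Fin n, v ≠ u := by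
      have : Nontrivial (Fin n) := Fin.nontrivial_iff_two_le.2 hn
      obtain ⟨u, hu⟩ := exists_ne v
      exact ⟨u, hu.symm⟩
    obtain ⟨α, β, ρ, hαβ, -, -, hpos, -, hend⟩ := harc v u hu
    obtain ⟨θ, r, hr, hp⟩ : ∃ (θ r : ℝ), 0 < r ∧ D.pt v = polar O r θ := by
      rcases hend with ⟨h1, -⟩ | ⟨-, h1⟩
      · exact ⟨α, ρ α, hpos α (left_mem_Icc.2 hαβ.le), h1.symm⟩
      · exact ⟨β, ρ β, hpos β (right_mem_Icc.2 hαβ.le), h1.symm⟩
    have hp' : D.pt v = polar O r (toIcoMod h2π c θ) := by
      rw [hp]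
      have h1 : toIcoMod h2π c θ = θ + 2 * Real.pi * ((-(toIcoDiv h2π c θ) : ℤ) : ℝ) := by
        unfold toIcoMod
        rw [zsmul_eq_mul]
        push_cast
        ring
      rw [h1, polar_two_pi]
    refine ⟨toIcoMod h2π c θ, r, ?_, (toIcoMod_mem_Ico h2π c θ).2, hr, hp'⟩
    refine lt_of_le_of_ne (toIcoMod_mem_Ico h2π c θ).1 ?_
    intro he
    rw [← he] at hp'
    exact hcv v r hr.le hp'.symm
  choose θ r hθ0 hθ1 hr0 hpt using hv
  -- every edge passes through the angle `c`
  have hedge : ∀ u v : Fin n, u ≠ v → ∃ g : ℝ → ℝ,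
      (θ u < θ v ∧ ContinuousOn g (Icc (θ v - 2 * Real.pi) (θ u)) ∧
        g (θ v - 2 * Real.pi) = Real.log (r v) ∧ g (θ u) = Real.log (r u) ∧
        D.curve u v = (fun t => polar O (Real.exp (g t)) t) '' Icc (θ v - 2 * Real.pi) (θ u)) ∨
      (θ v < θ u ∧ ContinuousOn g (Icc (θ u - 2 * Real.pi) (θ v)) ∧
        g (θ u - 2 * Real.pi) = Real.log (r u) ∧ g (θ v) = Real.log (r v) ∧
        D.curve u v = (fun t => polar O (Real.exp (g t)) t) '' Icc (θ u - 2 * Real.pi) (θ v)) := by
    intro u v huv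
    obtain ⟨α, β, ρ, hαβ, hβα, hρ, hpos, hc, hend⟩ := harc u v huv
    obtain ⟨r0, hr00, hr0m⟩ := hray u v huv
    rw [hc] at hr0m
    obtain ⟨t0, ht0, he0⟩ := hr0m
    have hr0pos : 0 < r0 := by
      rcases hr00.eq_or_lt with h0 | h0
      · exfalso
        subst h0
        simp only [polar, Complex.ofReal_zero, zero_mul, add_zero, add_eq_left,
          mul_eq_zero, Complex.exp_ne_zero, or_false, Complex.ofReal_eq_zero] at he0
        exact (hpos t0 ht0).ne' he0
      · exact h0
    obtain ⟨-, k, hk⟩ := (polar_eq_iff (hpos t0 ht0) hr0pos).1 he0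
    -- shifted end angles
    have hα := hpos α (left_mem_Icc.2 hαβ.le)
    have hβ := hpos β (right_mem_Icc.2 hαβ.le)
    have key : ∀ a b : Fin n, polar O (ρ α) α = D.pt a → polar O (ρ β) β = D.pt b →
        α = θ a - 2 * Real.pi + 2 * Real.pi * k ∧ β = θ b + 2 * Real.pi * k ∧
          ρ α = r a ∧ ρ β = r b := by
      intro a b ha hb
      rw [hpt] at ha hb
      obtain ⟨e1, k1, hk1⟩ := (polar_eq_iff hα (hr0 _)).1 ha
      obtain ⟨e2, k2, hk2⟩ := (polar_eq_iff hβ (hr0 _)).1 hb
      have b1 : k2 = k := by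
        have h3 : (k2 : ℝ) - k < 1 := by
          have : 2 * Real.pi * ((k2 : ℝ) - k) < 2 * Real.pi * 1 := by
            have e : 2 * Real.pi * ((k2 : ℝ) - k) = (β - t0) - (θ b - c) := by
              rw [hk2, hk]; ring
            rw [e]; linarith [hθ0 b, ht0.1]
          exact lt_of_mul_lt_mul_left this h2π.le
        have h4 : (-1 : ℝ) < (k2 : ℝ) - k := by
          have : 2 * Real.pi * (-1) < 2 * Real.pi * ((k2 : ℝ) - k) := by
            have e : 2 * Real.pi * ((k2 : ℝ) - k) = (β - t0) - (θ b - c) := by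
              rw [hk2, hk]; ring
            rw [e]; linarith [hθ1 b, ht0.2]
          exact lt_of_mul_lt_mul_left this h2π.le
        have h5 : k2 - k < 1 := by exact_mod_cast h3
        have h6 : -1 < k2 - k := by exact_mod_cast h4
        omega
      have b2 : k1 = k - 1 := by
        have h3 : (k1 : ℝ) - k < 0 := by
          have : 2 * Real.pi * ((k1 : ℝ) - k) < 2 * Real.pi * 0 := by
            have e : 2 * Real.pi * ((k1 : ℝ) - k) = (α - t0) - (θ a - c) := by
              rw [hk1, hk]; ring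
            rw [e]; linarith [hθ0 a, ht0.1]
          exact lt_of_mul_lt_mul_left this h2π.le
        have h4 : (-2 : ℝ) < (k1 : ℝ) - k := by
          have : 2 * Real.pi * (-2) < 2 * Real.pi * ((k1 : ℝ) - k) := by
            have e : 2 * Real.pi * ((k1 : ℝ) - k) = (α - t0) - (θ a - c) := by
              rw [hk1, hk]; ring
            rw [e]; linarith [hθ1 a, ht0.2]
          exact lt_of_mul_lt_mul_left this h2π.le
        have h5 : k1 - k < 0 := by exact_mod_cast h3
        have h6 : -2 < k1 - k := by exact_mod_cast h4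
        omega
      subst b1; subst b2
      refine ⟨?_, hk2, e1, e2⟩
      rw [hk1]; push_cast; ring
    have main : ∀ a b : Fin n, polar O (ρ α) α = D.pt a → polar O (ρ β) β = D.pt b →
        θ b < θ a ∧ ContinuousOn (fun t => Real.log (ρ (t + 2 * Real.pi * k)))
          (Icc (θ a - 2 * Real.pi) (θ b)) ∧
        Real.log (ρ (θ a - 2 * Real.pi + 2 * Real.pi * k)) = Real.log (r a) ∧
        Real.log (ρ (θ b + 2 * Real.pi * k)) = Real.log (r b) ∧
        D.curve u v = (fun t => polar O (Real.exp (Real.log (ρ (t + 2 * Real.pi * k)))) t) ''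
          Icc (θ a - 2 * Real.pi) (θ b) := by
      intro a b ha hb
      obtain ⟨e1, e2, e3, e4⟩ := key a b ha hb
      have hshift : ∀ t, t ∈ Icc (θ a - 2 * Real.pi) (θ b) ↔
          t + 2 * Real.pi * k ∈ Icc α β := by
        intro t
        rw [mem_Icc, mem_Icc, e1, e2]
        constructor <;> rintro ⟨p, q⟩ <;> constructor <;> linarith
      refine ⟨by linarith, ?_, by rw [← e1, e3], by rw [← e2, e4], ?_⟩
      · refine ContinuousOn.log ?_ ?_
        · refine hρ.comp (by fun_prop) ?_
          intro t ht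
          exact (hshift t).1 ht
        · intro t ht
          exact (hpos _ ((hshift t).1 ht)).ne'
      · rw [hc]
        ext p
        constructor
        · rintro ⟨s, hs, rfl⟩
          refine ⟨s - 2 * Real.pi * k, ?_, ?_⟩
          · rw [hshift]; simpa using hs
          · have e5 : s - 2 * Real.pi * k + 2 * Real.pi * k = s := by ring
            simp only [e5]
            rw [Real.exp_log (hpos s hs)]
            have := polar_two_pi O (ρ s) (s - 2 * Real.pi * k) k
            rw [e5] at this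
            exact this.symm
        · rintro ⟨t, ht, rfl⟩
          refine ⟨t + 2 * Real.pi * k, (hshift t).1 ht, ?_⟩
          simp only
          rw [polar_two_pi, Real.exp_log (hpos _ ((hshift t).1 ht))]
    refine ⟨fun t => Real.log (ρ (t + 2 * Real.pi * k)), ?_⟩
    rcases hend with ⟨h1, h2⟩ | ⟨h1, h2⟩
    · exact Or.inr (main u v h1 h2)
    · exact Or.inl (main v u h1 h2)
  have hθinj : Function.Injective θ := by
    intro u v huv
    by_contra hne
    obtain ⟨g, h | h⟩ := hedge u v hne
    · exact absurd h.1 (by rw [huv]; exact lt_irrefl _)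
    · exact absurd h.1 (by rw [huv]; exact lt_irrefl _)
  set σ := Tuple.sort θ with hσ
  have hmono : StrictMono (θ ∘ σ) :=
    (Tuple.monotone_sort θ).strictMono_of_injective (hθinj.comp σ.injective)
  have hn0 : 0 < n := by omega
  set w : ℕ → Fin n := fun k => if h : k < n then σ ⟨k, h⟩ else σ ⟨0, hn0⟩ with hw
  have hwk : ∀ k (h : k < n), w k = σ ⟨k, h⟩ := fun k h => by simp only [hw]; rw [dif_pos h]
  have hwinj : ∀ i j, i < n → j < n → w i = w j → i = j := by
    intro i j hi hj h
    rw [hwk i hi, hwk j hj] at h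
    have := σ.injective h
    simpa using this
  have hφ : ∀ i j, i < j → j < n → θ (w i) < θ (w j) := by
    intro i j hij hj
    rw [hwk i (hij.trans hj), hwk j hj]
    exact hmono (show (⟨i, _⟩ : Fin n) < ⟨j, _⟩ from hij)
  have hne : ∀ i j, i < j → j < n → w i ≠ w j := fun i j hij hj h =>
    hij.ne (hwinj i j (hij.trans hj) hj h)
  set f : ℕ → ℕ → ℝ → ℝ := fun i j => if h : i < j ∧ j < n then
    (hedge (w i) (w j) (hne i j h.1 h.2)).choose else fun _ => 0 with hf
  have hfs : ∀ i j (_ : i < j) (_ : j < n),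
      ContinuousOn (f i j) (Icc (θ (w j) - 2 * Real.pi) (θ (w i))) ∧
        f i j (θ (w j) - 2 * Real.pi) = Real.log (r (w j)) ∧
        f i j (θ (w i)) = Real.log (r (w i)) ∧
        D.curve (w i) (w j) = (fun t => polar O (Real.exp (f i j t)) t) ''
          Icc (θ (w j) - 2 * Real.pi) (θ (w i)) := by
    intro i j hij hj
    have h1 : f i j = (hedge (w i) (w j) (hne i j hij hj)).choose := by
      simp only [hf]
      rw [dif_pos ⟨hij, hj⟩]
    rw [h1]
    rcases (hedge (w i) (w j) (hne i j hij hj)).choose_spec with h | h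
    · exact h.2
    · exact absurd h.1 (not_lt.2 (hφ i j hij hj).le)
  exact ⟨{
    w := w
    φ := fun k => θ (w k)
    y := fun k => Real.log (r (w k))
    f := f
    mono := hφ
    span := fun i j _ _ => by
      have := hθ0 (w i)
      have := hθ1 (w j)

      linarith
    winj := hwinj
    pt_eq := fun k _ => by

      rw [Real.exp_log (hr0 _), hpt (w k)]
    cont := fun i j hij hj => (hfs i j hij hj).1
    left := fun i j hij hj => (hfs i j hij hj).2.1
    right := fun i j hij hj => (hfs i j hij hj).2.2.1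
    curve := fun i j hij hj => (hfs i j hij hj).2.2.2 }⟩

theorem of_generalizedTwisted {n : ℕ} (hn : 3 ≤ n) {D : SimpleDrawing n}
    (h : D.GeneralizedTwisted) : D.HasPlaneHamiltonian := by
  obtain ⟨O, ⟨T⟩⟩ := exists_twLift (by omega) h
  exact T.hasPlaneHamiltonian hn

end SimpleDraw
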