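import Mathlib
import Pool.Agent.SimpleDraw.CaseA

/-! # x-monotone drawings -/

open Set

namespace SimpleDraw

variable {n : ℕ} {D : SimpleDrawing n}

/-- Cartesian coordinates -/
noncomputable def cartChart : OpenPartialHomeomorph (ℝ × ℝ) ℂ :=
  Complex.equivRealProdCLM.symm.toHomeomorph.toOpenPartialHomeomorph

theorem cartChart_apply (t s : ℝ) : cartChart (t, s) = ⟨t, s⟩ := rfl

theorem of_xMonotone (hn : 3 ≤ n) (h : D.XMonotone) : D.HasPlaneHamiltonian := by
  classical
  have hn0 : 0 < n := by omega
  set X : Fin n → ℝ := fun v => (D.pt v).re with hX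
  have hXinj : Function.Injective X := by
    intro u v huv
    by_contra hne
    obtain ⟨α, β, f, hαβ, -, -, hend⟩ := h u v hne
    rcases hend with ⟨h1, h2⟩ | ⟨h1, h2⟩
    · have e1 : X u = α := by simp only [hX]; rw [← h1]
      have e2 : X v = β := by simp only [hX]; rw [← h2]
      linarith
    · have e1 : X v = α := by simp only [hX]; rw [← h1]
      have e2 : X u = β := by simp only [hX]; rw [← h2]
      linarith
  set σ := Tuple.sort X with hσ
  have hmono : StrictMono (X ∘ σ) :=
    (Tuple.monotone_sort X).strictMono_of_injective (hXinj.comp σ.injective)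
  set w : ℕ → Fin n := fun k => if hk : k < n then σ ⟨k, hk⟩ else ⟨0, hn0⟩ with hw
  have hw' : ∀ k (hk : k < n), w k = σ ⟨k, hk⟩ := fun k hk => by simp only [hw]; rw [dif_pos hk]
  have hXw : ∀ i j, i < j → j < n → X (w i) < X (w j) := by
    intro i j hij hj
    rw [hw' i (hij.trans hj), hw' j hj]
    exact hmono (show (⟨i, _⟩ : Fin n) < ⟨j, _⟩ from hij)
  have hwne : ∀ i j, i < j → j < n → w i ≠ w j := fun i j hij hj he => by
    have := hXw i j hij hj
    rw [he] at this
    exact lt_irrefl _ this
  have hex : ∀ i j, i < j → j < n → ∃ f : ℝ → ℝ, ContinuousOn f (Icc (X (w i)) (X (w j))) ∧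
      f (X (w i)) = (D.pt (w i)).im ∧ f (X (w j)) = (D.pt (w j)).im ∧
      D.curve (w i) (w j) = (fun t => (⟨t, f t⟩ : ℂ)) '' Icc (X (w i)) (X (w j)) := by
    intro i j hij hj
    obtain ⟨α, β, f, hαβ, hf, hc, hend⟩ := h _ _ (hwne i j hij hj)
    have hlt := hXw i j hij hj
    rcases hend with ⟨h1, h2⟩ | ⟨h1, h2⟩
    · have e1 : X (w i) = α := by simp only [hX]; rw [← h1]
      have e2 : X (w j) = β := by simp only [hX]; rw [← h2]
      rw [e1, e2]
      refine ⟨f, hf, ?_, ?_, hc⟩
      · rw [← h1]
      · rw [← h2]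
    · have e1 : X (w j) = α := by simp only [hX]; rw [← h1]
      have e2 : X (w i) = β := by simp only [hX]; rw [← h2]
      linarith
  choose! f hf using hex
  refine caseA hn (W := {
    w := w
    φ := fun k => X (w k)
    y := fun k => (D.pt (w k)).im
    f := f
    κ := cartChart
    mono := hXw
    src := fun t s _ _ => trivial
    winj := ?_
    pt_eq := fun i _ => ?_
    cont := fun i j hij hj => (hf i j hij hj).1
    left := fun i j hij hj => (hf i j hij hj).2.1
    right := fun i j hij hj => (hf i j hij hj).2.2.1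
    curve := fun i j hij hj => ?_ })
  · intro i j hi hj hij
    rw [hw' i hi, hw' j hj] at hij
    simpa using σ.injective hij
  · rw [cartChart_apply]
  · rw [(hf i j hij hj).2.2.2]
    rfl

end SimpleDraw
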